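import Pool.Agent.Work.DelaunayStretch.Defs

namespace MP_74021c_co

open Real

/-- The chord from `b` to `a` of the circle with centre `z` and radius `R`, in angular form. -/
structure Cfg (a b z : ℂ) (m β R : ℝ) : Prop where
  R_pos : 0 < R
  hm : |m| < π / 2
  hβ : |β| < π / 2
  are : a.re = z.re - R * sin (m + β)
  aim : a.im = z.im + R * cos (m + β)
  bre : b.re = z.re + R * sin (m - β)
  bim : b.im = z.im - R * cos (m - β)

lemma dist_sq (a z : ℂ) : dist a z ^ 2 = (a.re - z.re) ^ 2 + (a.im - z.im) ^ 2 := by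
  rw [Complex.dist_eq, Complex.sq_norm, Complex.normSq_apply]
  simp; ring

lemma dist_le_of_sq {a z : ℂ} {R : ℝ} (hR : 0 ≤ R)
    (h : (a.re - z.re) ^ 2 + (a.im - z.im) ^ 2 ≤ R ^ 2) : dist a z ≤ R := by
  rw [← dist_sq] at h
  exact (sq_le_sq₀ dist_nonneg hR).1 h

lemma le_dist_sq {a z : ℂ} {R : ℝ} (hR : 0 ≤ R) (h : R ≤ dist a z) :
    R ^ 2 ≤ (a.re - z.re) ^ 2 + (a.im - z.im) ^ 2 := by
  rw [← dist_sq]
  exact pow_le_pow_left₀ hR h 2

lemma dist_eq_of_sq {a z : ℂ} {R : ℝ} (hR : 0 ≤ R)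
    (h : (a.re - z.re) ^ 2 + (a.im - z.im) ^ 2 = R ^ 2) : dist a z = R := by
  rw [← dist_sq] at h
  exact (sq_eq_sq₀ dist_nonneg hR).1 h

namespace Cfg

variable {a b c z z' : ℂ} {m β R m' β' R' : ℝ}

lemma dist_a (h : Cfg a b z m β R) : dist a z = R := by
  apply dist_eq_of_sq h.R_pos.le
  rw [h.are, h.aim]
  have := sin_sq_add_cos_sq (m + β)
  nlinarith [this]

lemma dist_b (h : Cfg a b z m β R) : dist b z = R := by
  apply dist_eq_of_sq h.R_pos.le
  rw [h.bre, h.bim]
  have := sin_sq_add_cos_sq (m - β)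
  nlinarith [this]

lemma cos_m_pos (h : Cfg a b z m β R) : 0 < cos m :=
  cos_pos_of_mem_Ioo ⟨by linarith [(abs_lt.1 h.hm).1], (abs_lt.1 h.hm).2⟩

lemma cos_β_pos (h : Cfg a b z m β R) : 0 < cos β :=
  cos_pos_of_mem_Ioo ⟨by linarith [(abs_lt.1 h.hβ).1], (abs_lt.1 h.hβ).2⟩

lemma sub_re (h : Cfg a b z m β R) : a.re - b.re = -(2 * R * cos β * sin m) := by
  rw [h.are, h.bre, sin_add, sin_sub]; ring

lemma sub_im (h : Cfg a b z m β R) : a.im - b.im = 2 * R * cos β * cos m := by
  rw [h.aim, h.bim, cos_add, cos_sub]; ring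

lemma dist_ab (h : Cfg a b z m β R) : dist a b = 2 * R * cos β := by
  apply dist_eq_of_sq (by have := h.cos_β_pos; have := h.R_pos; positivity)
  rw [h.sub_re, h.sub_im]
  have := sin_sq_add_cos_sq m
  nlinarith [this]

end Cfg

lemma eq_of_sin_cos {x y : ℝ} (hs : sin x = sin y) (hc : cos x = cos y) (h : |x - y| < 2 * π) :
    x = y := by
  have h1 : cos (x - y) = 1 := by
    rw [cos_sub, hs, hc]; nlinarith [sin_sq_add_cos_sq y]
  have := (cos_eq_one_iff_of_lt_of_lt (by linarith [(abs_lt.1 h).1]) (abs_lt.1 h).2).1 h1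
  linarith

/-- existence of the angular form -/
lemma exists_cfg {a b z : ℂ} {R : ℝ} (hR : 0 < R) (hab : b.im < a.im) (ha : dist a z = R)
    (hb : dist b z = R) : ∃ m β, Cfg a b z m β R := by
  have ha2 : (a.re - z.re) ^ 2 + (a.im - z.im) ^ 2 = R ^ 2 := by rw [← dist_sq, ha]
  have hb2 : (b.re - z.re) ^ 2 + (b.im - z.im) ^ 2 = R ^ 2 := by rw [← dist_sq, hb]
  obtain ⟨c, hc⟩ : ∃ c, c = dist a b := ⟨_, rfl⟩
  have hc2 : (a.re - b.re) ^ 2 + (a.im - b.im) ^ 2 = c ^ 2 := by rw [hc, dist_sq]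
  have hcpos : 0 < c := by
    rw [hc]; apply dist_pos.2; rintro rfl; exact lt_irrefl _ hab
  obtain ⟨sm, hsm⟩ : ∃ sm, sm = -((a.re - b.re) / c) := ⟨_, rfl⟩
  obtain ⟨cm, hcm⟩ : ∃ cm, cm = (a.im - b.im) / c := ⟨_, rfl⟩
  have hcm_pos : 0 < cm := by rw [hcm]; exact div_pos (by linarith) hcpos
  have hsc : sm ^ 2 + cm ^ 2 = 1 := by
    rw [hsm, hcm]; field_simp; nlinarith [hc2]
  have hsm1 : sm < 1 := by nlinarith
  have hsm2 : -1 < sm := by nlinarith
  obtain ⟨m, hm⟩ : ∃ m, m = arcsin sm := ⟨_, rfl⟩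
  have hsinm : sin m = sm := by rw [hm]; exact sin_arcsin hsm2.le hsm1.le
  have hcosm : cos m = cm := by
    rw [hm, cos_arcsin]
    rw [show 1 - sm ^ 2 = cm ^ 2 by linarith]
    exact sqrt_sq hcm_pos.le
  have hmabs : |m| < π / 2 := by
    rw [abs_lt, hm]
    exact ⟨neg_pi_div_two_lt_arcsin.2 hsm2, arcsin_lt_pi_div_two.2 hsm1⟩
  have hare : a.re - b.re = -(c * sm) := by rw [hsm]; field_simp
  have haim : a.im - b.im = c * cm := by rw [hcm]; field_simp
  -- t
  obtain ⟨u, hu⟩ : ∃ u, u = z.re - (a.re + b.re) / 2 := ⟨_, rfl⟩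
  obtain ⟨v, hv⟩ : ∃ v, v = z.im - (a.im + b.im) / 2 := ⟨_, rfl⟩
  obtain ⟨t, ht⟩ : ∃ t, t = u * cm + v * sm := ⟨_, rfl⟩
  have hperp : u * (a.re - b.re) + v * (a.im - b.im) = 0 := by
    rw [hu, hv]; linear_combination (hb2 - ha2) / 2
  rw [hare, haim] at hperp
  have hperp' : u * (-sm) + v * cm = 0 := by
    have : c * (u * (-sm) + v * cm) = 0 := by linarith
    rcases mul_eq_zero.1 this with h | h
    · exact absurd h hcpos.ne'
    · exact h
  have hzre : u = t * cm := by
    rw [ht]; linear_combination (-u) * hsc + (-sm) * hperp'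
  have hzim : v = t * sm := by
    rw [ht]; linear_combination (-v) * hsc + cm * hperp'
  have hRt : R ^ 2 = t ^ 2 + (c / 2) ^ 2 := by
    have e1 : a.re - z.re = -(c / 2 * sm) - t * cm := by linarith
    have e2 : a.im - z.im = c / 2 * cm - t * sm := by linarith
    rw [e1, e2] at ha2
    rw [← ha2]
    linear_combination (t ^ 2 + (c / 2) ^ 2) * hsc
  obtain ⟨sb, hsb⟩ : ∃ sb, sb = t / R := ⟨_, rfl⟩
  obtain ⟨cb, hcb⟩ : ∃ cb, cb = c / 2 / R := ⟨_, rfl⟩
  have hcb_pos : 0 < cb := by rw [hcb]; positivity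
  have hsc' : sb ^ 2 + cb ^ 2 = 1 := by
    rw [hsb, hcb, div_pow, div_pow, ← add_div, ← hRt, div_self (by positivity)]
  have hsb1 : sb < 1 := by nlinarith
  have hsb2 : -1 < sb := by nlinarith
  obtain ⟨β, hβ⟩ : ∃ β, β = arcsin sb := ⟨_, rfl⟩
  have hsinβ : sin β = sb := by rw [hβ]; exact sin_arcsin hsb2.le hsb1.le
  have hcosβ : cos β = cb := by
    rw [hβ, cos_arcsin]
    rw [show 1 - sb ^ 2 = cb ^ 2 by linarith]
    exact sqrt_sq hcb_pos.le
  have hβabs : |β| < π / 2 := by
    rw [abs_lt, hβ]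
    exact ⟨neg_pi_div_two_lt_arcsin.2 hsb2, arcsin_lt_pi_div_two.2 hsb1⟩
  have hRsb : R * sb = t := by rw [hsb]; field_simp
  have hRcb : R * cb = c / 2 := by rw [hcb]; field_simp
  refine ⟨m, β, hR, hmabs, hβabs, ?_, ?_, ?_, ?_⟩
  · rw [sin_add, hsinm, hcosm, hsinβ, hcosβ]
    linear_combination sm * hRcb + cm * hRsb + hare / 2 - hzre + hu
  · rw [cos_add, hsinm, hcosm, hsinβ, hcosβ]
    linear_combination (-cm) * hRcb + sm * hRsb + haim / 2 - hzim + hv
  · rw [sin_sub, hsinm, hcosm, hsinβ, hcosβ]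
    linear_combination (-sm) * hRcb + cm * hRsb - hare / 2 - hzre + hu
  · rw [cos_sub, hsinm, hcosm, hsinβ, hcosβ]
    linear_combination (cm) * hRcb + sm * hRsb - haim / 2 - hzim + hv

namespace Cfg

variable {a b c z z' : ℂ} {m β R m' β' R' : ℝ}

/-- the angle of the lower endpoint is determined -/
lemma eq_B (h : Cfg a b z m β R) (h' : Cfg c b z m' β' R) : m - β = m' - β' := by
  have hR := h.R_pos
  apply eq_of_sin_cos
  · have := h.bre; have := h'.bre
    have : R * sin (m - β) = R * sin (m' - β') := by linarith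
    exact mul_left_cancel₀ hR.ne' this
  · have := h.bim; have := h'.bim
    have : R * cos (m - β) = R * cos (m' - β') := by linarith
    exact mul_left_cancel₀ hR.ne' this
  · have h1 := abs_lt.1 h.hm; have h2 := abs_lt.1 h.hβ
    have h3 := abs_lt.1 h'.hm; have h4 := abs_lt.1 h'.hβ
    rw [abs_lt]; constructor <;> linarith

/-- the angle of the upper endpoint is determined -/
lemma eq_A (h : Cfg a b z m β R) (h' : Cfg a c z m' β' R) : m + β = m' + β' := by
  have hR := h.R_pos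
  apply eq_of_sin_cos
  · have := h.are; have := h'.are
    have : R * sin (m + β) = R * sin (m' + β') := by linarith
    exact mul_left_cancel₀ hR.ne' this
  · have := h.aim; have := h'.aim
    have : R * cos (m + β) = R * cos (m' + β') := by linarith
    exact mul_left_cancel₀ hR.ne' this
  · have h1 := abs_lt.1 h.hm; have h2 := abs_lt.1 h.hβ
    have h3 := abs_lt.1 h'.hm; have h4 := abs_lt.1 h'.hβ
    rw [abs_lt]; constructor <;> linarith

/-- `m` is determined by the direction of `a - b` -/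
lemma eq_m (h : Cfg a b z m β R) (h' : Cfg a b z' m' β' R') : m = m' := by
  have hc : 2 * R * cos β = 2 * R' * cos β' := by rw [← h.dist_ab, ← h'.dist_ab]
  have hpos : 0 < 2 * R * cos β := by
    have := h.cos_β_pos; have := h.R_pos; positivity
  have h1 := h.sub_re
  have h2 := h'.sub_re
  have h3 : 2 * R * cos β * sin m = 2 * R * cos β * sin m' := by
    rw [h1] at h2; rw [hc] at h2 ⊢; linarith
  have h4 : sin m = sin m' := mul_left_cancel₀ hpos.ne' h3
  apply injOn_sin _ _ h4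
  · exact ⟨by linarith [(abs_lt.1 h.hm).1], (abs_lt.1 h.hm).2.le⟩
  · exact ⟨by linarith [(abs_lt.1 h'.hm).1], (abs_lt.1 h'.hm).2.le⟩

lemma valid (h : Cfg a b z m β R) (ha : 0 ≤ a.im) (hb : b.im ≤ 0) : Valid (z.im / R) β m := by
  have hR := h.R_pos
  refine ⟨h.hβ.le, h.hm.le, ?_, ?_⟩
  · rw [le_div_iff₀ hR]
    have := h.aim; nlinarith
  · rw [div_le_iff₀ hR]
    have := h.bim; nlinarith

lemma abs_s_le (h : Cfg a b z m β R) (ha : 0 ≤ a.im) (hb : b.im ≤ 0) : |z.im / R| ≤ 1 := by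
  obtain ⟨_, _, h1, h2⟩ := h.valid ha hb
  rw [abs_le]
  exact ⟨by linarith [cos_le_one (m + β)], by linarith [cos_le_one (m - β)]⟩

lemma chord_sq_le (x y R : ℝ) :
    (R * sin x - R * sin y) ^ 2 + (R * cos x - R * cos y) ^ 2 ≤ (R * (x - y)) ^ 2 := by
  have h1 := one_sub_sq_div_two_le_cos (x := x - y)
  rw [cos_sub] at h1
  have h2 := sin_sq_add_cos_sq x
  have h3 := sin_sq_add_cos_sq y
  have h4 : (R * sin x - R * sin y) ^ 2 + (R * cos x - R * cos y) ^ 2
      = R ^ 2 * (2 - 2 * (cos x * cos y + sin x * sin y)) := by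
    linear_combination R ^ 2 * h2 + R ^ 2 * h3
  rw [h4]
  nlinarith [sq_nonneg R, mul_le_mul_of_nonneg_left h1 (sq_nonneg R)]

lemma dist_le_A {a c z : ℂ} {A A' R : ℝ} (hR : 0 ≤ R) (hA : A' ≤ A)
    (h1 : a.re = z.re - R * sin A) (h2 : a.im = z.im + R * cos A)
    (h3 : c.re = z.re - R * sin A') (h4 : c.im = z.im + R * cos A') :
    dist a c ≤ R * (A - A') := by
  apply dist_le_of_sq (mul_nonneg hR (by linarith))
  rw [h1, h2, h3, h4]
  have := chord_sq_le A A' R
  nlinarith [this]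

lemma dist_le_B {a c z : ℂ} {A A' R : ℝ} (hR : 0 ≤ R) (hA : A ≤ A')
    (h1 : a.re = z.re + R * sin A) (h2 : a.im = z.im - R * cos A)
    (h3 : c.re = z.re + R * sin A') (h4 : c.im = z.im - R * cos A') :
    dist a c ≤ R * (A' - A) := by
  apply dist_le_of_sq (mul_nonneg hR (by linarith))
  rw [h1, h2, h3, h4]
  have := chord_sq_le A A' R
  nlinarith [this]

/-- the upper endpoint moves from `a` to `c` -/
lemma moveA_params (h : Cfg a b z m β R) (h' : Cfg c b z m' β' R)
    (hc : 0 < cross (c - b) (a - b)) :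
    ∃ α, 0 < α ∧ m' = m - α ∧ β' = β - α ∧ dist a c ≤ 2 * R * α := by
  have hR := h.R_pos
  have hB := h.eq_B h'
  have hα : 0 < m - m' := by
    have hcr : cross (c - b) (a - b) = (2 * R * cos β') * (2 * R * cos β) * sin (m - m') := by
      have e1 := h.sub_re; have e2 := h.sub_im; have e3 := h'.sub_re; have e4 := h'.sub_im
      simp only [cross, Complex.sub_re, Complex.sub_im]
      rw [e1, e2, e3, e4, sin_sub]; ring
    rw [hcr] at hc
    have h1 : 0 < (2 * R * cos β') * (2 * R * cos β) := by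
      have := h.cos_β_pos; have := h'.cos_β_pos; positivity
    have h2 : 0 < sin (m - m') := (pos_iff_pos_of_mul_pos hc).1 h1
    by_contra hneg
    push Not at hneg
    have h3 := abs_lt.1 h.hm; have h4 := abs_lt.1 h'.hm
    have h5 : sin (m - m') ≤ 0 := sin_nonpos_of_nonpos_of_neg_pi_le hneg (by linarith)
    linarith
  refine ⟨m - m', hα, by ring, by linarith, ?_⟩
  have := dist_le_A (A := m + β) (A' := m' + β') hR.le (by linarith) h.are h.aim h'.are h'.aim
  calc dist a c ≤ R * (m + β - (m' + β')) := this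
    _ = 2 * R * (m - m') := by
      rw [show m + β - (m' + β') = 2 * (m - m') by linarith]; ring

/-- the lower endpoint moves from `b` to `c` -/
lemma moveB_params (h : Cfg a b z m β R) (h' : Cfg a c z m' β' R)
    (hc : 0 < cross (c - b) (a - b)) :
    ∃ α, 0 < α ∧ m' = m + α ∧ β' = β - α ∧ dist b c ≤ 2 * R * α := by
  have hR := h.R_pos
  have hB := h.eq_A h'
  have hα : 0 < m' - m := by
    have hcr : cross (c - b) (a - b) = (2 * R * cos β') * (2 * R * cos β) * sin (m' - m) := by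
      have e0 : cross (c - b) (a - b) = - cross (a - c) (a - b) := by
        simp only [cross, Complex.sub_re, Complex.sub_im]; ring
      have e1 := h.sub_re; have e2 := h.sub_im; have e3 := h'.sub_re; have e4 := h'.sub_im
      rw [e0]
      simp only [cross, Complex.sub_re, Complex.sub_im]
      rw [e1, e2, e3, e4, sin_sub]; ring
    rw [hcr] at hc
    have h1 : 0 < (2 * R * cos β') * (2 * R * cos β) := by
      have := h.cos_β_pos; have := h'.cos_β_pos; positivity
    have h2 : 0 < sin (m' - m) := (pos_iff_pos_of_mul_pos hc).1 h1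
    by_contra hneg
    push Not at hneg
    have h3 := abs_lt.1 h.hm; have h4 := abs_lt.1 h'.hm
    have h5 : sin (m' - m) ≤ 0 := sin_nonpos_of_nonpos_of_neg_pi_le hneg (by linarith)
    linarith
  refine ⟨m' - m, hα, by ring, by linarith, ?_⟩
  have := dist_le_B (A := m - β) (A' := m' - β') hR.le (by linarith) h.bre h.bim h'.bre h'.bim
  calc dist b c ≤ R * (m' - β' - (m - β)) := this
    _ = 2 * R * (m' - m) := by
      rw [show m' - β' - (m - β) = 2 * (m' - m) by linarith]; ring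

/-- the centre moves forward -/
lemma β_le (h : Cfg a b z m β R) (h' : Cfg a b z' m' β' R') (hc : 0 < cross (c - b) (a - b))
    (h1 : R ≤ dist c z) (h2 : dist c z' = R') : β ≤ β' := by
  obtain rfl : m = m' := h.eq_m h'
  have hR := h.R_pos
  have hR' := h'.R_pos
  have hcos : R * cos β = R' * cos β' := by
    have e1 := h.dist_ab; have e2 := h'.dist_ab; linarith
  have hβc := h.cos_β_pos
  have hβc' := h'.cos_β_pos
  -- centres
  have hz1 : z'.re - z.re = (R' * sin β' - R * sin β) * cos m := by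
    have e1 := h.are; have e2 := h.bre; have e3 := h'.are; have e4 := h'.bre
    rw [sin_add] at e1 e3; rw [sin_sub] at e2 e4
    linear_combination (e1 + e2 - e3 - e4) / 2
  have hz2 : z'.im - z.im = (R' * sin β' - R * sin β) * sin m := by
    have e1 := h.aim; have e2 := h.bim; have e3 := h'.aim; have e4 := h'.bim
    rw [cos_add] at e1 e3; rw [cos_sub] at e2 e4
    linear_combination (e1 + e2 - e3 - e4) / 2
  have hp1 := le_dist_sq hR.le h1
  have hp2 : (c.re - z'.re) ^ 2 + (c.im - z'.im) ^ 2 = R' ^ 2 := by rw [← dist_sq, h2]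
  have ha1 : (a.re - z.re) ^ 2 + (a.im - z.im) ^ 2 = R ^ 2 := by rw [← dist_sq, h.dist_a]
  have ha2 : (a.re - z'.re) ^ 2 + (a.im - z'.im) ^ 2 = R' ^ 2 := by rw [← dist_sq, h'.dist_a]
  -- (z' - z) . (c - a) >= 0
  have hdot : 0 ≤ (z'.re - z.re) * (c.re - a.re) + (z'.im - z.im) * (c.im - a.im) := by
    nlinarith [hp1, hp2, ha1, ha2]
  rw [hz1, hz2] at hdot
  have hfw : 0 < cos m * (c.re - a.re) + sin m * (c.im - a.im) := by
    have hcr : cross (c - b) (a - b)
        = (2 * R * cos β) * (cos m * (c.re - a.re) + sin m * (c.im - a.im)) := by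
      have e1 := h.sub_re; have e2 := h.sub_im
      simp only [cross, Complex.sub_re, Complex.sub_im]
      rw [e1, e2]
      linear_combination ((2 * R * cos β) * cos m) * e1 + ((2 * R * cos β) * sin m) * e2
    rw [hcr] at hc
    exact (pos_iff_pos_of_mul_pos hc).1 (by positivity)
  have ht : 0 ≤ R' * sin β' - R * sin β := by
    by_contra hneg
    push Not at hneg
    have := mul_neg_of_neg_of_pos hneg hfw
    nlinarith
  -- tan β ≤ tan β'
  by_contra hlt
  push Not at hlt
  have hs : 0 < sin (β - β') := by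
    apply sin_pos_of_pos_of_lt_pi (by linarith)
    have h3 := abs_lt.1 h.hβ; have h4 := abs_lt.1 h'.hβ
    linarith
  rw [sin_sub] at hs
  -- R sinβ * R' cosβ' - R cosβ * R' sinβ' > 0
  have h5 : 0 < R * R' * (sin β * cos β' - cos β * sin β') := by positivity
  have h6 : R * R' * (sin β * cos β' - cos β * sin β')
      = (R * cos β) * (R * sin β - R' * sin β') := by
    linear_combination (-(R * sin β)) * hcos
  rw [h6] at h5
  have h7 : 0 < R * cos β := by positivity
  nlinarith [mul_nonneg h7.le ht]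

end Cfg

end MP_74021c_co
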