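import Pool.Agent.Work.DelaunayStretch.Table

namespace MP_74021c_co

/-- `List.all` by the recursor -/
noncomputable def allR {α : Type} (p : α → Bool) (l : List α) : Bool :=
  List.rec (motive := fun _ => Bool) true (fun a _ r => and (p a) r) l

lemma allR_eq {α : Type} {p : α → Bool} {l : List α} (h : allR p l = true) : ∀ a ∈ l, p a = true := by
  induction l with
  | nil => intro a ha; simp at ha
  | cons x l ih =>
    have h' : and (p x) (allR p l) = true := h
    rw [Bool.and_eq_true] at h'
    intro a ha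
    rcases List.mem_cons.1 ha with rfl | ha
    · exact h'.1
    · exact ih h'.2 a ha

/-- evaluate a natural number first -/
noncomputable def force (n : ℕ) (f : ℕ → Bool) : Bool :=
  Nat.rec (motive := fun _ => Bool) (f 0) (fun k _ => f (Nat.succ k)) n

lemma force_eq (n : ℕ) (f : ℕ → Bool) : force n f = f n := by
  cases n <;> rfl

noncomputable def rowR (L E : ℕ) (l : List (ℕ × ℕ)) : Bool :=
  allR (fun p => Nat.ble (Nat.add L (Nat.mul E p.1)) p.2) l

noncomputable def LP (c : CP) (n : ND) : ℕ :=
  8192 * (c.A * (n.cU * 1000000000 + n.bU * n.sU) - n.sL * (c.P * n.bL + 2 * c.Pi * n.cL))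
    + 1000000000 * ((c.A - c.P) * n.bN + (2 * c.P + 8 * c.Pi + 2 * c.W - c.A) * n.cP)

noncomputable def EP (c : CP) (n : ND) : ℕ := 8192 * (c.U * n.bU + 2 * c.W * n.cU)

noncomputable def LM (c : CP) (n : ND) : ℕ :=
  8192 * (c.A * (n.cU * 1000000000 + n.bU * n.sU) + 2 * c.Pi * n.sU * n.cU - n.sL * (c.P * n.bL))
    + 1000000000 * ((c.A - c.P) * n.bN + (2 * c.P + 8 * c.Pi + 2 * c.W - c.A) * n.cP)

noncomputable def EM (c : CP) (n : ND) : ℕ :=
  8192 * ((c.U * n.bU - 2 * c.W * n.cL) + (2 * c.W * n.cU - c.U * n.bL))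

noncomputable def chkNode (l : List (ℕ × ℕ)) (c : CP) (n : ND) : Bool :=
  and (force (LP c n) fun L => force (EP c n) fun E => rowR L E l)
    (and (force (LM c n) fun L => force (EM c n) fun E => rowR L E l)
      (and (Nat.ble (c.U * n.bU + 2 * c.W * n.cU) (480000 * 1000000000))
        (and (Nat.ble c.P c.A) (Nat.ble c.A (2 * c.P + 8 * c.Pi + 2 * c.W)))))

set_option maxRecDepth 100000

theorem chk1 : allR (fun c => allR (chkNode cols c) nodes) (cps.take 10) = true := by
  decide +kernel

theorem chk2 : allR (fun c => allR (chkNode cols c) nodes) ((cps.drop 10).take 9) = true := by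
  decide +kernel

theorem chk3 : allR (fun c => and (allR (chkNode cols c) (nodes.take 50))
    (allR (chkNode (cols.take 50) c) (nodes.drop 50))) (cps.drop 19) = true := by
  decide +kernel

end MP_74021c_co
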