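import Mathlib

/-!
Definitions for the upper bound on the stretch factor of Delaunay triangulations
(problem MP_74021c_co).
-/

namespace MP_74021c_co

open Real

/-- Length of a walk in a graph on points of the plane. -/
noncomputable def walkLength {G : SimpleGraph ℂ} {p q : ℂ} (w : G.Walk p q) : ℝ :=
  (w.darts.map fun d => dist d.fst d.snd).sum

/-- Twice the signed area of the triangle `0, u, v`. -/
def cross (u v : ℂ) : ℝ := u.re * v.im - u.im * v.re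

/-- What the argument needs to know about a graph on the finite set `S`. -/
structure IsFlow (S : Finset ℂ) (G : SimpleGraph ℂ) : Prop where
  start : ∀ p ∈ S, ∀ q ∈ S, p ≠ q → (∀ s ∈ S, s ∉ openSegment ℝ p q) →
    G.Adj p q ∨ ∃ a ∈ S, ∃ b ∈ S, ∃ z : ℂ, G.Adj p a ∧ G.Adj p b ∧ G.Adj a b ∧
      0 < cross (q - p) (a - p) ∧ cross (q - p) (b - p) < 0 ∧ cross (a - p) (b - p) < 0 ∧
      dist a z = dist p z ∧ dist b z = dist p z ∧ ∀ s ∈ S, dist p z ≤ dist s z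
  next : ∀ a ∈ S, ∀ b ∈ S, ∀ q ∈ S, G.Adj a b → 0 < cross (q - b) (a - b) →
    ∃ c ∈ S, 0 < cross (c - b) (a - b) ∧ G.Adj a c ∧ G.Adj b c ∧
      ∃ z : ℂ, dist b z = dist a z ∧ dist c z = dist a z ∧ ∀ s ∈ S, dist a z ≤ dist s z

/-- The parameters `s, β, m` describe a chord whose upper endpoint is above the axis and whose
lower endpoint is below the axis. -/
def Valid (s β m : ℝ) : Prop :=
  |β| ≤ π / 2 ∧ |m| ≤ π / 2 ∧ -cos (m + β) ≤ s ∧ s ≤ cos (m - β)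

/-- The properties of a potential with constant `ρ`. -/
structure Potential (ρ : ℝ) (K : ℝ → ℝ → ℝ → ℝ) (k : ℝ → ℝ) : Prop where
  one_le : 1 ≤ ρ
  k_le : ∀ s, |s| ≤ 1 → |k s| ≤ 1 / 2
  moveA : ∀ s β m α, |s| ≤ 1 → 0 ≤ α → Valid s β m → Valid s (β - α) (m - α) →
    (1 + 2 * k s) * α ≤ K s β m - K s (β - α) (m - α)
  moveB : ∀ s β m α, |s| ≤ 1 → 0 ≤ α → Valid s β m → Valid s (β - α) (m + α) →
    (1 - 2 * k s) * α ≤ K s β m - K s (β - α) (m + α)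
  moveR : ∀ m τ δ β₁ β₂, |m| < π / 2 → |τ| ≤ 1 → |δ| ≤ 1 → -(π / 2) < β₁ → β₁ ≤ β₂ → β₂ < π / 2 →
    -ρ * cos m * tan β₂ + K (sin m * sin β₂ + τ * cos m * cos β₂) β₂ m / cos β₂
        + 2 * δ * k (sin m * sin β₂ + τ * cos m * cos β₂) ≤
      -ρ * cos m * tan β₁ + K (sin m * sin β₁ + τ * cos m * cos β₁) β₁ m / cos β₁
        + 2 * δ * k (sin m * sin β₁ + τ * cos m * cos β₁)
  start : ∀ θ, |θ| ≤ π / 2 → K (sin θ) (π / 2) θ ≤ ρ * cos θ
  fin : ∀ θ, |θ| ≤ π / 2 → -(ρ * cos θ) ≤ K (sin θ) (-(π / 2)) (-θ)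

end MP_74021c_co
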