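import Pool.Agent.Work.DelaunayStretch.Graph

namespace MP_74021c_co

open Real

/-- `T` is a Delaunay triangulation of the finite set `S` of points of the plane: a simplicial
complex with vertex set `S` covering the convex hull of `S` such that no point of `S` lies inside
the circumcircle of a triangle of `T`. -/
structure IsDelaunayTriangulation (S : Finset ℂ) (T : Geometry.SimplicialComplex ℝ ℂ) : Prop where
  vertices_eq : T.vertices = (S : Set ℂ)
  space_eq : T.space = convexHull ℝ (S : Set ℂ)
  empty_circle : ∀ t ∈ T.faces, t.card = 3 → ∀ (z : ℂ) (r : ℝ), (∀ v ∈ t, dist v z = r) →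
    ∀ w ∈ S, ¬ dist w z < r

/-- The graph formed by the edges of a simplicial complex. -/
def edgeGraph (T : Geometry.SimplicialComplex ℝ ℂ) : SimpleGraph ℂ where
  Adj u v := u ≠ v ∧ ({u, v} : Finset ℂ) ∈ T.faces
  symm := ⟨fun _ _ ⟨h1, h2⟩ => ⟨h1.symm, by rwa [Finset.pair_comm]⟩⟩
  loopless := ⟨fun _ h => h.1 rfl⟩

lemma exists_circumcenter {p a b : ℂ} (h : cross (a - p) (b - p) ≠ 0) :
    ∃ z : ℂ, dist a z = dist p z ∧ dist b z = dist p z := by
  obtain ⟨u, hu⟩ : ∃ u, u = a - p := ⟨_, rfl⟩
  obtain ⟨v, hv⟩ : ∃ v, v = b - p := ⟨_, rfl⟩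
  rw [← hu, ← hv] at h
  obtain ⟨D, hD⟩ : ∃ D, D = cross u v := ⟨_, rfl⟩
  rw [← hD] at h
  obtain ⟨x, hx⟩ : ∃ x, x = ((u.re ^ 2 + u.im ^ 2) * v.im - (v.re ^ 2 + v.im ^ 2) * u.im) / (2 * D) :=
    ⟨_, rfl⟩
  obtain ⟨y, hy⟩ : ∃ y, y = ((v.re ^ 2 + v.im ^ 2) * u.re - (u.re ^ 2 + u.im ^ 2) * v.re) / (2 * D) :=
    ⟨_, rfl⟩
  have hx' : 2 * D * x = (u.re ^ 2 + u.im ^ 2) * v.im - (v.re ^ 2 + v.im ^ 2) * u.im := by
    rw [hx]; field_simp
  have hy' : 2 * D * y = (v.re ^ 2 + v.im ^ 2) * u.re - (u.re ^ 2 + u.im ^ 2) * v.re := by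
    rw [hy]; field_simp
  have e1 : 2 * (u.re * x + u.im * y) = u.re ^ 2 + u.im ^ 2 := by
    have : D * (2 * (u.re * x + u.im * y) - (u.re ^ 2 + u.im ^ 2)) = 0 := by
      have h3 : D = u.re * v.im - u.im * v.re := hD
      linear_combination u.re * hx' + u.im * hy' - (u.re ^ 2 + u.im ^ 2) * h3
    have := (mul_eq_zero.1 this).resolve_left h
    linarith
  have e2 : 2 * (v.re * x + v.im * y) = v.re ^ 2 + v.im ^ 2 := by
    have : D * (2 * (v.re * x + v.im * y) - (v.re ^ 2 + v.im ^ 2)) = 0 := by
      have h3 : D = u.re * v.im - u.im * v.re := hD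
      linear_combination v.re * hx' + v.im * hy' - (v.re ^ 2 + v.im ^ 2) * h3
    have := (mul_eq_zero.1 this).resolve_left h
    linarith
  have ha : a = p + u := by rw [hu]; ring
  have hb : b = p + v := by rw [hv]; ring
  refine ⟨⟨p.re + x, p.im + y⟩, ?_, ?_⟩
  · apply dist_eq_dist_of_sq
    rw [ha]
    simp only [Complex.add_re, Complex.add_im]
    linear_combination -e1
  · apply dist_eq_dist_of_sq
    rw [hb]
    simp only [Complex.add_re, Complex.add_im]
    linear_combination -e2

variable {S : Finset ℂ} {T : Geometry.SimplicialComplex ℝ ℂ}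

lemma IsDelaunayTriangulation.finite (hT : IsDelaunayTriangulation S T) : T.faces.Finite := by
  classical
  apply (S.powerset.finite_toSet).subset
  intro f hf
  simp only [Finset.coe_powerset, Set.mem_preimage, Set.mem_powerset_iff]
  intro v hv
  have : v ∈ T.vertices := T.down_closed hf (by simpa using hv) (Finset.singleton_nonempty _)
  rwa [hT.vertices_eq] at this

lemma IsDelaunayTriangulation.mem (hT : IsDelaunayTriangulation S T) {f : Finset ℂ}
    (hf : f ∈ T.faces) {v : ℂ} (hv : v ∈ f) : v ∈ S := by
  have : v ∈ T.vertices := T.down_closed hf (by simpa using hv) (Finset.singleton_nonempty _)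
  rwa [hT.vertices_eq] at this

/-- a face containing `x` and a point close to `x` in the direction of `y` -/
lemma local_face (hT : IsDelaunayTriangulation S T) {x y : ℂ}
    (hx : x ∈ convexHull ℝ (S : Set ℂ)) (hy : y ∈ convexHull ℝ (S : Set ℂ)) :
    ∃ f ∈ T.faces, x ∈ convexHull ℝ (f : Set ℂ) ∧ ∃ t : ℝ, 0 < t ∧ t ≤ 1 ∧
      x + t • (y - x) ∈ convexHull ℝ (f : Set ℂ) := by
  by_contra hno
  push Not at hno
  have h1 : ∀ f ∈ T.faces, ∀ᶠ t : ℝ in nhdsWithin 0 (Set.Ioi 0),
      x + t • (y - x) ∉ convexHull ℝ (f : Set ℂ) := by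
    intro f hf
    by_cases hxf : x ∈ convexHull ℝ (f : Set ℂ)
    · have := hno f hf hxf
      have h2 : ∀ᶠ t : ℝ in nhdsWithin 0 (Set.Ioi 0), t ∈ Set.Ioc (0 : ℝ) 1 :=
        Ioc_mem_nhdsGT one_pos
      filter_upwards [h2] with t ht
      exact this t ht.1 ht.2
    · have hcl : IsClosed (convexHull ℝ (f : Set ℂ)) := f.finite_toSet.isClosed_convexHull ℝ
      have hcont : Continuous fun t : ℝ => x + t • (y - x) := by fun_prop
      have h3 : ∀ᶠ t : ℝ in nhds 0, x + t • (y - x) ∈ (convexHull ℝ (f : Set ℂ))ᶜ := by
        apply hcont.continuousAt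
        apply hcl.isOpen_compl.mem_nhds
        simpa using hxf
      exact h3.filter_mono nhdsWithin_le_nhds
  have h2 := (Filter.eventually_all_finite hT.finite).2 h1
  have h3 : ∀ᶠ t : ℝ in nhdsWithin 0 (Set.Ioi 0), t ∈ Set.Ioc (0 : ℝ) 1 :=
    Ioc_mem_nhdsGT one_pos
  obtain ⟨t, ht1, ht2⟩ := (h2.and h3).exists
  have h4 : x + t • (y - x) ∈ convexHull ℝ (S : Set ℂ) := by
    have := (convex_convexHull ℝ (S : Set ℂ)) hx hy (show (0 : ℝ) ≤ 1 - t by linarith [ht2.2])
      ht2.1.le (by ring)
    convert this using 1
    rw [smul_sub, sub_smul, one_smul]; abel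
  rw [← hT.space_eq, Geometry.SimplicialComplex.mem_space_iff] at h4
  obtain ⟨f, hf, h5⟩ := h4
  exact ht1 f hf h5

/-- the level set of the affine function `cross (· - b) v` -/
lemma exists_pos_of_mem_convexHull {f : Finset ℂ} {b v x : ℂ}
    (hx : x ∈ convexHull ℝ (f : Set ℂ)) (h : 0 < cross (x - b) v) :
    ∃ c ∈ f, 0 < cross (c - b) v := by
  by_contra hno
  push Not at hno
  have hconv : Convex ℝ {s : ℂ | cross (s - b) v ≤ 0} := by
    intro s hs t ht u w hu hw huw
    simp only [Set.mem_ofPred_eq] at hs ht ⊢
    have : cross (u • s + w • t - b) v = u * cross (s - b) v + w * cross (t - b) v := by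
      simp only [cross, Complex.sub_re, Complex.sub_im, Complex.add_re, Complex.add_im,
        Complex.smul_re, Complex.smul_im, smul_eq_mul]
      linear_combination (b.re * v.im - b.im * v.re) * (huw)
    rw [this]
    have e1 := mul_nonpos_of_nonneg_of_nonpos hu hs
    have e2 := mul_nonpos_of_nonneg_of_nonpos hw ht
    linarith
  have : cross (x - b) v ≤ 0 := convexHull_min (s := (f : Set ℂ)) (fun s hs => hno s hs) hconv hx
  linarith

lemma triangle_circle (hT : IsDelaunayTriangulation S T) {p a b : ℂ} (hp : p ∈ S)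
    (hf : ({p, a, b} : Finset ℂ) ∈ T.faces) (h : cross (a - p) (b - p) ≠ 0) :
    ∃ z : ℂ, dist a z = dist p z ∧ dist b z = dist p z ∧ ∀ s ∈ S, dist p z ≤ dist s z := by
  obtain ⟨z, hz1, hz2⟩ := exists_circumcenter h
  have hpa : p ≠ a := by
    rintro rfl; simp [cross] at h
  have hpb : p ≠ b := by
    rintro rfl; simp [cross] at h
  have hab : a ≠ b := by
    rintro rfl
    simp only [cross, ne_eq] at h
    apply h; ring
  have hcard : ({p, a, b} : Finset ℂ).card = 3 := Finset.card_eq_three.2
    ⟨p, a, b, hpa, hpb, hab, rfl⟩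
  refine ⟨z, hz1, hz2, fun s hs => not_lt.1 (hT.empty_circle _ hf hcard z (dist p z) ?_ s hs)⟩
  intro v hv
  simp only [Finset.mem_insert, Finset.mem_singleton] at hv
  rcases hv with rfl | rfl | rfl
  · rfl
  · exact hz1
  · exact hz2

theorem triang_isFlow (hT : IsDelaunayTriangulation S T) : IsFlow S (edgeGraph T) where
  next a ha b hb q hq hadj hqf := by
    classical
    obtain ⟨hab, hface⟩ := hadj
    obtain ⟨M, hM⟩ : ∃ M : ℂ, M = (1 / 2 : ℝ) • a + (1 / 2 : ℝ) • b := ⟨_, rfl⟩
    have hMpair : M ∈ convexHull ℝ (({a, b} : Finset ℂ) : Set ℂ) := by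
      rw [hM]
      exact (convex_convexHull ℝ _) (subset_convexHull ℝ _ (by simp))
        (subset_convexHull ℝ _ (by simp)) (by norm_num) (by norm_num) (by norm_num)
    have hMS : M ∈ convexHull ℝ (S : Set ℂ) := by
      apply convexHull_mono _ hMpair
      intro x hx
      simp only [Finset.coe_insert, Finset.coe_singleton, Set.mem_insert_iff,
        Set.mem_singleton_iff] at hx
      rcases hx with rfl | rfl
      · exact ha
      · exact hb
    obtain ⟨f, hf, hMf, t, ht0, ht1, hxf⟩ := local_face hT hMS (subset_convexHull ℝ _ hq)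
    have hMi := T.inter_subset_convexHull hf hface ⟨hMf, hMpair⟩
    have haf : a ∈ f := by
      by_contra hno
      have hsub : ((f : Set ℂ) ∩ (({a, b} : Finset ℂ) : Set ℂ)) ⊆ {b} := by
        rintro x ⟨hx1, hx2⟩
        simp only [Finset.coe_insert, Finset.coe_singleton, Set.mem_insert_iff,
          Set.mem_singleton_iff] at hx2 ⊢
        rcases hx2 with rfl | rfl
        · exact absurd hx1 hno
        · rfl
      have hMb : M = b := by simpa using convexHull_mono hsub hMi
      apply hab
      have e1 := congrArg Complex.re (hM.symm.trans hMb)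
      have e2 := congrArg Complex.im (hM.symm.trans hMb)
      simp at e1 e2
      apply Complex.ext <;> linarith
    have hbf : b ∈ f := by
      by_contra hno
      have hsub : ((f : Set ℂ) ∩ (({a, b} : Finset ℂ) : Set ℂ)) ⊆ {a} := by
        rintro x ⟨hx1, hx2⟩
        simp only [Finset.coe_insert, Finset.coe_singleton, Set.mem_insert_iff,
          Set.mem_singleton_iff] at hx2 ⊢
        rcases hx2 with rfl | rfl
        · rfl
        · exact absurd hx1 hno
      have hMb : M = a := by simpa using convexHull_mono hsub hMi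
      apply hab
      have e1 := congrArg Complex.re (hM.symm.trans hMb)
      have e2 := congrArg Complex.im (hM.symm.trans hMb)
      simp at e1 e2
      apply Complex.ext <;> linarith
    have hX : 0 < cross (M + t • (q - M) - b) (a - b) := by
      have : cross (M + t • (q - M) - b) (a - b) = t * cross (q - b) (a - b) := by
        have e1 : M.re = (a.re + b.re) / 2 := by rw [hM]; simp; ring
        have e2 : M.im = (a.im + b.im) / 2 := by rw [hM]; simp; ring
        simp only [cross, Complex.sub_re, Complex.sub_im, Complex.add_re, Complex.add_im,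
          Complex.smul_re, Complex.smul_im, smul_eq_mul, e1, e2]
        ring
      rw [this]; exact mul_pos ht0 hqf
    obtain ⟨c, hcf, hcX⟩ := exists_pos_of_mem_convexHull hxf hX
    have hsub : ({a, b, c} : Finset ℂ) ⊆ f := by
      intro x hx
      simp only [Finset.mem_insert, Finset.mem_singleton] at hx
      rcases hx with rfl | rfl | rfl <;> assumption
    have hface3 : ({a, b, c} : Finset ℂ) ∈ T.faces := T.down_closed hf hsub (by simp)
    have hac : a ≠ c := by
      rintro rfl
      simp only [cross] at hcX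
      nlinarith
    have hbc : b ≠ c := by
      rintro rfl
      simp [cross] at hcX
    have hcr : cross (b - a) (c - a) ≠ 0 := by
      have : cross (b - a) (c - a) = cross (c - b) (a - b) := by
        simp only [cross, Complex.sub_re, Complex.sub_im]; ring
      rw [this]; exact hcX.ne'
    obtain ⟨z, hz1, hz2, hz3⟩ := triangle_circle hT ha hface3 hcr
    refine ⟨c, hT.mem hf hcf, hcX, ⟨hac, ?_⟩, ⟨hbc, ?_⟩, z, hz1, hz2, hz3⟩
    · exact T.down_closed hface3 (by intro x; simp; tauto) (by simp)
    · exact T.down_closed hface3 (by intro x; simp; tauto) (by simp)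
  start p hp q hq hpq hseg := by
    classical
    have hn : 0 < (q.re - p.re) ^ 2 + (q.im - p.im) ^ 2 := by
      rw [← dist_sq]
      have := dist_pos.2 hpq.symm
      positivity
    obtain ⟨f, hf, hpf', t, ht0, ht1, hxf⟩ := local_face hT (subset_convexHull ℝ _ hp)
      (subset_convexHull ℝ _ hq)
    have hpv : p ∈ T.vertices := by rw [hT.vertices_eq]; exact hp
    have hqv : q ∈ T.vertices := by rw [hT.vertices_eq]; exact hq
    have hpf : p ∈ f := (T.vertex_mem_convexHull_iff hpv hf).1 hpf'
    have hcard : f.card ≤ 3 := by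
      have h1 := (T.indep hf).card_le_finrank_succ
      rw [Fintype.card_coe] at h1
      refine h1.trans ?_
      have h2 : Module.finrank ℝ (vectorSpan ℝ (Set.range ((↑) : f → ℂ))) ≤ 2 := by
        rw [← Complex.finrank_real_complex]
        exact Submodule.finrank_le _
      omega
    obtain ⟨w, hw0, hw1, hwx⟩ := Finset.mem_convexHull'.1 hxf
    -- the two linear functionals
    have hsum : ∀ (α β : ℝ), ∑ v ∈ f, w v * (α * (v.re - p.re) + β * (v.im - p.im))
        = t * (α * (q.re - p.re) + β * (q.im - p.im)) := by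
      intro α β
      have e1 := congrArg Complex.re hwx
      have e2 := congrArg Complex.im hwx
      simp only [Complex.re_sum, Complex.im_sum, Complex.add_re, Complex.add_im,
        Complex.smul_re, Complex.smul_im, smul_eq_mul, Complex.sub_re, Complex.sub_im] at e1 e2
      have e3 : ∑ v ∈ f, w v * (α * (v.re - p.re) + β * (v.im - p.im))
          = α * ∑ v ∈ f, w v * v.re + β * ∑ v ∈ f, w v * v.im
            - (α * p.re + β * p.im) * ∑ v ∈ f, w v := by
        rw [Finset.mul_sum, Finset.mul_sum, Finset.mul_sum, ← Finset.sum_add_distrib,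
          ← Finset.sum_sub_distrib]
        exact Finset.sum_congr rfl fun v _ => by ring
      rw [e3, e1, e2, hw1]; ring
    obtain ⟨D, hD⟩ : ∃ D : ℂ → ℝ, D = fun v => cross (q - p) (v - p) := ⟨_, rfl⟩
    obtain ⟨Y, hY⟩ : ∃ Y : ℂ → ℝ, Y = fun v => dotp (v - p) (q - p) := ⟨_, rfl⟩
    have hDsum : ∑ v ∈ f, w v * D v = 0 := by
      have := hsum (-(q.im - p.im)) (q.re - p.re)
      rw [show t * (-(q.im - p.im) * (q.re - p.re) + (q.re - p.re) * (q.im - p.im)) = 0 by ring]
        at this
      rw [← this]
      refine Finset.sum_congr rfl fun v _ => ?_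
      simp only [hD, cross, Complex.sub_re, Complex.sub_im]; ring
    have hYsum : 0 < ∑ v ∈ f, w v * Y v := by
      have := hsum (q.re - p.re) (q.im - p.im)
      have e : ∑ v ∈ f, w v * Y v = t * ((q.re - p.re) ^ 2 + (q.im - p.im) ^ 2) := by
        rw [show (q.re - p.re) ^ 2 + (q.im - p.im) ^ 2
          = (q.re - p.re) * (q.re - p.re) + (q.im - p.im) * (q.im - p.im) by ring, ← this]
        refine Finset.sum_congr rfl fun v _ => ?_
        simp only [hY, dotp, Complex.sub_re, Complex.sub_im]; ring
      rw [e]; positivity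
    by_cases hall : ∀ v ∈ f, w v * D v = 0
    · -- a vertex on the ray
      left
      obtain ⟨v, hv, hvY⟩ : ∃ v ∈ f, 0 < w v * Y v := by
        by_contra hno
        push Not at hno
        have := Finset.sum_nonpos hno
        linarith
      have hwv : 0 < w v := by
        rcases (hw0 v hv).lt_or_eq with h | h
        · exact h
        · rw [← h] at hvY; simp at hvY
      have hYv : 0 < Y v := (pos_iff_pos_of_mul_pos hvY).1 hwv
      have hDv : D v = 0 := (mul_eq_zero.1 (hall v hv)).resolve_left hwv.ne'
      have hpv' : p ≠ v := by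
        rintro rfl
        simp [hY, dotp] at hYv
      have hedge : ({p, v} : Finset ℂ) ∈ T.faces :=
        T.down_closed hf (by intro x; simp; rintro (rfl | rfl) <;> assumption) (by simp)
      suffices hvq : v = q by rw [← hvq]; exact ⟨hpv', hedge⟩
      have hvS := hT.mem hf hv
      simp only [hD, cross, Complex.sub_re, Complex.sub_im] at hDv
      simp only [hY, dotp, Complex.sub_re, Complex.sub_im] at hYv
      obtain ⟨τ, hτ⟩ : ∃ τ, τ = ((v.re - p.re) * (q.re - p.re) + (v.im - p.im) * (q.im - p.im)) /
        ((q.re - p.re) ^ 2 + (q.im - p.im) ^ 2) := ⟨_, rfl⟩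
      have hτ0 : 0 < τ := by rw [hτ]; positivity
      have hre : v.re = p.re + τ * (q.re - p.re) := by
        rw [hτ]; field_simp
        linear_combination (q.im - p.im) * (-1) * hDv
      have him : v.im = p.im + τ * (q.im - p.im) := by
        rw [hτ]; field_simp
        linear_combination (q.re - p.re) * hDv
      rcases lt_trichotomy τ 1 with h | h | h
      · exfalso
        apply hseg v hvS
        refine ⟨1 - τ, τ, by linarith, hτ0, by ring, ?_⟩
        apply Complex.ext
        · simp [hre]; ring
        · simp [him]; ring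
      · apply Complex.ext
        · rw [hre, h]; ring
        · rw [him, h]; ring
      · have hqe : q ∈ convexHull ℝ ((({p, v} : Finset ℂ)) : Set ℂ) := by
          have := (convex_convexHull ℝ ((({p, v} : Finset ℂ)) : Set ℂ))
            (subset_convexHull ℝ _ (show p ∈ _ by simp))
            (subset_convexHull ℝ _ (show v ∈ _ by simp))
            (show (0 : ℝ) ≤ 1 - 1 / τ by
              rw [sub_nonneg, div_le_one hτ0]; exact h.le) (show (0 : ℝ) ≤ 1 / τ by positivity)
            (by ring)
          convert this using 1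
          apply Complex.ext
          · simp [hre]; field_simp; ring
          · simp [him]; field_simp; ring
        have := (T.vertex_mem_convexHull_iff hqv hedge).1 hqe
        simp only [Finset.mem_insert, Finset.mem_singleton] at this
        rcases this with h' | h'
        · exact absurd h'.symm hpq
        · exact h'.symm
    · right
      push Not at hall
      obtain ⟨u, hu, hune⟩ := hall
      obtain ⟨a, haf, ha⟩ : ∃ a ∈ f, 0 < w a * D a := by
        by_contra hno
        push Not at hno
        have h1 := (Finset.sum_eq_zero_iff_of_nonpos hno).1 hDsum u hu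
        exact hune h1
      obtain ⟨b, hbf, hb⟩ : ∃ b ∈ f, w b * D b < 0 := by
        by_contra hno
        push Not at hno
        have h1 := (Finset.sum_eq_zero_iff_of_nonneg hno).1 hDsum u hu
        exact hune h1
      have hwa : 0 < w a := by
        rcases (hw0 a haf).lt_or_eq with h | h
        · exact h
        · rw [← h] at ha; simp at ha
      have hwb : 0 < w b := by
        rcases (hw0 b hbf).lt_or_eq with h | h
        · exact h
        · rw [← h] at hb; simp at hb
      have hDa : 0 < D a := (pos_iff_pos_of_mul_pos ha).1 hwa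
      have hDb : D b < 0 := by
        by_contra hno
        push Not at hno
        have := mul_nonneg hwb.le hno
        linarith
      have hDp : D p = 0 := by simp [hD, cross]
      have hpa : p ≠ a := by rintro rfl; linarith
      have hpb : p ≠ b := by rintro rfl; linarith
      have hab : a ≠ b := by rintro rfl; linarith
      have hsub : ({p, a, b} : Finset ℂ) ⊆ f := by
        intro x hx
        simp only [Finset.mem_insert, Finset.mem_singleton] at hx
        rcases hx with rfl | rfl | rfl <;> assumption
      have hc3 : ({p, a, b} : Finset ℂ).card = 3 := Finset.card_eq_three.2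
        ⟨p, a, b, hpa, hpb, hab, rfl⟩
      have hfeq : ({p, a, b} : Finset ℂ) = f := Finset.eq_of_subset_of_card_le hsub (by omega)
      have hface3 : ({p, a, b} : Finset ℂ) ∈ T.faces := by rw [hfeq]; exact hf
      -- orientation
      have hor : w b * cross (a - p) (b - p) = -(t * D a) := by
        have h1 := hsum (-(a.im - p.im)) (a.re - p.re)
        rw [← hfeq, Finset.sum_insert (by simp [hpa, hpb]), Finset.sum_insert (by simp [hab]),
          Finset.sum_singleton] at h1
        simp only [hD, cross, Complex.sub_re, Complex.sub_im]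
        linear_combination h1
      have hcr : cross (a - p) (b - p) < 0 := by
        by_contra hno
        push Not at hno
        have h1 := mul_nonneg hwb.le hno
        have h2 := mul_pos ht0 hDa
        linarith
      obtain ⟨z, hz1, hz2, hz3⟩ := triangle_circle hT hp hface3 hcr.ne
      refine ⟨a, hT.mem hf haf, b, hT.mem hf hbf, z, ⟨hpa, ?_⟩, ⟨hpb, ?_⟩, ⟨hab, ?_⟩, ?_, ?_, hcr,
        hz1, hz2, hz3⟩
      · exact T.down_closed hface3 (by intro x; simp; tauto) (by simp)
      · exact T.down_closed hface3 (by intro x; simp; tauto) (by simp)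
      · exact T.down_closed hface3 (by intro x; simp; tauto) (by simp)
      · simpa only [hD] using hDa
      · simpa only [hD] using hDb

end MP_74021c_co
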