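import Pool.Agent.Work.DelaunayStretch.Pot
import Pool.Agent.Work.DelaunayStretch.Triang

namespace MP_74021c_co

open Real

lemma exists_piece {s : ℝ} (h0 : 0 ≤ s) (h1 : s ≤ 1) :
    ∃ l : ℕ, l < 10 ∧ ∃ t : ℝ, 0 ≤ t ∧ t ≤ 1 ∧ s = (l + t) / 10 := by
  by_cases h : s < 1
  · refine ⟨⌊10 * s⌋₊, ?_, 10 * s - ⌊10 * s⌋₊, ?_, ?_, by ring⟩
    · rw [Nat.floor_lt (by positivity)]; push_cast; linarith
    · linarith [Nat.floor_le (show 0 ≤ 10 * s by positivity)]
    · linarith [Nat.lt_floor_add_one (10 * s)]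
  · exact ⟨9, by omega, 1, by norm_num, le_rfl, by push_cast; linarith⟩

lemma yf_abs (m : ℝ) : yf |m| = yf m := by
  rcases abs_choice m with h | h <;> rw [h]
  unfold yf; rw [cos_neg, sin_neg]; ring

lemma ctrl_le {c : CP} {e β m : ℝ} (hm : |m| ≤ π / 2)
    (h : E0f c e β + |E2f c e β| * sin |m| - yf |m| ≤ 0) :
    E0f c e β + E2f c e β * sin m - yf m ≤ 0 := by
  rw [yf_abs] at h
  have h1 : |sin m| = sin |m| := by
    rcases abs_choice m with h' | h'
    · rw [h']; apply abs_of_nonneg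
      apply sin_nonneg_of_nonneg_of_le_pi
      · rw [← h']; exact abs_nonneg _
      · have := (abs_le.1 hm).2; have := pi_pos; linarith
    · have h2 : 0 ≤ -m := by rw [← h']; exact abs_nonneg _
      have h3 : 0 ≤ sin (-m) := by
        apply sin_nonneg_of_nonneg_of_le_pi h2
        have := (abs_le.1 hm).1; have := pi_pos; linarith
      rw [h', ← abs_neg, ← sin_neg]; exact abs_of_nonneg h3
  have h2 : E2f c e β * sin m ≤ |E2f c e β| * sin |m| := by
    rw [← h1, ← abs_mul]; exact le_abs_self _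
  linarith

lemma fR_nonpos {s β m e : ℝ} (he : e = 1 ∨ e = -1) (hs0 : 0 ≤ s) (hs1 : s ≤ 1) (hβ0 : 0 ≤ β)
    (hβ1 : β ≤ π / 2) (hm : |m| ≤ π / 2) : fR s β m e ≤ 0 := by
  obtain ⟨l, hl, t, ht0, ht1, hst⟩ := exists_piece hs0 hs1
  by_cases hcor : l = 9 ∧ 49 / 32 ≤ β ∧ 49 / 32 ≤ |m|
  · obtain ⟨rfl, hβc, hmc⟩ := hcor
    have hs9 : 0.9 ≤ s := by rw [hst]; push_cast; linarith
    have hp := piece_9 ht0 ht1 (show s = (9 + t) / 10 by rw [hst]; push_cast; ring)
    have ht : t = 10 * s - 9 := by rw [hst]; push_cast; ring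
    have e1 : Sf s = 1.5664 - 1.2938 * (1 - s) + 1.2385 * (1 - s) ^ 2 := by
      have := hp.1; rw [ht] at this; linarith
    have e2 : S1f s = 1.2938 - 2.477 * (1 - s) := by
      have := hp.2.1; rw [ht] at this; linarith
    have e3 : κf s = 0.1333 + 1.269 * (1 - s) := by
      have := hp.2.2.1; rw [ht] at this; linarith
    have hpi := pi_lt_d6
    have hmain : ∀ m, 49 / 32 ≤ m → m ≤ π / 2 → fR s β m e ≤ 0 := by
      intro m hm0 hm1
      have := corner he (v := 1 - s) (γ := π / 2 - β) (μ := π / 2 - m) (by linarith)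
        (by linarith) (by linarith) (by linarith) (by linarith) (by linarith)
      rw [← e1, ← e2, ← e3] at this
      rw [sin_pi_div_two_sub, sin_pi_div_two_sub, cos_pi_div_two_sub, cos_pi_div_two_sub] at this
      unfold fR
      rw [show π / 2 - (π / 2 - β) = β by ring, show π / 2 - (π / 2 - m) = m by ring,
        show 1 - (1 - s) = s by ring] at this
      linarith
    have hQ : 0 ≤ S1f s * β + 2 * e * κf s * cos β := by
      have c0 : 0 ≤ cos β := cos_nonneg_of_neg_pi_div_two_le_of_le (by linarith [pi_pos]) hβ1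
      have c1 : cos β ≤ 1 := cos_le_one β
      have k1 : κf s ≤ 0.2603 := by rw [e3]; linarith
      have k0 : 0 ≤ κf s := by rw [e3]; linarith
      have k2 : κf s * cos β ≤ 0.2603 := by nlinarith
      have k3 : 0 ≤ κf s * cos β := by positivity
      have k4 : 1.6 ≤ S1f s * β := by
        have : 1.046 ≤ S1f s := by rw [e2]; linarith
        nlinarith
      rcases he with rfl | rfl <;> nlinarith
    rcases le_total 0 m with h | h
    · rw [abs_of_nonneg h] at hmc hm
      exact hmain m hmc hm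
    · rw [abs_of_nonpos h] at hmc hm
      have h1 := hmain (-m) hmc hm
      have h2 : fR s β m e = fR s β (-m) e + 2 * sin m * (S1f s * β + 2 * e * κf s * cos β) := by
        unfold fR; rw [cos_neg, sin_neg]; ring
      have h3 : sin m ≤ 0 := sin_nonpos_of_nonpos_of_neg_pi_le h (by linarith [pi_pos])
      have h4 := mul_nonneg (neg_nonneg.2 h3) hQ
      linarith
  · have hb := bern hl ht0 ht1 hst β m e
    have hA0 : 0 ≤ |m| := abs_nonneg m
    have c0 : E0f (cps.getD (2 * l) default) e β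
        + E2f (cps.getD (2 * l) default) e β * sin m - yf m ≤ 0 :=
      ctrl_le hm (grid_all (cps_mem (by omega)) he hβ0 hβ1 hA0 hm)
    have hdeg : ∀ {c : ℕ}, c < 21 → c < 19 + 2 * (l - 8) - 0 → (l = 9 → (β < 49 / 32 ∨ |m| < 49 / 32)) →
        (l < 9 → c < 19) → E0f (cps.getD c default) e β
        + E2f (cps.getD c default) e β * sin m - yf m ≤ 0 := by
      intro c hc _ h9 h8
      by_cases hc' : c < 19
      · exact ctrl_le hm (grid_all (cps_mem hc') he hβ0 hβ1 hA0 hm)
      · have : l = 9 := by omega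
        exact ctrl_le hm (grid_deg (cps_mem' hc (by omega)) he hβ0 hβ1 hA0 hm (h9 this))
    have h9 : l = 9 → (β < 49 / 32 ∨ |m| < 49 / 32) := by
      intro h
      by_contra hno
      push Not at hno
      exact hcor ⟨h, hno.1, hno.2⟩
    have hdeg' : ∀ {c : ℕ}, c < 21 → (l < 9 → c < 19) → E0f (cps.getD c default) e β
        + E2f (cps.getD c default) e β * sin m - yf m ≤ 0 := by
      intro c hc h8
      by_cases hc' : c < 19
      · exact ctrl_le hm (grid_all (cps_mem hc') he hβ0 hβ1 hA0 hm)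
      · have : l = 9 := by omega
        exact ctrl_le hm (grid_deg (cps_mem' hc (by omega)) he hβ0 hβ1 hA0 hm (h9 this))
    have c1 := hdeg' (c := 2 * l + 1) (by omega) (by omega)
    have c2 := hdeg' (c := 2 * (l + 1)) (by omega) (by omega)
    have w0 : 0 ≤ (1 - t) ^ 2 := sq_nonneg _
    have w1 : 0 ≤ 2 * (t * (1 - t)) := by
      have : 0 ≤ 1 - t := by linarith
      positivity
    have w2 : 0 ≤ t ^ 2 := sq_nonneg _
    have := mul_nonpos_of_nonneg_of_nonpos w0 c0
    have := mul_nonpos_of_nonneg_of_nonpos w1 c1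
    have := mul_nonpos_of_nonneg_of_nonpos w2 c2
    linarith

lemma fR_le {s β m e : ℝ} (he : e = 1 ∨ e = -1) (hs : |s| ≤ 1) (hβ : |β| ≤ π / 2)
    (hm : |m| ≤ π / 2) : fR s β m e ≤ 0 := by
  have hneg : ∀ {e : ℝ}, e = 1 ∨ e = -1 → -e = 1 ∨ -e = -1 := by
    rintro e (rfl | rfl)
    · right; rfl
    · left; norm_num
  have hpos : ∀ {s β m e : ℝ}, e = 1 ∨ e = -1 → |s| ≤ 1 → 0 ≤ β → β ≤ π / 2 → |m| ≤ π / 2 →
      fR s β m e ≤ 0 := by
    intro s β m e he hs h0 h1 hm
    rcases le_total 0 s with h | h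
    · exact fR_nonpos he h (abs_le.1 hs).2 h0 h1 hm
    · rw [← fR_symm2]
      exact fR_nonpos (hneg he) (by linarith) (by linarith [(abs_le.1 hs).1]) h0 h1
        (by rwa [abs_neg])
  rcases le_total 0 β with h | h
  · exact hpos he hs h (abs_le.1 hβ).2 hm
  · rw [← fR_symm1]
    exact hpos (hneg he) hs (by linarith) (by linarith [(abs_le.1 hβ).1]) (by rwa [abs_neg])

lemma fR_le' {s β m e : ℝ} (he : |e| ≤ 1) (hs : |s| ≤ 1) (hβ : |β| ≤ π / 2)
    (hm : |m| ≤ π / 2) : fR s β m e ≤ 0 := by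
  have h1 := fR_le (e := 1) (Or.inl rfl) hs hβ hm
  have h2 := fR_le (e := -1) (Or.inr rfl) hs hβ hm
  have h3 : fR s β m e = (1 + e) / 2 * fR s β m 1 + (1 - e) / 2 * fR s β m (-1) := by
    unfold fR; ring
  have h4 := abs_le.1 he
  rw [h3]
  have := mul_nonpos_of_nonneg_of_nonpos (show 0 ≤ (1 + e) / 2 by linarith) h1
  have := mul_nonpos_of_nonneg_of_nonpos (show 0 ≤ (1 - e) / 2 by linarith) h2
  linarith

theorem c1_knots : ∀ l < 11, (31328 * l + 200000 ≤ AT.getD l 0 + 2 * BT.getD l 0) ∧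
    (2 * BT.getD l 0 + 200000 ≤ AT.getD l 0 + 31328 * l) ∧ BT.getD l 0 ≤ 100000 := by
  decide +kernel

theorem c1_mid : ∀ l < 10, (31328 * l + 15664 + 200000 ≤ AT.getD l 0 + aT.getD l 0
      + 2 * (BT.getD l 0 + bT.getD l 0)) ∧
    (2 * (BT.getD l 0 + bT.getD l 0) + 200000 ≤ AT.getD l 0 + aT.getD l 0 + 31328 * l + 15664) ∧
    BT.getD l 0 + bT.getD l 0 ≤ 100000 := by
  decide +kernel

lemma c12 {s : ℝ} (h0 : 0 ≤ s) (h1 : s ≤ 1) :
    1.5664 * s + 2 * kf s ≤ Sf s - 1 ∧ -(1.5664 * s + 2 * kf s) ≤ Sf s - 1 ∧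
      -(1 / 2) ≤ kf s ∧ kf s ≤ 0 := by
  obtain ⟨l, hl, t, ht0, ht1, hst⟩ := exists_piece h0 h1
  obtain ⟨p1, _, _, p4⟩ := piece hl ht0 ht1 hst
  obtain ⟨a1, a2, a3⟩ := c1_knots l (by omega)
  obtain ⟨b1, b2, b3⟩ := c1_knots (l + 1) (by omega)
  obtain ⟨m1, m2, m3⟩ := c1_mid l hl
  have a1' : 31328 * (l : ℝ) + 200000 ≤ (AT.getD l 0 : ℝ) + 2 * (BT.getD l 0 : ℝ) := by
    exact_mod_cast a1
  have a2' : 2 * (BT.getD l 0 : ℝ) + 200000 ≤ (AT.getD l 0 : ℝ) + 31328 * (l : ℝ) := by
    exact_mod_cast a2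
  have a3' : (BT.getD l 0 : ℝ) ≤ 100000 := by exact_mod_cast a3
  have b1' : 31328 * ((l : ℝ) + 1) + 200000 ≤ (AT.getD (l + 1) 0 : ℝ) + 2 * (BT.getD (l + 1) 0 : ℝ) := by
    exact_mod_cast b1
  have b2' : 2 * (BT.getD (l + 1) 0 : ℝ) + 200000 ≤ (AT.getD (l + 1) 0 : ℝ) + 31328 * ((l : ℝ) + 1) := by
    exact_mod_cast b2
  have b3' : (BT.getD (l + 1) 0 : ℝ) ≤ 100000 := by exact_mod_cast b3
  have m1' : 31328 * (l : ℝ) + 15664 + 200000 ≤ (AT.getD l 0 : ℝ) + (aT.getD l 0 : ℝ)
      + 2 * ((BT.getD l 0 : ℝ) + (bT.getD l 0 : ℝ)) := by exact_mod_cast m1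
  have m2' : 2 * ((BT.getD l 0 : ℝ) + (bT.getD l 0 : ℝ)) + 200000 ≤ (AT.getD l 0 : ℝ)
      + (aT.getD l 0 : ℝ) + 31328 * (l : ℝ) + 15664 := by exact_mod_cast m2
  have m3' : (BT.getD l 0 : ℝ) + (bT.getD l 0 : ℝ) ≤ 100000 := by exact_mod_cast m3
  have n1 : (0 : ℝ) ≤ (BT.getD l 0 : ℝ) := by positivity
  have n2 : (0 : ℝ) ≤ (BT.getD (l + 1) 0 : ℝ) := by positivity
  have n3 : (0 : ℝ) ≤ (bT.getD l 0 : ℝ) := by positivity
  clear a1 a2 a3 b1 b2 b3 m1 m2 m3
  generalize (AT.getD l 0 : ℝ) = A0 at *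
  generalize (AT.getD (l + 1) 0 : ℝ) = A1 at *
  generalize (aT.getD l 0 : ℝ) = a0 at *
  generalize (BT.getD l 0 : ℝ) = B0 at *
  generalize (BT.getD (l + 1) 0 : ℝ) = B1 at *
  generalize (bT.getD l 0 : ℝ) = b0 at *
  have w0 : 0 ≤ (1 - t) ^ 2 := sq_nonneg _
  have w1 : 0 ≤ 2 * (t * (1 - t)) := by
    have : 0 ≤ 1 - t := by linarith
    positivity
  have w2 : 0 ≤ t ^ 2 := sq_nonneg _
  refine ⟨?_, ?_, ?_, ?_⟩
  · have x0 := mul_nonneg w0 (sub_nonneg.2 a1')
    have x1 := mul_nonneg w1 (sub_nonneg.2 m1')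
    have x2 := mul_nonneg w2 (sub_nonneg.2 b1')
    rw [hst] at p1 p4 ⊢
    nlinarith [x0, x1, x2]
  · have x0 := mul_nonneg w0 (sub_nonneg.2 a2')
    have x1 := mul_nonneg w1 (sub_nonneg.2 m2')
    have x2 := mul_nonneg w2 (sub_nonneg.2 b2')
    rw [hst] at p1 p4 ⊢
    nlinarith [x0, x1, x2]
  · have x0 := mul_nonneg w0 (sub_nonneg.2 a3')
    have x1 := mul_nonneg w1 (sub_nonneg.2 m3')
    have x2 := mul_nonneg w2 (sub_nonneg.2 b3')
    nlinarith [x0, x1, x2]
  · have x0 := mul_nonneg w0 n1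
    have x1 := mul_nonneg w1 (add_nonneg n1 n3)
    have x2 := mul_nonneg w2 n2
    nlinarith [x0, x1, x2]

lemma c12' {s : ℝ} (hs : |s| ≤ 1) :
    |1.5664 * s + 2 * kf s| ≤ Sf s - 1 ∧ |kf s| ≤ 1 / 2 := by
  rcases le_total 0 s with h | h
  · obtain ⟨h1, h2, h3, h4⟩ := c12 h (abs_le.1 hs).2
    exact ⟨abs_le.2 ⟨by linarith, h1⟩, abs_le.2 ⟨by linarith, by linarith⟩⟩
  · obtain ⟨h1, h2, h3, h4⟩ := c12 (s := -s) (by linarith) (by linarith [(abs_le.1 hs).1])
    rw [Sf_neg, kf_neg] at *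
    exact ⟨abs_le.2 ⟨by linarith, by linarith⟩, abs_le.2 ⟨by linarith, by linarith⟩⟩

/-- the potential -/
noncomputable def Kf (s β m : ℝ) : ℝ := Sf s * β - 1.5664 * s * m

theorem potential : Potential 1.615 Kf kf where
  one_le := by norm_num
  k_le s hs := (c12' hs).2
  moveA s β m α hs hα _ _ := by
    have h := (abs_le.1 (c12' hs).1).2
    have := mul_le_mul_of_nonneg_right h hα
    unfold Kf; linarith
  moveB s β m α hs hα _ _ := by
    have h := (abs_le.1 (c12' hs).1).1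
    have := mul_le_mul_of_nonneg_right h hα
    unfold Kf; linarith
  start θ hθ := by
    have hs : |sin θ| ≤ 1 := abs_sin_le_one θ
    have := fR_le (s := sin θ) (β := π / 2) (m := θ) (e := 1) (Or.inl rfl) hs
      (by rw [abs_of_pos (by positivity)]) hθ
    unfold fR at this
    rw [sin_pi_div_two, cos_pi_div_two] at this
    unfold Kf; linarith
  fin θ hθ := by
    have hs : |sin θ| ≤ 1 := abs_sin_le_one θ
    have := fR_le (s := sin θ) (β := π / 2) (m := θ) (e := 1) (Or.inl rfl) hs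
      (by rw [abs_of_pos (by positivity)]) hθ
    unfold fR at this
    rw [sin_pi_div_two, cos_pi_div_two] at this
    unfold Kf; linarith
  moveR m τ δ β₁ β₂ hm hτ hδ h1 h12 h2 := by
    have hcm : 0 < cos m := cos_pos_of_mem_Ioo ⟨by linarith [(abs_lt.1 hm).1], (abs_lt.1 hm).2⟩
    obtain ⟨g, hg⟩ : ∃ g : ℝ → ℝ, g = fun β => -1.615 * cos m * tan β
        + Kf (sin m * sin β + τ * cos m * cos β) β m / cos β
        + 2 * δ * kf (sin m * sin β + τ * cos m * cos β) := ⟨_, rfl⟩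
    have hcos : ∀ β ∈ Set.Icc β₁ β₂, 0 < cos β := fun β hβ =>
      cos_pos_of_mem_Ioo ⟨by linarith [hβ.1], by linarith [hβ.2]⟩
    have hder : ∀ β ∈ Set.Icc β₁ β₂, HasDerivAt g
        (fR (sin m * sin β + τ * cos m * cos β) β m (-δ) / cos β ^ 2) β := by
      intro β hβ
      have hc := hcos β hβ
      obtain ⟨s, hs⟩ : ∃ s, s = sin m * sin β + τ * cos m * cos β := ⟨_, rfl⟩
      obtain ⟨s', hs'⟩ : ∃ s', s' = sin m * cos β - τ * cos m * sin β := ⟨_, rfl⟩
      have d0 : HasDerivAt (fun β => sin m * sin β + τ * cos m * cos β) s' β := by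
        refine (((hasDerivAt_sin β).const_mul (sin m)).fun_add
          ((hasDerivAt_cos β).const_mul (τ * cos m))).congr_deriv ?_
        rw [hs']; ring
      have dS : HasDerivAt (fun β => Sf (sin m * sin β + τ * cos m * cos β)) (S1f s * s') β := by
        have := (hasDerivAt_Sf (sin m * sin β + τ * cos m * cos β)).comp β d0
        rw [← hs] at this; exact this
      have dk : HasDerivAt (fun β => kf (sin m * sin β + τ * cos m * cos β)) (-κf s * s') β := by
        have := (hasDerivAt_kf (sin m * sin β + τ * cos m * cos β)).comp β d0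
        rw [← hs] at this; exact this
      have dK : HasDerivAt (fun β => Kf (sin m * sin β + τ * cos m * cos β) β m)
          (S1f s * s' * β + Sf s - 1.5664 * s' * m) β := by
        unfold Kf
        refine ((dS.fun_mul (hasDerivAt_id β)).fun_sub ((d0.const_mul 1.5664).mul_const m)).congr_deriv ?_
        rw [← hs]; simp
      have dt := (hasDerivAt_tan hc.ne').const_mul (-1.615 * cos m)
      have dq := dK.fun_div (hasDerivAt_cos β) hc.ne'
      have dall := (dt.fun_add dq).fun_add (dk.const_mul (2 * δ))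
      rw [hg]
      refine dall.congr_deriv ?_
      rw [← hs]
      have hid : sin m - s * sin β = cos β * s' := by
        rw [hs, hs']
        have := sin_sq_add_cos_sq β
        linear_combination (-(sin m)) * this
      unfold fR Kf
      rw [show sin m = s * sin β + cos β * s' by linarith]
      field_simp
      ring
    have hanti : AntitoneOn g (Set.Icc β₁ β₂) := by
      apply antitoneOn_of_deriv_nonpos (convex_Icc β₁ β₂)
      · exact fun β hβ => (hder β hβ).continuousAt.continuousWithinAt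
      · exact fun β hβ => (hder β (interior_subset hβ)).differentiableAt.differentiableWithinAt
      · intro β hβ
        have hβ' := interior_subset hβ
        rw [(hder β hβ').deriv]
        have hc := hcos β hβ'
        have hbd : |sin m * sin β + τ * cos m * cos β| ≤ 1 := by
          have hcc : 0 ≤ cos m * cos β := by positivity
          have hτ' := abs_le.1 hτ
          have k1 := cos_le_one (m - β)
          have k2 := cos_le_one (m + β)
          rw [cos_sub] at k1; rw [cos_add] at k2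
          rw [abs_le]
          constructor <;> nlinarith
        have := fR_le' (s := sin m * sin β + τ * cos m * cos β) (β := β) (m := m) (e := -δ)
          (by rwa [abs_neg]) hbd (by rw [abs_le]; constructor <;> linarith [hβ'.1, hβ'.2]) hm.le
        exact div_nonpos_of_nonpos_of_nonneg this (by positivity)
    have := hanti (Set.left_mem_Icc.2 h12) (Set.right_mem_Icc.2 h12) h12
    rw [hg] at this
    exact this

theorem delaunay_bound (S : Finset ℂ) {p q : ℂ} (hp : p ∈ S) (hq : q ∈ S) :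
    ∃ w : (delaunayGraph (S : Set ℂ)).Walk p q, walkLength w ≤ 1.615 * dist p q :=
  flow_bound potential (delaunay_isFlow S) hp hq

theorem triang_bound {S : Finset ℂ} {T : Geometry.SimplicialComplex ℝ ℂ}
    (hT : IsDelaunayTriangulation S T) {p q : ℂ} (hp : p ∈ S) (hq : q ∈ S) :
    ∃ w : (edgeGraph T).Walk p q, walkLength w ≤ 1.615 * dist p q :=
  flow_bound potential (triang_isFlow hT) hp hq

end MP_74021c_co
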