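import Pool.Agent.Work.DelaunayStretch.Main

namespace MP_74021c_co

open Real

/-- The Delaunay graph of a set `S` of points of the plane: two distinct points `u, v` of `S` are
joined exactly when some circle through `u` and `v` has no point of `S` in its interior. -/
def delaunayGraph (S : Set ℂ) : SimpleGraph ℂ where
  Adj u v := u ≠ v ∧ u ∈ S ∧ v ∈ S ∧
    ∃ (z : ℂ) (r : ℝ), dist u z = r ∧ dist v z = r ∧ ∀ w ∈ S, ¬ dist w z < r
  symm := ⟨fun _ _ ⟨h1, h2, h3, z, r, h4, h5, h6⟩ => ⟨h1.symm, h3, h2, z, r, h5, h4, h6⟩⟩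
  loopless := ⟨fun _ h => h.1 rfl⟩

/-- inner product -/
def dotp (u v : ℂ) : ℝ := u.re * v.re + u.im * v.im

lemma cross_dotp (u v q : ℂ) :
    cross u v * (q.re ^ 2 + q.im ^ 2) = dotp u q * cross q v - cross q u * dotp v q := by
  simp only [cross, dotp]; ring

lemma adj_of {S : Finset ℂ} {u v z : ℂ} (huv : u ≠ v) (hu : u ∈ S) (hv : v ∈ S)
    (h : dist v z = dist u z) (he : ∀ s ∈ S, dist u z ≤ dist s z) :
    (delaunayGraph (S : Set ℂ)).Adj u v :=
  ⟨huv, hu, hv, z, dist u z, rfl, h, fun w hw => not_lt.2 (he w hw)⟩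

lemma dist_le_dist_of_sq {a b z : ℂ}
    (h : (a.re - z.re) ^ 2 + (a.im - z.im) ^ 2 ≤ (b.re - z.re) ^ 2 + (b.im - z.im) ^ 2) :
    dist a z ≤ dist b z := by
  rw [← dist_sq, ← dist_sq] at h
  exact (sq_le_sq₀ dist_nonneg dist_nonneg).1 h

lemma dist_eq_dist_of_sq {a b z : ℂ}
    (h : (a.re - z.re) ^ 2 + (a.im - z.im) ^ 2 = (b.re - z.re) ^ 2 + (b.im - z.im) ^ 2) :
    dist a z = dist b z :=
  le_antisymm (dist_le_dist_of_sq h.le) (dist_le_dist_of_sq h.ge)

/-- pushing an empty circle through `a, b` forward until it meets a new point -/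
lemma push_circle {S : Finset ℂ} {a b q z₀ : ℂ} (hq : q ∈ S)
    (hab : dist b z₀ = dist a z₀) (he : ∀ s ∈ S, dist a z₀ ≤ dist s z₀)
    (hqf : 0 < cross (q - b) (a - b)) :
    ∃ c ∈ S, 0 < cross (c - b) (a - b) ∧
      ∃ z : ℂ, dist b z = dist a z ∧ dist c z = dist a z ∧ ∀ s ∈ S, dist a z ≤ dist s z := by
  classical
  let X : ℂ → ℝ := fun s => cross (s - b) (a - b)
  let P : ℂ → ℝ := fun s => dist s z₀ ^ 2 - dist a z₀ ^ 2
  have hP : ∀ s ∈ S, 0 ≤ P s := by
    intro s hs
    have := pow_le_pow_left₀ dist_nonneg (he s hs) 2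
    simp only [P]; linarith
  let A : Finset ℂ := S.filter fun s => 0 < X s
  have hA : A.Nonempty := ⟨q, Finset.mem_filter.2 ⟨hq, hqf⟩⟩
  obtain ⟨c, hcA, hmin⟩ := A.exists_min_image (fun s => P s / (2 * X s)) hA
  obtain ⟨hcS, hcX⟩ := Finset.mem_filter.1 hcA
  obtain ⟨t, ht⟩ : ∃ t, t = P c / (2 * X c) := ⟨_, rfl⟩
  have ht0 : 0 ≤ t := by rw [ht]; have := hP c hcS; positivity
  obtain ⟨z, hz⟩ : ∃ z : ℂ, z = ⟨z₀.re + t * (a.im - b.im), z₀.im - t * (a.re - b.re)⟩ := ⟨_, rfl⟩
  have hzre : z.re = z₀.re + t * (a.im - b.im) := by rw [hz]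
  have hzim : z.im = z₀.im - t * (a.re - b.re) := by rw [hz]
  have hbz : (b.re - z₀.re) ^ 2 + (b.im - z₀.im) ^ 2 = (a.re - z₀.re) ^ 2 + (a.im - z₀.im) ^ 2 := by
    rw [← dist_sq, ← dist_sq, hab]
  have key : ∀ s : ℂ, (s.re - z.re) ^ 2 + (s.im - z.im) ^ 2
      - ((a.re - z.re) ^ 2 + (a.im - z.im) ^ 2) = P s - 2 * t * X s := by
    intro s
    simp only [P, X, dist_sq, cross, Complex.sub_re, Complex.sub_im]
    rw [hzre, hzim]; ring
  have hPb : P b = 0 := by simp only [P]; rw [hab]; ring
  have hXb : X b = 0 := by simp only [X, cross, Complex.sub_re, Complex.sub_im]; ring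
  refine ⟨c, hcS, hcX, z, ?_, ?_, ?_⟩
  · apply dist_eq_dist_of_sq
    have := key b
    rw [hPb, hXb] at this; linarith
  · apply dist_eq_dist_of_sq
    have h1 := key c
    have h2 : P c - 2 * t * X c = 0 := by rw [ht]; field_simp; ring
    linarith
  · intro s hs
    apply dist_le_dist_of_sq
    have h1 := key s
    have h2 : 0 ≤ P s - 2 * t * X s := by
      by_cases hX : 0 < X s
      · have h3 := hmin s (Finset.mem_filter.2 ⟨hs, hX⟩)
        rw [← ht] at h3
        have h4 : t * (2 * X s) ≤ P s := (le_div_iff₀ (by positivity)).1 h3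
        linarith
      · push Not at hX
        have h3 := hP s hs
        have h4 : 0 ≤ t * (-X s) := mul_nonneg ht0 (by linarith)
        linarith
    linarith

lemma delaunay_next {S : Finset ℂ} {a b q : ℂ} (ha : a ∈ S) (hb : b ∈ S) (hq : q ∈ S)
    (hadj : (delaunayGraph (S : Set ℂ)).Adj a b) (hqf : 0 < cross (q - b) (a - b)) :
    ∃ c ∈ S, 0 < cross (c - b) (a - b) ∧ (delaunayGraph (S : Set ℂ)).Adj a c ∧
      (delaunayGraph (S : Set ℂ)).Adj b c ∧
      ∃ z : ℂ, dist b z = dist a z ∧ dist c z = dist a z ∧ ∀ s ∈ S, dist a z ≤ dist s z := by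
  obtain ⟨_, _, _, z₀, r, h1, h2, h3⟩ := hadj
  subst h1
  obtain ⟨c, hc, hcf, z, hz1, hz2, hz3⟩ := push_circle hq h2 (fun s hs => not_lt.1 (h3 s hs)) hqf
  refine ⟨c, hc, hcf, ?_, ?_, z, hz1, hz2, hz3⟩
  · refine adj_of ?_ ha hc hz2 hz3
    rintro rfl
    simp [cross] at hcf
    linarith [mul_comm (a.re - b.re) (a.im - b.im)]
  · refine adj_of ?_ hb hc (by rw [hz1, hz2]) (by rw [hz1]; exact hz3)
    rintro rfl
    simp [cross] at hcf

/-- a point of `S` on the ray `pq`, on an empty circle through `p` -/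
lemma on_ray {S : Finset ℂ} {p q c z : ℂ} (hq : q ∈ S) (hpq : p ≠ q) (hcS : c ∈ S)
    (hseg : ∀ s ∈ S, s ∉ openSegment ℝ p q) (h0 : cross (q - p) (c - p) = 0)
    (hd : 0 < dotp (c - p) (q - p)) (hc : dist c z = dist p z)
    (he : ∀ s ∈ S, dist p z ≤ dist s z) : c = q := by
  have hn : 0 < (q.re - p.re) ^ 2 + (q.im - p.im) ^ 2 := by
    rw [← dist_sq]
    have := dist_pos.2 hpq.symm
    positivity
  simp only [cross, dotp, Complex.sub_re, Complex.sub_im] at h0 hd
  obtain ⟨t, ht⟩ : ∃ t, t = ((c.re - p.re) * (q.re - p.re) + (c.im - p.im) * (q.im - p.im)) /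
    ((q.re - p.re) ^ 2 + (q.im - p.im) ^ 2) := ⟨_, rfl⟩
  have ht0 : 0 < t := by rw [ht]; positivity
  have hre : c.re = p.re + t * (q.re - p.re) := by
    rw [ht]; field_simp
    linear_combination (q.im - p.im) * (-1) * h0
  have him : c.im = p.im + t * (q.im - p.im) := by
    rw [ht]; field_simp
    linear_combination (q.re - p.re) * h0
  rcases lt_trichotomy t 1 with h | h | h
  · exfalso
    apply hseg c hcS
    refine ⟨1 - t, t, by linarith, ht0, by ring, ?_⟩
    apply Complex.ext
    · simp [hre]; ring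
    · simp [him]; ring
  · apply Complex.ext
    · rw [hre, h]; ring
    · rw [him, h]; ring
  · exfalso
    have h1 := pow_le_pow_left₀ dist_nonneg (he q hq) 2
    have h2 : dist c z ^ 2 = dist p z ^ 2 := by rw [hc]
    rw [dist_sq, dist_sq] at h1 h2
    rw [hre, him] at h2
    -- t * (|q-p|^2 t + 2 (q-p).(p-z)) = 0
    have h3 : t * (t * ((q.re - p.re) ^ 2 + (q.im - p.im) ^ 2)
        + 2 * ((q.re - p.re) * (p.re - z.re) + (q.im - p.im) * (p.im - z.im))) = 0 := by
      linear_combination h2
    have h4 := (mul_eq_zero.1 h3).resolve_left ht0.ne'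
    have h5 : 0 < (t - 1) * ((q.re - p.re) ^ 2 + (q.im - p.im) ^ 2) := mul_pos (by linarith) hn
    nlinarith

theorem delaunay_isFlow (S : Finset ℂ) : IsFlow S (delaunayGraph (S : Set ℂ)) where
  next a ha b hb q hq hadj hqf := delaunay_next ha hb hq hadj hqf
  start p hp q hq hpq hseg := by
    classical
    have hn : 0 < (q.re - p.re) ^ 2 + (q.im - p.im) ^ 2 := by
      rw [← dist_sq]
      have := dist_pos.2 hpq.symm
      positivity
    -- the first circle: centre on the ray
    obtain ⟨w, hwS, hwd, hwz⟩ : ∃ w ∈ S, 0 < dotp (w - p) (q - p) ∧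
        ∃ z : ℂ, dist w z = dist p z ∧ ∀ s ∈ S, dist p z ≤ dist s z := by
      let X : ℂ → ℝ := fun s => dotp (s - p) (q - p)
      let P : ℂ → ℝ := fun s => dist s p ^ 2
      let A : Finset ℂ := S.filter fun s => 0 < X s
      have hqX : 0 < X q := by
        simp only [X, dotp, Complex.sub_re, Complex.sub_im]; nlinarith
      have hA : A.Nonempty := ⟨q, Finset.mem_filter.2 ⟨hq, hqX⟩⟩
      obtain ⟨c, hcA, hmin⟩ := A.exists_min_image (fun s => P s / (2 * X s)) hA
      obtain ⟨hcS, hcX⟩ := Finset.mem_filter.1 hcA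
      obtain ⟨t, ht⟩ : ∃ t, t = P c / (2 * X c) := ⟨_, rfl⟩
      have ht0 : 0 ≤ t := by rw [ht]; positivity
      obtain ⟨z, hz⟩ : ∃ z : ℂ, z = ⟨p.re + t * (q.re - p.re), p.im + t * (q.im - p.im)⟩ :=
        ⟨_, rfl⟩
      have hzre : z.re = p.re + t * (q.re - p.re) := by rw [hz]
      have hzim : z.im = p.im + t * (q.im - p.im) := by rw [hz]
      have key : ∀ s : ℂ, (s.re - z.re) ^ 2 + (s.im - z.im) ^ 2
          - ((p.re - z.re) ^ 2 + (p.im - z.im) ^ 2) = P s - 2 * t * X s := by
        intro s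
        simp only [P, X, dist_sq, dotp, Complex.sub_re, Complex.sub_im]
        rw [hzre, hzim]; ring
      refine ⟨c, hcS, hcX, z, ?_, ?_⟩
      · apply dist_eq_dist_of_sq
        have h1 := key c
        have h2 : P c - 2 * t * X c = 0 := by rw [ht]; field_simp; ring
        linarith
      · intro s hs
        apply dist_le_dist_of_sq
        have h1 := key s
        have h2 : 0 ≤ P s - 2 * t * X s := by
          by_cases hX : 0 < X s
          · have h3 := hmin s (Finset.mem_filter.2 ⟨hs, hX⟩)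
            rw [← ht] at h3
            have h4 : t * (2 * X s) ≤ P s := (le_div_iff₀ (by positivity)).1 h3
            linarith
          · push Not at hX
            have h3 : 0 ≤ P s := by positivity
            have h4 : 0 ≤ t * (-X s) := mul_nonneg ht0 (by linarith)
            linarith
        linarith
    obtain ⟨z, hwz, hze⟩ := hwz
    by_cases hw0 : cross (q - p) (w - p) = 0
    · have hwq := on_ray hq hpq hwS hseg hw0 hwd hwz hze
      subst hwq
      exact Or.inl (adj_of hpq hp hq hwz hze)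
    -- neighbours of p off the line
    let B : Finset ℂ := S.filter fun s => (delaunayGraph (S : Set ℂ)).Adj p s ∧
      cross (q - p) (s - p) ≠ 0
    have hpw : p ≠ w := by
      rintro rfl
      simp [dotp] at hwd
    have hB : B.Nonempty := ⟨w, Finset.mem_filter.2 ⟨hwS, adj_of hpw hp hwS hwz hze, hw0⟩⟩
    obtain ⟨x, hxB, hmax⟩ := B.exists_max_image
      (fun s => dotp (s - p) (q - p) / |cross (q - p) (s - p)|) hB
    obtain ⟨hxS, hxadj, hx0⟩ := Finset.mem_filter.1 hxB
    have hid : ∀ u v : ℂ, cross (u - p) (v - p) * ((q.re - p.re) ^ 2 + (q.im - p.im) ^ 2)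
        = dotp (u - p) (q - p) * cross (q - p) (v - p)
          - cross (q - p) (u - p) * dotp (v - p) (q - p) := by
      intro u v
      have := cross_dotp (u - p) (v - p) (q - p)
      simpa only [Complex.sub_re, Complex.sub_im] using this
    rcases lt_or_gt_of_ne hx0 with hx | hx
    · -- x on the right
      have hqf : 0 < cross (q - x) (p - x) := by
        have : cross (q - x) (p - x) = -cross (q - p) (x - p) := by
          simp only [cross, Complex.sub_re, Complex.sub_im]; ring
        linarith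
      obtain ⟨c, hcS, hcf, hpc, hxc, z', hz1, hz2, hz3⟩ := delaunay_next hp hxS hq hxadj hqf
      have hcf' : cross (c - p) (x - p) < 0 := by
        have : cross (c - x) (p - x) = -cross (c - p) (x - p) := by
          simp only [cross, Complex.sub_re, Complex.sub_im]; ring
        linarith
      have hidc := hid c x
      have hneg : dotp (c - p) (q - p) * cross (q - p) (x - p)
          - cross (q - p) (c - p) * dotp (x - p) (q - p) < 0 := by
        rw [← hidc]; exact mul_neg_of_neg_of_pos hcf' hn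
      rcases lt_trichotomy (cross (q - p) (c - p)) 0 with h | h | h
      · exfalso
        have h1 := hmax c (Finset.mem_filter.2 ⟨hcS, hpc, h.ne⟩)
        rw [abs_of_neg h, abs_of_neg hx, div_le_div_iff₀ (by linarith) (by linarith)] at h1
        nlinarith
      · left
        rw [h, zero_mul, sub_zero] at hneg
        have hd : 0 < dotp (c - p) (q - p) := by
          by_contra hd
          push Not at hd
          have := mul_nonneg_of_nonpos_of_nonpos hd hx.le
          linarith
        have := on_ray hq hpq hcS hseg h hd hz2 hz3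
        rw [← this]; exact hpc
      · right
        exact ⟨c, hcS, x, hxS, z', hpc, hxadj, hxc.symm, h, hx, hcf', hz2, hz1, hz3⟩
    · -- x on the left
      have hqf : 0 < cross (q - p) (x - p) := hx
      obtain ⟨c, hcS, hcf, hxc, hpc, z', hz1, hz2, hz3⟩ :=
        delaunay_next hxS hp hq hxadj.symm hqf
      have hidc := hid c x
      have hneg : 0 < dotp (c - p) (q - p) * cross (q - p) (x - p)
          - cross (q - p) (c - p) * dotp (x - p) (q - p) := by
        rw [← hidc]; exact mul_pos hcf hn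
      have hz2' : dist c z' = dist p z' := by rw [hz2, hz1]
      have hz3' : ∀ s ∈ S, dist p z' ≤ dist s z' := by rw [hz1]; exact hz3
      rcases lt_trichotomy (cross (q - p) (c - p)) 0 with h | h | h
      · right
        refine ⟨x, hxS, c, hcS, z', hxadj, hpc, hxc, hx, h, ?_, hz1.symm, hz2', hz3'⟩
        have : cross (x - p) (c - p) = -cross (c - p) (x - p) := by
          simp only [cross, Complex.sub_re, Complex.sub_im]; ring
        linarith
      · left
        rw [h, zero_mul, sub_zero] at hneg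
        have hd : 0 < dotp (c - p) (q - p) := (pos_iff_pos_of_mul_pos hneg).2 hx
        have := on_ray hq hpq hcS hseg h hd hz2' hz3'
        rw [← this]; exact hpc
      · exfalso
        have h1 := hmax c (Finset.mem_filter.2 ⟨hcS, hpc, h.ne'⟩)
        rw [abs_of_pos h, abs_of_pos hx, div_le_div_iff₀ (by linarith) (by linarith)] at h1
        nlinarith

end MP_74021c_co
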