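import Pool.Agent.Work.DelaunayStretch.Nodes

namespace MP_74021c_co

open Real

noncomputable def E0f (c : CP) (e β : ℝ) : ℝ :=
  c.A * (cos β + β * sin β) - sin β * (c.P * β + 2 * e * c.Pi * cos β)

noncomputable def E2f (c : CP) (e β : ℝ) : ℝ := c.U * β + 2 * e * c.W * cos β

noncomputable def yf (m : ℝ) : ℝ := 323000 * cos m + 313280 * m * sin m

noncomputable def Zf (c : CP) : ℝ := 2 * c.P + 8 * c.Pi + 2 * c.W - c.A

noncomputable def ηb (c : CP) (i : ℕ) : ℝ := (c.A - c.P) * ang (i + 1) + Zf c * cos (ang (i - 1))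

noncomputable def ηm (j : ℕ) : ℝ :=
  max 0 (480000 - 313280 * ang (j - 1)) * ang (j + 1) + 303560 * cos (ang (j - 1))

/-- what a successful check of a node gives -/
structure NodeOK (c : CP) (i j : ℕ) : Prop where
  ineq : ∀ e : ℝ, e = 1 ∨ e = -1 → E0f c e (ang i) + |E2f c e (ang i)| * sin (ang j) - yf (ang j)
    + (ηb c i + ηm j) / 8192 ≤ 0
  E2 : ∀ e : ℝ, e = 1 ∨ e = -1 → |E2f c e (ang i)| ≤ 480000
  PA : (c.P : ℝ) ≤ c.A
  Z : 0 ≤ Zf c

lemma cast_sub_ge (a b : ℕ) : (a : ℝ) - b ≤ ((a - b : ℕ) : ℝ) := by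
  have h : a ≤ (a - b) + b := le_tsub_add
  have : (a : ℝ) ≤ ((a - b : ℕ) : ℝ) + b := by exact_mod_cast h
  linarith

theorem cols_ok : ∀ j < 52, (cols.getD j (0, 0)).1 = (nd j).sU ∧
    (cols.getD j (0, 0)).2 + ((480000 * 1000000000 - 313280 * (nd j).bP) * (nd j).bN
      + 303560 * (nd j).cP * 1000000000) ≤
    8192 * (323000 * (nd j).cL * 1000000000 + 313280 * (nd j).bL * (nd j).sL) := by
  decide +kernel

lemma cos_ang_nonneg (i : ℕ) : 0 ≤ cos (ang i) :=
  cos_nonneg_of_neg_pi_div_two_le_of_le (by have := ang_nonneg i; have := pi_pos; linarith)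
    (ang_le_pi i)

lemma sin_ang_nonneg (i : ℕ) : 0 ≤ sin (ang i) :=
  sin_nonneg_of_nonneg_of_le_pi (ang_nonneg i) (by have := ang_le_pi i; have := pi_pos; linarith)

lemma col_bound (j : ℕ) (hj : j < 52) :
    (10 : ℝ) ^ 9 * sin (ang j) ≤ ((cols.getD j (0, 0)).1 : ℝ) ∧
    ((cols.getD j (0, 0)).2 : ℝ) ≤ 10 ^ 18 * (8192 * yf (ang j) - ηm j) := by
  obtain ⟨h1, h2⟩ := cols_ok j hj
  have en := enc j hj
  refine ⟨by rw [h1]; exact en.sU, ?_⟩
  have h2' : ((cols.getD j (0, 0)).2 : ℝ)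
      + (((480000 * 1000000000 - 313280 * (nd j).bP : ℕ) : ℝ) * (nd j).bN
      + 303560 * (nd j).cP * 1000000000) ≤
      8192 * (323000 * (nd j).cL * 1000000000 + 313280 * (nd j).bL * (nd j).sL) := by
    exact_mod_cast h2
  have h3 := cast_sub_ge (480000 * 1000000000) (313280 * (nd j).bP)
  push_cast at h3
  have h4 : 10 ^ 9 * max 0 (480000 - 313280 * ang (j - 1))
      ≤ ((480000 * 1000000000 - 313280 * (nd j).bP : ℕ) : ℝ) := by
    rcases le_total 0 (480000 - 313280 * ang (j - 1)) with h | h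
    · rw [max_eq_right h]; have := en.bP; linarith
    · rw [max_eq_left h]; simp
  have hmax : 0 ≤ max 0 (480000 - 313280 * ang (j - 1)) := le_max_left _ _
  have h5 : (10 ^ 9 * max 0 (480000 - 313280 * ang (j - 1))) * (10 ^ 9 * ang (j + 1))
      ≤ ((480000 * 1000000000 - 313280 * (nd j).bP : ℕ) : ℝ) * (nd j).bN :=
    mul_le_mul h4 en.bN (by have := ang_nonneg (j + 1); positivity) (by positivity)
  have h6 : ((nd j).bL : ℝ) * (nd j).sL ≤ (10 ^ 9 * ang j) * (10 ^ 9 * sin (ang j)) :=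
    mul_le_mul en.bL en.sL (by positivity) (by have := ang_nonneg j; positivity)
  have h7 := en.cL
  have h8 := en.cP
  unfold yf ηm
  nlinarith [h2', h5, h6, h7, h8]

lemma rowR_eq {L E : ℕ} {l : List (ℕ × ℕ)} (h : rowR L E l = true) :
    ∀ p ∈ l, L + E * p.1 ≤ p.2 := by
  intro p hp
  exact Nat.le_of_ble_eq_true (allR_eq h p hp)

lemma node_ok {c : CP} {i j : ℕ} (hi : i < 52) (hj : j < 52) {l : List (ℕ × ℕ)}
    (hl : cols.getD j (0, 0) ∈ l) (h : chkNode l c (nd i) = true) : NodeOK c i j := by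
  unfold chkNode at h
  simp only [Bool.and_eq_true, force_eq] at h
  obtain ⟨h1, h2, h3, h4, h5⟩ := h
  have h1' := rowR_eq h1 _ hl
  have h2' := rowR_eq h2 _ hl
  have h3' := Nat.le_of_ble_eq_true h3
  have h4' := Nat.le_of_ble_eq_true h4
  have h5' := Nat.le_of_ble_eq_true h5
  have en := enc i hi
  obtain ⟨hc1, hc2⟩ := col_bound j hj
  obtain ⟨x, hx⟩ : ∃ x, x = (cols.getD j (0, 0)).1 := ⟨_, rfl⟩
  obtain ⟨y, hy⟩ : ∃ y, y = (cols.getD j (0, 0)).2 := ⟨_, rfl⟩
  rw [← hx] at hc1 h1' h2'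
  rw [← hy] at hc2 h1' h2'
  have hβ := ang_nonneg i
  have hs := sin_ang_nonneg i
  have hc := cos_ang_nonneg i
  have hsj := sin_ang_nonneg j
  obtain ⟨β, hβe⟩ : ∃ β, β = ang i := ⟨_, rfl⟩
  obtain ⟨s, hse⟩ : ∃ s, s = sin (ang i) := ⟨_, rfl⟩
  obtain ⟨co, hce⟩ : ∃ co, co = cos (ang i) := ⟨_, rfl⟩
  have b1 := en.bL; have b2 := en.bU; have s1 := en.sL; have s2 := en.sU
  have c1 := en.cL; have c2 := en.cU; have n1 := en.bN; have p1 := en.cP
  rw [← hβe] at b1 b2 hβ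
  rw [← hse] at s1 s2 hs
  rw [← hce] at c1 c2 hc
  have hPA : (c.P : ℝ) ≤ c.A := by exact_mod_cast h4'
  have hZ0 : (c.A : ℝ) ≤ 2 * c.P + 8 * c.Pi + 2 * c.W := by exact_mod_cast h5'
  have hZ : 0 ≤ Zf c := by unfold Zf; linarith
  -- the margin
  have hAPc : ((c.A - c.P : ℕ) : ℝ) = c.A - c.P := by
    rw [Nat.cast_sub h4']
  have hZc : ((2 * c.P + 8 * c.Pi + 2 * c.W - c.A : ℕ) : ℝ) = Zf c := by
    rw [Nat.cast_sub h5']; unfold Zf; push_cast; ring
  have hη : 10 ^ 18 * ηb c i ≤ 1000000000 * (((c.A - c.P : ℕ) : ℝ) * (nd i).bN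
      + ((2 * c.P + 8 * c.Pi + 2 * c.W - c.A : ℕ) : ℝ) * (nd i).cP) := by
    rw [hAPc, hZc]
    unfold ηb
    have g1 := mul_le_mul_of_nonneg_left n1 (show 0 ≤ (c.A : ℝ) - c.P by linarith)
    have g2 := mul_le_mul_of_nonneg_left p1 hZ
    linarith
  have hA0 : (0 : ℝ) ≤ c.A := by positivity
  have hP0 : (0 : ℝ) ≤ c.P := by positivity
  have hPi0 : (0 : ℝ) ≤ c.Pi := by positivity
  have hU0 : (0 : ℝ) ≤ c.U := by positivity
  have hW0 : (0 : ℝ) ≤ c.W := by positivity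
  have hx0 : (0 : ℝ) ≤ x := by positivity
  -- products
  have q1 : (10 ^ 9 * β) * (10 ^ 9 * s) ≤ ((nd i).bU : ℝ) * (nd i).sU :=
    mul_le_mul b2 s2 (by positivity) (by positivity)
  have q2 : ((nd i).sL : ℝ) * (nd i).bL ≤ (10 ^ 9 * s) * (10 ^ 9 * β) :=
    mul_le_mul s1 b1 (by positivity) (by positivity)
  have q3 : ((nd i).sL : ℝ) * (nd i).cL ≤ (10 ^ 9 * s) * (10 ^ 9 * co) :=
    mul_le_mul s1 c1 (by positivity) (by positivity)
  have q4 : (10 ^ 9 * s) * (10 ^ 9 * co) ≤ ((nd i).sU : ℝ) * (nd i).cU :=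
    mul_le_mul s2 c2 (by positivity) (by positivity)
  have hA1 : 10 ^ 18 * (c.A * (co + β * s))
      ≤ c.A * ((nd i).cU * 1000000000 + (nd i).bU * (nd i).sU) := by
    have : 10 ^ 18 * (co + β * s) ≤ ((nd i).cU * 1000000000 + (nd i).bU * (nd i).sU : ℝ) := by
      linarith
    have := mul_le_mul_of_nonneg_left this hA0
    linarith
  have hP1 : (c.P : ℝ) * ((nd i).sL * (nd i).bL) ≤ 10 ^ 18 * (c.P * (s * β)) := by
    have := mul_le_mul_of_nonneg_left q2 hP0
    linarith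
  have hPi1 : (c.Pi : ℝ) * ((nd i).sL * (nd i).cL) ≤ 10 ^ 18 * (c.Pi * (s * co)) := by
    have := mul_le_mul_of_nonneg_left q3 hPi0
    linarith
  have hPi2 : 10 ^ 18 * (c.Pi * (s * co)) ≤ (c.Pi : ℝ) * ((nd i).sU * (nd i).cU) := by
    have := mul_le_mul_of_nonneg_left q4 hPi0
    linarith
  -- L bounds
  have hLP : 8192 * 10 ^ 18 * E0f c 1 (ang i) + 10 ^ 18 * ηb c i ≤ (LP c (nd i) : ℝ) := by
    unfold LP E0f
    have g := cast_sub_ge (c.A * ((nd i).cU * 1000000000 + (nd i).bU * (nd i).sU))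
      ((nd i).sL * (c.P * (nd i).bL + 2 * c.Pi * (nd i).cL))
    rw [← hse, ← hce, ← hβe]
    rw [Nat.cast_add, Nat.cast_mul, Nat.cast_mul, Nat.cast_add, Nat.cast_mul, Nat.cast_mul]
    push_cast at g ⊢
    push_cast at hη
    linarith
  have hLM : 8192 * 10 ^ 18 * E0f c (-1) (ang i) + 10 ^ 18 * ηb c i ≤ (LM c (nd i) : ℝ) := by
    unfold LM E0f
    have g := cast_sub_ge (c.A * ((nd i).cU * 1000000000 + (nd i).bU * (nd i).sU)
      + 2 * c.Pi * (nd i).sU * (nd i).cU) ((nd i).sL * (c.P * (nd i).bL))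
    rw [← hse, ← hce, ← hβe]
    rw [Nat.cast_add, Nat.cast_mul, Nat.cast_mul, Nat.cast_add, Nat.cast_mul, Nat.cast_mul]
    push_cast at g ⊢
    push_cast at hη
    linarith
  -- E bounds
  have u1 : (c.U : ℝ) * (nd i).bL ≤ 10 ^ 9 * (c.U * β) := by
    have := mul_le_mul_of_nonneg_left b1 hU0; linarith
  have u2 : 10 ^ 9 * (c.U * β) ≤ (c.U : ℝ) * (nd i).bU := by
    have := mul_le_mul_of_nonneg_left b2 hU0; linarith
  have w1 : (c.W : ℝ) * (nd i).cL ≤ 10 ^ 9 * (c.W * co) := by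
    have := mul_le_mul_of_nonneg_left c1 hW0; linarith
  have w2 : 10 ^ 9 * (c.W * co) ≤ (c.W : ℝ) * (nd i).cU := by
    have := mul_le_mul_of_nonneg_left c2 hW0; linarith
  have hUβ : 0 ≤ (c.U : ℝ) * β := by positivity
  have hWc : 0 ≤ (c.W : ℝ) * co := by positivity
  have hEP : 8192 * 10 ^ 9 * |E2f c 1 (ang i)| ≤ (EP c (nd i) : ℝ) := by
    unfold EP E2f
    rw [← hce, ← hβe, abs_of_nonneg (by linarith)]
    push_cast; linarith
  have hEM : 8192 * 10 ^ 9 * |E2f c (-1) (ang i)| ≤ (EM c (nd i) : ℝ) := by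
    unfold EM E2f
    have g1 := cast_sub_ge (c.U * (nd i).bU) (2 * c.W * (nd i).cL)
    have g2 := cast_sub_ge (2 * c.W * (nd i).cU) (c.U * (nd i).bL)
    have g3 : (0 : ℝ) ≤ ((c.U * (nd i).bU - 2 * c.W * (nd i).cL : ℕ) : ℝ) := by positivity
    have g4 : (0 : ℝ) ≤ ((2 * c.W * (nd i).cU - c.U * (nd i).bL : ℕ) : ℝ) := by positivity
    rw [← hce, ← hβe]
    rw [Nat.cast_mul, Nat.cast_add]
    push_cast at g1 g2
    rcases le_total 0 (c.U * β + 2 * (-1) * c.W * co) with h | h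
    · rw [abs_of_nonneg h]; push_cast [-Nat.cast_sub]; nlinarith
    · rw [abs_of_nonpos h]; push_cast [-Nat.cast_sub]; nlinarith
  have hcomb : ∀ {L E : ℕ} {e0 e2 : ℝ}, 0 ≤ e2 → 8192 * 10 ^ 18 * e0 + 10 ^ 18 * ηb c i ≤ (L : ℝ) →
      8192 * 10 ^ 9 * e2 ≤ (E : ℝ) → L + E * x ≤ y →
      e0 + e2 * sin (ang j) - yf (ang j) + (ηb c i + ηm j) / 8192 ≤ 0 := by
    intro L E e0 e2 he2 hL hE hLE
    have hLE' : (L : ℝ) + E * x ≤ y := by exact_mod_cast hLE
    have g1 : 8192 * 10 ^ 9 * e2 * (10 ^ 9 * sin (ang j)) ≤ E * x :=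
      mul_le_mul hE hc1 (by positivity) (by positivity)
    have g2 : 8192 * 10 ^ 18 * e0 + 10 ^ 18 * ηb c i + 8192 * 10 ^ 18 * (e2 * sin (ang j))
        ≤ 10 ^ 18 * (8192 * yf (ang j) - ηm j) := by linarith
    linarith
  refine ⟨?_, ?_, hPA, hZ⟩
  · rintro e (rfl | rfl)
    · exact hcomb (abs_nonneg _) hLP hEP h1'
    · exact hcomb (abs_nonneg _) hLM hEM h2'
  · have h3'' : (c.U : ℝ) * (nd i).bU + 2 * c.W * (nd i).cU ≤ 480000 * 1000000000 := by
      exact_mod_cast h3'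
    rintro e (rfl | rfl)
    · unfold E2f
      rw [← hce, ← hβe, abs_of_nonneg (by linarith)]
      linarith
    · unfold E2f
      rw [← hce, ← hβe, abs_le]
      constructor <;> linarith

lemma ηm_nonneg (j : ℕ) : 0 ≤ ηm j := by
  have h1 : 0 ≤ max 0 (480000 - 313280 * ang (j - 1)) := le_max_left _ _
  have h2 := ang_nonneg (j + 1)
  have h3 := cos_ang_nonneg (j - 1)
  unfold ηm; positivity

lemma cos_ang_anti {i j : ℕ} (h : i ≤ j) : cos (ang j) ≤ cos (ang i) :=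
  cos_le_cos_of_nonneg_of_le_pi (ang_nonneg i)
    (by have := ang_le_pi j; have := pi_pos; linarith) (ang_mono h)

lemma cell_m {c : CP} {i j : ℕ} {e : ℝ} (he : e = 1 ∨ e = -1) (h1 : NodeOK c i j)
    (h2 : NodeOK c i (j + 1)) {m : ℝ} (hm1 : ang j ≤ m) (hm2 : m ≤ ang (j + 1)) :
    E0f c e (ang i) + |E2f c e (ang i)| * sin m - yf m + ηb c i / 8192 ≤ 0 := by
  obtain ⟨E0, hE0⟩ : ∃ E0, E0 = E0f c e (ang i) := ⟨_, rfl⟩
  obtain ⟨E2, hE2⟩ : ∃ E2, E2 = |E2f c e (ang i)| := ⟨_, rfl⟩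
  have i1 := h1.ineq e he
  have i2 := h2.ineq e he
  have i3 := h1.E2 e he
  rw [← hE0, ← hE2] at i1 i2 ⊢
  rw [← hE2] at i3
  have hE2n : 0 ≤ E2 := by rw [hE2]; exact abs_nonneg _
  obtain ⟨M, hM⟩ : ∃ M, M = max 0 (480000 - 313280 * ang j) * ang (j + 1) + 303560 * cos (ang j) :=
    ⟨_, rfl⟩
  have hmx : 0 ≤ max 0 (480000 - 313280 * ang j) := le_max_left _ _
  have hM0 : 0 ≤ M := by
    rw [hM]; have := ang_nonneg (j + 1); have := cos_ang_nonneg j; positivity
  have hpi := ang_le_pi (j + 1)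
  have hj0 := ang_nonneg j
  have key := interp (F := fun m => E0 + E2 * sin m - yf m)
    (F' := fun m => E2 * cos m - (-323000 * sin m + 313280 * (sin m + m * cos m)))
    (F'' := fun m => -(E2 * sin m) - (-323000 * cos m + 313280 * (cos m + (cos m - m * sin m))))
    hM0 (a := ang j) (b := ang (j + 1)) ?_ ?_ ?_ (x := m) ⟨hm1, hm2⟩
  · have hlen : (ang (j + 1) - ang j) ^ 2 ≤ 1 / 1024 := by
      have g1 := ang_step j
      have g2 := ang_mono (Nat.le_succ j)
      have g3 : 0 ≤ ang (j + 1) - ang j := by linarith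
      nlinarith
    have e1 : M * (ang (j + 1) - ang j) ^ 2 / 8 ≤ M / 8192 := by
      have := mul_le_mul_of_nonneg_left hlen hM0
      linarith
    have e2 : M ≤ ηm j := by
      rw [hM]; unfold ηm
      have g1 : max 0 (480000 - 313280 * ang j) ≤ max 0 (480000 - 313280 * ang (j - 1)) := by
        have := ang_mono (Nat.sub_le j 1)
        exact max_le_max le_rfl (by linarith)
      have g2 := mul_le_mul_of_nonneg_right g1 (ang_nonneg (j + 1))
      have g3 := cos_ang_anti (Nat.sub_le j 1)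
      linarith
    have e3 : M ≤ ηm (j + 1) := by
      rw [hM]; unfold ηm
      rw [show j + 1 - 1 = j by omega]
      have g1 := ang_mono (Nat.le_succ (j + 1))
      have g2 := mul_le_mul_of_nonneg_left g1 hmx
      simp only [Nat.succ_eq_add_one] at g2
      linarith
    have e4 : max (E0 + E2 * sin (ang j) - yf (ang j)) (E0 + E2 * sin (ang (j + 1)) - yf (ang (j + 1)))
        ≤ -(ηb c i / 8192) - M / 8192 := max_le (by linarith) (by linarith)
    linarith
  · intro x _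
    have d1 := ((hasDerivAt_sin x).const_mul E2).const_add E0
    have d2 := ((hasDerivAt_cos x).const_mul 323000).fun_add
      (((hasDerivAt_id x).const_mul 313280).fun_mul (hasDerivAt_sin x))
    have d3 := d1.fun_sub d2
    unfold yf
    refine d3.congr_deriv ?_
    simp; ring
  · intro x _
    have d1 := (hasDerivAt_cos x).const_mul E2
    have d2 := ((hasDerivAt_sin x).const_mul (-323000)).fun_add
      (((hasDerivAt_sin x).fun_add ((hasDerivAt_id x).fun_mul (hasDerivAt_cos x))).const_mul 313280)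
    have d3 := d1.fun_sub d2
    refine d3.congr_deriv ?_
    simp; ring
  · intro x hx
    have hx0 : 0 ≤ x := hj0.trans hx.1
    have hs0 : 0 ≤ sin x := sin_nonneg_of_nonneg_of_le_pi hx0 (by linarith [hx.2, pi_pos])
    have hsx : sin x ≤ ang (j + 1) := (sin_le hx0).trans hx.2
    have hcx : cos x ≤ cos (ang j) :=
      cos_le_cos_of_nonneg_of_le_pi hj0 (by linarith [hx.2, pi_pos]) hx.1
    have g1 : E2 - 313280 * x ≤ max 0 (480000 - 313280 * ang j) :=
      le_trans (by linarith [hx.1]) (le_max_right _ _)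
    have g2 : (E2 - 313280 * x) * sin x ≤ max 0 (480000 - 313280 * ang j) * ang (j + 1) :=
      (mul_le_mul_of_nonneg_right g1 hs0).trans (mul_le_mul_of_nonneg_left hsx hmx)
    rw [hM]
    show _ ≤ -(E2 * sin x) - (-323000 * cos x + 313280 * (cos x + (cos x - x * sin x)))
    linarith

lemma cell {c : CP} {i j : ℕ} {e : ℝ} (he : e = 1 ∨ e = -1) (h1 : NodeOK c i j)
    (h2 : NodeOK c i (j + 1)) (h3 : NodeOK c (i + 1) j) (h4 : NodeOK c (i + 1) (j + 1)) {β m : ℝ}
    (hβ1 : ang i ≤ β) (hβ2 : β ≤ ang (i + 1)) (hm1 : ang j ≤ m) (hm2 : m ≤ ang (j + 1)) :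
    E0f c e β + |E2f c e β| * sin m - yf m ≤ 0 := by
  have k1 := cell_m he h1 h2 hm1 hm2
  have k2 := cell_m he h3 h4 hm1 hm2
  have hPA := h1.PA
  have hZ := h1.Z
  have hm0 : 0 ≤ m := (ang_nonneg j).trans hm1
  have hmp : m ≤ π / 2 := hm2.trans (ang_le_pi _)
  have hsm0 : 0 ≤ sin m := sin_nonneg_of_nonneg_of_le_pi hm0 (by linarith [pi_pos])
  have hsm1 : sin m ≤ 1 := sin_le_one m
  -- choose the sign
  obtain ⟨σ, hσ, hσE⟩ : ∃ σ : ℝ, (σ = 1 ∨ σ = -1) ∧ |E2f c e β| = σ * E2f c e β := by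
    rcases le_total 0 (E2f c e β) with h | h
    · exact ⟨1, Or.inl rfl, by rw [abs_of_nonneg h, one_mul]⟩
    · exact ⟨-1, Or.inr rfl, by rw [abs_of_nonpos h]; ring⟩
  have hσle : ∀ t : ℝ, σ * t ≤ |t| := by
    intro t
    rcases hσ with rfl | rfl
    · rw [one_mul]; exact le_abs_self t
    · rw [neg_one_mul]; exact neg_le_abs t
  rw [hσE]
  obtain ⟨y, hy⟩ : ∃ y, y = yf m := ⟨_, rfl⟩
  obtain ⟨x, hx⟩ : ∃ x, x = sin m := ⟨_, rfl⟩
  rw [← hx, ← hy] at k1 k2 ⊢
  rw [← hx] at hsm0 hsm1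
  obtain ⟨M, hM⟩ : ∃ M, M = (c.A - c.P) * ang (i + 1) + Zf c * cos (ang i) := ⟨_, rfl⟩
  have hAP : 0 ≤ (c.A : ℝ) - c.P := by linarith
  have hM0 : 0 ≤ M := by
    rw [hM]; have := ang_nonneg (i + 1); have := cos_ang_nonneg i; positivity
  have hpi := ang_le_pi (i + 1)
  have hi0 := ang_nonneg i
  have hPi0 : (0 : ℝ) ≤ c.Pi := by positivity
  have hW0 : (0 : ℝ) ≤ c.W := by positivity
  have key := interp (F := fun β => E0f c e β + σ * E2f c e β * x - y)
    (F' := fun β => c.A * (β * cos β) - (cos β * (c.P * β + 2 * e * c.Pi * cos β)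
        + sin β * (c.P - 2 * e * c.Pi * sin β)) + σ * (c.U - 2 * e * c.W * sin β) * x)
    (F'' := fun β => c.A * (cos β - β * sin β) + c.P * β * sin β - 2 * c.P * cos β
        + 8 * e * c.Pi * (sin β * cos β) - σ * (2 * e * c.W * cos β) * x)
    hM0 (a := ang i) (b := ang (i + 1)) ?_ ?_ ?_ (x := β) ⟨hβ1, hβ2⟩
  · have hlen : (ang (i + 1) - ang i) ^ 2 ≤ 1 / 1024 := by
      have g1 := ang_step i
      have g2 := ang_mono (Nat.le_succ i)
      have g3 : 0 ≤ ang (i + 1) - ang i := by linarith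
      nlinarith
    have e1 : M * (ang (i + 1) - ang i) ^ 2 / 8 ≤ M / 8192 := by
      have := mul_le_mul_of_nonneg_left hlen hM0
      linarith
    have e2 : M ≤ ηb c i := by
      rw [hM]; unfold ηb
      have g3 := mul_le_mul_of_nonneg_left (cos_ang_anti (Nat.sub_le i 1)) hZ
      linarith
    have e3 : M ≤ ηb c (i + 1) := by
      rw [hM]; unfold ηb
      rw [show i + 1 - 1 = i by omega]
      have g1 := ang_mono (Nat.le_succ (i + 1))
      have g2 := mul_le_mul_of_nonneg_left g1 hAP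
      simp only [Nat.succ_eq_add_one] at g2
      linarith
    have t1 : E0f c e (ang i) + σ * E2f c e (ang i) * x - y ≤ -(M / 8192) := by
      have := mul_le_mul_of_nonneg_right (hσle (E2f c e (ang i))) hsm0
      linarith
    have t2 : E0f c e (ang (i + 1)) + σ * E2f c e (ang (i + 1)) * x - y ≤ -(M / 8192) := by
      have := mul_le_mul_of_nonneg_right (hσle (E2f c e (ang (i + 1)))) hsm0
      linarith
    have e4 := max_le t1 t2
    linarith
  · intro t _
    unfold E0f E2f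
    have d1 := ((hasDerivAt_cos t).fun_add ((hasDerivAt_id t).fun_mul (hasDerivAt_sin t))).const_mul
      (c.A : ℝ)
    have d2 := (hasDerivAt_sin t).fun_mul (((hasDerivAt_id t).const_mul (c.P : ℝ)).fun_add
      ((hasDerivAt_cos t).const_mul (2 * e * c.Pi)))
    have d3 := ((((hasDerivAt_id t).const_mul (c.U : ℝ)).fun_add
      ((hasDerivAt_cos t).const_mul (2 * e * c.W))).const_mul σ).mul_const x
    have d4 := ((d1.fun_sub d2).fun_add d3).sub_const y
    refine d4.congr_deriv ?_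
    simp; ring
  · intro t _
    have d1 := ((hasDerivAt_id t).fun_mul (hasDerivAt_cos t)).const_mul (c.A : ℝ)
    have d2 := (hasDerivAt_cos t).fun_mul (((hasDerivAt_id t).const_mul (c.P : ℝ)).fun_add
      ((hasDerivAt_cos t).const_mul (2 * e * c.Pi)))
    have d2' := (hasDerivAt_sin t).fun_mul
      (((hasDerivAt_sin t).const_mul (2 * e * c.Pi)).const_sub (c.P : ℝ))
    have d3 := ((((hasDerivAt_sin t).const_mul (2 * e * c.W)).const_sub (c.U : ℝ)).const_mul
      σ).mul_const x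
    have d4 := (d1.fun_sub (d2.fun_add d2')).fun_add d3
    refine d4.congr_deriv ?_
    simp; ring
  · intro t ht
    have ht0 : 0 ≤ t := hi0.trans ht.1
    have hs0 : 0 ≤ sin t := sin_nonneg_of_nonneg_of_le_pi ht0 (by linarith [ht.2, pi_pos])
    have hs1 : sin t ≤ 1 := sin_le_one t
    have hc0 : 0 ≤ cos t :=
      cos_nonneg_of_neg_pi_div_two_le_of_le (by linarith [pi_pos]) (by linarith [ht.2])
    have hcx : cos t ≤ cos (ang i) :=
      cos_le_cos_of_nonneg_of_le_pi hi0 (by linarith [ht.2, pi_pos]) ht.1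
    have g1 : ((c.A : ℝ) - c.P) * (t * sin t) ≤ (c.A - c.P) * ang (i + 1) := by
      apply mul_le_mul_of_nonneg_left _ hAP
      calc t * sin t ≤ t * 1 := mul_le_mul_of_nonneg_left hs1 ht0
        _ ≤ _ := by rw [mul_one]; exact ht.2
    have g2 : Zf c * cos t ≤ Zf c * cos (ang i) := mul_le_mul_of_nonneg_left hcx hZ
    have g3 : -(8 * e * c.Pi * (sin t * cos t)) ≤ 8 * c.Pi * cos t := by
      have a1 : c.Pi * (sin t * cos t) ≤ c.Pi * cos t := by
        apply mul_le_mul_of_nonneg_left _ hPi0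
        nlinarith
      have a0 : 0 ≤ c.Pi * (sin t * cos t) := by positivity
      rcases he with rfl | rfl
      · nlinarith
      · nlinarith
    have g4 : σ * (2 * e * c.W * cos t) * x ≤ 2 * c.W * cos t := by
      have a1 : c.W * cos t * x ≤ c.W * cos t := by
        have : 0 ≤ c.W * cos t := by positivity
        nlinarith
      have a0 : 0 ≤ c.W * cos t * x := by positivity
      rcases he with rfl | rfl <;> rcases hσ with rfl | rfl <;> nlinarith
    rw [hM]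
    show _ ≤ c.A * (cos t - t * sin t) + c.P * t * sin t - 2 * c.P * cos t
        + 8 * e * c.Pi * (sin t * cos t) - σ * (2 * e * c.W * cos t) * x
    unfold Zf at g2 ⊢
    nlinarith [g1, g2, g3, g4]

end MP_74021c_co
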