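import Pool.Agent.Work.DelaunayStretch.Grid

namespace MP_74021c_co

open Real

lemma cols_length : cols.length = 52 := by decide +kernel

lemma nodes_length : nodes.length = 52 := by decide +kernel

lemma col_mem {j : ℕ} (hj : j < 52) : cols.getD j (0, 0) ∈ cols := by
  rw [List.getD_eq_getElem _ _ (by rw [cols_length]; exact hj)]
  exact List.getElem_mem _

lemma nd_mem {i : ℕ} (hi : i < 52) : nd i ∈ nodes := by
  unfold nd
  rw [List.getD_eq_getElem _ _ (by rw [nodes_length]; exact hi)]
  exact List.getElem_mem _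

lemma col_mem_take {j : ℕ} (hj : j < 50) : cols.getD j (0, 0) ∈ cols.take 50 := by
  have h1 : j < (cols.take 50).length := by
    rw [List.length_take, cols_length]; omega
  have h2 : (cols.take 50)[j] = cols.getD j (0, 0) := by
    rw [List.getD_eq_getElem _ _ (by rw [cols_length]; omega), List.getElem_take]
  rw [← h2]; exact List.getElem_mem _

lemma nd_mem_take {i : ℕ} (hi : i < 50) : nd i ∈ nodes.take 50 := by
  have h1 : i < (nodes.take 50).length := by
    rw [List.length_take, nodes_length]; omega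
  have h2 : (nodes.take 50)[i] = nd i := by
    unfold nd
    rw [List.getD_eq_getElem _ _ (by rw [nodes_length]; omega), List.getElem_take]
  rw [← h2]; exact List.getElem_mem _

lemma nd_mem_drop {i : ℕ} (hi : i < 52) (hi' : 50 ≤ i) : nd i ∈ nodes.drop 50 := by
  have h1 : i - 50 < (nodes.drop 50).length := by
    rw [List.length_drop, nodes_length]; omega
  have h2 : (nodes.drop 50)[i - 50] = nd i := by
    unfold nd
    rw [List.getD_eq_getElem _ _ (by rw [nodes_length]; omega), List.getElem_drop]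
    congr 1; omega
  rw [← h2]; exact List.getElem_mem _

lemma nodeOK_all {c : CP} (hc : c ∈ cps.take 19) {i j : ℕ} (hi : i < 52) (hj : j < 52) :
    NodeOK c i j := by
  have hall : ∀ c ∈ cps.take 19, allR (chkNode cols c) nodes = true := by
    intro c hc
    have h19 : cps.take 19 = cps.take 10 ++ (cps.drop 10).take 9 := by
      rw [← List.take_add]
    rw [h19, List.mem_append] at hc
    rcases hc with hc | hc
    · exact allR_eq chk1 c hc
    · exact allR_eq chk2 c hc
  exact node_ok hi hj (col_mem hj) (allR_eq (hall c hc) _ (nd_mem hi))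

lemma nodeOK_deg {c : CP} (hc : c ∈ cps.drop 19) {i j : ℕ} (hi : i < 52) (hj : j < 52)
    (hij : i < 50 ∨ j < 50) : NodeOK c i j := by
  have h := allR_eq chk3 c hc
  rw [Bool.and_eq_true] at h
  by_cases hi' : i < 50
  · exact node_ok hi hj (col_mem hj) (allR_eq h.1 _ (nd_mem_take hi'))
  · have hj' : j < 50 := by omega
    exact node_ok hi hj (col_mem_take hj') (allR_eq h.2 _ (nd_mem_drop hi (by omega)))

theorem grid_all {c : CP} (hc : c ∈ cps.take 19) {e : ℝ} (he : e = 1 ∨ e = -1) {β m : ℝ}
    (h1 : 0 ≤ β) (h2 : β ≤ π / 2) (h3 : 0 ≤ m) (h4 : m ≤ π / 2) :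
    E0f c e β + |E2f c e β| * sin m - yf m ≤ 0 := by
  obtain ⟨i, hi, hi1, hi2⟩ := exists_cell h1 h2
  obtain ⟨j, hj, hj1, hj2⟩ := exists_cell h3 h4
  exact cell he (nodeOK_all hc (by omega) (by omega)) (nodeOK_all hc (by omega) (by omega))
    (nodeOK_all hc (by omega) (by omega)) (nodeOK_all hc (by omega) (by omega)) hi1 hi2 hj1 hj2

theorem grid_deg {c : CP} (hc : c ∈ cps.drop 19) {e : ℝ} (he : e = 1 ∨ e = -1) {β m : ℝ}
    (h1 : 0 ≤ β) (h2 : β ≤ π / 2) (h3 : 0 ≤ m) (h4 : m ≤ π / 2)
    (h5 : β < 49 / 32 ∨ m < 49 / 32) :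
    E0f c e β + |E2f c e β| * sin m - yf m ≤ 0 := by
  obtain ⟨i, hi, hi1, hi2⟩ := exists_cell h1 h2
  obtain ⟨j, hj, hj1, hj2⟩ := exists_cell h3 h4
  have hlt : ∀ {i : ℕ} {x : ℝ}, ang i ≤ x → x < 49 / 32 → i < 49 := by
    intro i x hx hx'
    by_contra hno
    have := ang_mono (show 49 ≤ i by omega)
    rw [ang_le (show 49 ≤ 50 by omega)] at this
    push_cast at this
    linarith
  rcases h5 with h5 | h5
  · have := hlt hi1 h5
    exact cell he (nodeOK_deg hc (by omega) (by omega) (by omega))
      (nodeOK_deg hc (by omega) (by omega) (by omega))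
      (nodeOK_deg hc (by omega) (by omega) (by omega))
      (nodeOK_deg hc (by omega) (by omega) (by omega)) hi1 hi2 hj1 hj2
  · have := hlt hj1 h5
    exact cell he (nodeOK_deg hc (by omega) (by omega) (by omega))
      (nodeOK_deg hc (by omega) (by omega) (by omega))
      (nodeOK_deg hc (by omega) (by omega) (by omega))
      (nodeOK_deg hc (by omega) (by omega) (by omega)) hi1 hi2 hj1 hj2

end MP_74021c_co
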