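import Pool.Agent.Work.DelaunayStretch.Steps

namespace MP_74021c_co

open Real

variable {G : SimpleGraph ℂ}

lemma walkLength_nil (p : ℂ) : walkLength (SimpleGraph.Walk.nil : G.Walk p p) = 0 := by
  simp [walkLength]

lemma walkLength_append {p q r : ℂ} (w : G.Walk p q) (w' : G.Walk q r) :
    walkLength (w.append w') = walkLength w + walkLength w' := by
  simp [walkLength, SimpleGraph.Walk.darts_append]

lemma walkLength_adj {p q : ℂ} (h : G.Adj p q) :
    walkLength (SimpleGraph.Walk.cons h SimpleGraph.Walk.nil) = dist p q := by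
  simp [walkLength]

/-- there is a walk of length at most `F` -/
def Reach (G : SimpleGraph ℂ) (p q : ℂ) (F : ℝ) : Prop := ∃ w : G.Walk p q, walkLength w ≤ F

lemma Reach.mono {p q : ℂ} {F F' : ℝ} (h : Reach G p q F) (hF : F ≤ F') : Reach G p q F' := by
  obtain ⟨w, hw⟩ := h
  exact ⟨w, hw.trans hF⟩

lemma Reach.trans {p q r : ℂ} {F F' : ℝ} (h : Reach G p q F) (h' : Reach G q r F') :
    Reach G p r (F + F') := by
  obtain ⟨w, hw⟩ := h
  obtain ⟨w', hw'⟩ := h'
  exact ⟨w.append w', by rw [walkLength_append]; exact add_le_add hw hw'⟩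

lemma Reach.adj {p q : ℂ} (h : G.Adj p q) : Reach G p q (dist p q) :=
  ⟨_, (walkLength_adj h).le⟩

lemma Reach.step {p q r : ℂ} {F : ℝ} (h : Reach G p q F) (h' : G.Adj q r) :
    Reach G p r (F + dist q r) := h.trans (Reach.adj h')

/-- the crossing abscissa -/
noncomputable def x0 (a b : ℂ) : ℝ := (b.re * a.im - a.re * b.im) / (a.im - b.im)

lemma cross_real (a b q : ℂ) (hq : q.im = 0) (hab : 0 < a.im - b.im) :
    cross (q - b) (a - b) = (q.re - x0 a b) * (a.im - b.im) := by
  unfold x0 cross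
  simp only [Complex.sub_re, Complex.sub_im, hq]
  field_simp
  ring

lemma x0_lt_A {a b c : ℂ} (ha : 0 < a.im) (hb : b.im < 0) (hc : 0 < c.im)
    (h : 0 < cross (c - b) (a - b)) : x0 a b < x0 c b := by
  unfold x0
  rw [div_lt_div_iff₀ (by linarith) (by linarith)]
  unfold cross at h
  simp only [Complex.sub_re, Complex.sub_im] at h
  have : 0 < (-b.im) * ((c.re - b.re) * (a.im - b.im) - (c.im - b.im) * (a.re - b.re)) :=
    mul_pos (by linarith) h
  linarith

lemma x0_lt_B {a b c : ℂ} (ha : 0 < a.im) (hb : b.im < 0) (hc : c.im < 0)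
    (h : 0 < cross (c - b) (a - b)) : x0 a b < x0 a c := by
  unfold x0
  rw [div_lt_div_iff₀ (by linarith) (by linarith)]
  unfold cross at h
  simp only [Complex.sub_re, Complex.sub_im] at h
  have : 0 < a.im * ((c.re - b.re) * (a.im - b.im) - (c.im - b.im) * (a.re - b.re)) :=
    mul_pos ha h
  linarith

/-- the crossing point is inside the open disk -/
lemma x0_mem {a b z : ℂ} {R : ℝ} (ha : 0 < a.im) (hb : b.im < 0)
    (h1 : (a.re - z.re) ^ 2 + (a.im - z.im) ^ 2 = R ^ 2)
    (h2 : (b.re - z.re) ^ 2 + (b.im - z.im) ^ 2 = R ^ 2) :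
    (x0 a b - z.re) ^ 2 + z.im ^ 2 < R ^ 2 := by
  obtain ⟨l, hl⟩ : ∃ l, l = a.im / (a.im - b.im) := ⟨_, rfl⟩
  have hpos : 0 < a.im - b.im := by linarith
  have hl0 : 0 < l := by rw [hl]; positivity
  have hl1 : 0 < 1 - l := by
    rw [hl, sub_pos, div_lt_one hpos]; linarith
  have e1 : x0 a b = l * b.re + (1 - l) * a.re := by
    rw [hl, x0]; field_simp; ring
  have e2 : l * b.im + (1 - l) * a.im = 0 := by
    rw [hl]; field_simp; ring
  have e3 : (x0 a b - z.re) ^ 2 + z.im ^ 2
      = R ^ 2 - l * (1 - l) * ((a.re - b.re) ^ 2 + (a.im - b.im) ^ 2) := by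
    rw [e1]
    have : z.im ^ 2 = (l * b.im + (1 - l) * a.im - z.im) ^ 2 := by rw [e2]; ring
    rw [this]
    linear_combination (1 - l) * h1 + l * h2
  rw [e3]
  have : 0 < l * (1 - l) * ((a.re - b.re) ^ 2 + (a.im - b.im) ^ 2) := by
    have : 0 < (a.im - b.im) ^ 2 := by positivity
    positivity
  linarith

lemma quad_lt {x y L u v C : ℝ} (hxy : x < y) (h1 : (x - u) ^ 2 + v < C) (h2 : (y - u) ^ 2 + v < C)
    (hL : C ≤ (L - u) ^ 2 + v) (hx : x < L) : y < L := by
  by_contra hy
  push Not at hy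
  have key : (y - x) * ((L - u) ^ 2 + v - C) = (y - L) * ((x - u) ^ 2 + v - C)
      + (L - x) * ((y - u) ^ 2 + v - C) - (y - x) * (L - x) * (y - L) := by ring
  have e1 : 0 ≤ (y - x) * ((L - u) ^ 2 + v - C) := mul_nonneg (by linarith) (by linarith)
  have e2 : (y - L) * ((x - u) ^ 2 + v - C) ≤ 0 :=
    mul_nonpos_of_nonneg_of_nonpos (by linarith) (by linarith)
  have e3 : (L - x) * ((y - u) ^ 2 + v - C) < 0 :=
    mul_neg_of_pos_of_neg (by linarith) (by linarith)
  have e4 : 0 ≤ (y - x) * (L - x) * (y - L) :=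
    mul_nonneg (mul_nonneg (by linarith) (by linarith)) (by linarith)
  linarith

section

variable {ρ : ℝ} {K : ℝ → ℝ → ℝ → ℝ} {k : ℝ → ℝ}

/-- the data carried along the walk; `T` is the isometry putting `p` at `0` -/
structure Good (ρ : ℝ) (K : ℝ → ℝ → ℝ → ℝ) (k : ℝ → ℝ) (S : Finset ℂ) (G : SimpleGraph ℂ)
    (T : ℂ → ℂ) (p : ℂ) (L : ℝ) (a b : ℂ) : Prop where
  haS : a ∈ S
  hbS : b ∈ S
  adj : G.Adj a b
  ha : 0 < (T a).im
  hb : (T b).im < 0
  hx : 0 < x0 (T a) (T b)
  hL : x0 (T a) (T b) < L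
  ex : ∃ (z : ℂ) (R m β Fa Fb : ℝ), Cfg (T a) (T b) z m β R ∧ (∀ s ∈ S, R ≤ dist (T s) z) ∧
    Reach G p a Fa ∧ Reach G p b Fb ∧ |Fa - Fb| ≤ dist a b ∧ Gval ρ K k z R m β Fa Fb ≤ 0

lemma good_step (hP : Potential ρ K k) {S : Finset ℂ} (hF : IsFlow S G) {T : ℂ → ℂ} {p q : ℂ}
    {L : ℝ} (hTd : ∀ a b, dist (T a) (T b) = dist a b)
    (hTc : ∀ a b c d, cross (T a - T b) (T c - T d) = cross (a - b) (c - d))
    (hTq : T q = L) (hq : q ∈ S)
    (hseg : ∀ s ∈ S, ¬ ((T s).im = 0 ∧ 0 < (T s).re ∧ (T s).re < L))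
    {a b : ℂ} (h : Good ρ K k S G T p L a b) :
    Reach G p q (ρ * L) ∨ ∃ a' b', Good ρ K k S G T p L a' b' ∧
      x0 (T a) (T b) < x0 (T a') (T b') := by
  obtain ⟨haS, hbS, hadj, ha, hb, hx, hL, z, R, m, β, Fa, Fb, hcfg, hemp, hFa, hFb, hFF, hG⟩ := h
  have hTim : (T q).im = 0 := by rw [hTq]; simp
  have hTre : (T q).re = L := by rw [hTq]; simp
  have hqf : 0 < cross (q - b) (a - b) := by
    rw [← hTc, cross_real _ _ _ hTim (by linarith), hTre]
    exact mul_pos (by linarith) (by linarith)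
  obtain ⟨c, hcS, hcf, hac, hbc, z₁, hz1, hz2, hz3⟩ := hF.next a haS b hbS q hq hadj hqf
  have hne : a ≠ b := hadj.ne
  obtain ⟨R', hR'⟩ : ∃ R', R' = dist a z₁ := ⟨_, rfl⟩
  have hR'pos : 0 < R' := by
    rw [hR']
    rcases (dist_nonneg (x := a) (y := z₁)).lt_or_eq with h | h
    · exact h
    · exfalso
      have h1 : a = z₁ := dist_eq_zero.1 h.symm
      have h2 : b = z₁ := dist_eq_zero.1 (by rw [hz1, ← h])
      exact hne (h1.trans h2.symm)
  -- new circle
  obtain ⟨z', hz'⟩ : ∃ z', z' = T z₁ := ⟨_, rfl⟩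
  have hda : dist (T a) z' = R' := by rw [hz', hTd, hR']
  have hdb : dist (T b) z' = R' := by rw [hz', hTd, hR', hz1]
  have hdc : dist (T c) z' = R' := by rw [hz', hTd, hR', hz2]
  have hemp' : ∀ s ∈ S, R' ≤ dist (T s) z' := by
    intro s hs; rw [hz', hTd, hR']; exact hz3 s hs
  obtain ⟨m', β', hcfg'⟩ := exists_cfg hR'pos (by linarith) hda hdb
  obtain rfl : m = m' := hcfg.eq_m hcfg'
  have hcf' : 0 < cross (T c - T b) (T a - T b) := by rw [hTc]; exact hcf
  have hββ := hcfg.β_le hcfg' hcf' (hemp c hcS) hdc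
  have hG' := (stepR hP hcfg hcfg' hββ ha.le hb.le (by rw [hTd]; exact hFF)).trans hG
  have hd1 : ((T a).re - z'.re) ^ 2 + ((T a).im - z'.im) ^ 2 = R' ^ 2 := by rw [← dist_sq, hda]
  have hd2 : ((T b).re - z'.re) ^ 2 + ((T b).im - z'.im) ^ 2 = R' ^ 2 := by rw [← dist_sq, hdb]
  have hd3 : ((T c).re - z'.re) ^ 2 + ((T c).im - z'.im) ^ 2 = R' ^ 2 := by rw [← dist_sq, hdc]
  have hx0 := x0_mem ha hb hd1 hd2
  have hLq : R' ^ 2 ≤ (L - z'.re) ^ 2 + z'.im ^ 2 := by
    have := le_dist_sq hR'pos.le (hemp' q hq)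
    rw [hTim, hTre] at this; linarith
  -- the length to c
  obtain ⟨F', hF'⟩ : ∃ F', F' = min (Fa + dist a c) (Fb + dist b c) := ⟨_, rfl⟩
  have hRc : Reach G p c F' := by
    rw [hF']
    rcases min_choice (Fa + dist a c) (Fb + dist b c) with h | h <;> rw [h]
    · exact hFa.step hac
    · exact hFb.step hbc
  have hle1 : F' ≤ Fa + dist a c := by rw [hF']; exact min_le_left _ _
  have hle2 : F' ≤ Fb + dist b c := by rw [hF']; exact min_le_right _ _
  have hFF' := abs_le.1 hFF
  have hge : Fb ≤ F' + dist b c ∧ Fa ≤ F' + dist a c := by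
    have t1 := dist_triangle a c b
    have t2 := dist_triangle b c a
    rw [dist_comm c b] at t1; rw [dist_comm b a, dist_comm c a] at t2
    have t3 := dist_nonneg (x := a) (y := c)
    have t4 := dist_nonneg (x := b) (y := c)
    rw [hF']
    rcases min_choice (Fa + dist a c) (Fb + dist b c) with h | h <;> rw [h] <;>
      constructor <;> linarith
  rcases lt_trichotomy (T c).im 0 with hc | hc | hc
  · -- c below
    right
    refine ⟨a, c, ?_, x0_lt_B ha hb hc hcf'⟩
    have hxx := x0_lt_B ha hb hc hcf'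
    obtain ⟨m₂, β₂, hcfg₂⟩ := exists_cfg (a := T a) (b := T c) hR'pos (by linarith) hda hdc
    refine ⟨haS, hcS, hac, ha, hc, by linarith,
      quad_lt hxx hx0 (x0_mem ha hc hd1 hd3) hLq hL, z', R', m₂, β₂, Fa, F', hcfg₂, hemp', hFa,
      hRc, ?_, ?_⟩
    · rw [abs_le]; constructor <;> linarith [hge.2]
    · refine (stepB hP hcfg' hcfg₂ hcf' ha.le hb.le hc.le ?_).trans hG'
      rw [hTd]; exact hle2
  · -- c on the axis
    left
    have hfr : x0 (T a) (T b) < (T c).re := by
      rw [cross_real _ _ _ hc (by linarith)] at hcf'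
      have := (pos_iff_pos_of_mul_pos hcf').2 (by linarith)
      linarith
    have hceq : (T c).re = L := by
      rcases lt_trichotomy (T c).re L with h | h | h
      · exact absurd ⟨hc, by linarith, h⟩ (hseg c hcS)
      · exact h
      · exfalso
        rw [hc] at hd3
        -- L lies strictly between x0 and c
        have key : ((T c).re - x0 (T a) (T b)) * ((L - z'.re) ^ 2 + z'.im ^ 2 - R' ^ 2)
            = ((T c).re - L) * ((x0 (T a) (T b) - z'.re) ^ 2 + z'.im ^ 2 - R' ^ 2)
            + (L - x0 (T a) (T b)) * (((T c).re - z'.re) ^ 2 + (0 - z'.im) ^ 2 - R' ^ 2)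
            - ((T c).re - x0 (T a) (T b)) * (L - x0 (T a) (T b)) * ((T c).re - L) := by ring
        rw [hd3] at key
        have e1 : 0 ≤ ((T c).re - x0 (T a) (T b)) * ((L - z'.re) ^ 2 + z'.im ^ 2 - R' ^ 2) :=
          mul_nonneg (by linarith) (by linarith)
        have e2 : ((T c).re - L) * ((x0 (T a) (T b) - z'.re) ^ 2 + z'.im ^ 2 - R' ^ 2) < 0 :=
          mul_neg_of_pos_of_neg (by linarith) (by linarith)
        have e4 : 0 ≤ ((T c).re - x0 (T a) (T b)) * (L - x0 (T a) (T b)) * ((T c).re - L) :=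
          mul_nonneg (mul_nonneg (by linarith) (by linarith)) (by linarith)
        linarith
    have hTcq : T c = T q := by
      apply Complex.ext
      · rw [hceq, hTre]
      · rw [hc, hTim]
    have hcq : c = q := by
      have := hTd c q
      rw [hTcq, dist_self] at this
      exact dist_eq_zero.1 this.symm
    subst hcq
    have hzre : z'.re ≤ (T c).re := by
      rw [hceq]
      by_contra hneg
      push Not at hneg
      nlinarith
    have := final_le hP hTim hcfg' ha hb hdc hzre hcf' hG'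
    rw [hTd, hTd, ← hF', hTre] at this
    exact hRc.mono this
  · -- c above
    right
    refine ⟨c, b, ?_, x0_lt_A ha hb hc hcf'⟩
    have hxx := x0_lt_A ha hb hc hcf'
    obtain ⟨m₂, β₂, hcfg₂⟩ := exists_cfg (a := T c) (b := T b) hR'pos (by linarith) hdc hdb
    refine ⟨hcS, hbS, hbc.symm, hc, hb, by linarith,
      quad_lt hxx hx0 (x0_mem hc hb hd3 hd2) hLq hL, z', R', m₂, β₂, F', Fb, hcfg₂, hemp', hRc,
      hFb, ?_, ?_⟩
    · rw [abs_le, dist_comm c b]; constructor <;> linarith [hge.1]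
    · refine (stepA hP hcfg' hcfg₂ hcf' ha.le hb.le hc.le ?_).trans hG'
      rw [hTd]; exact hle1

lemma good_start (hP : Potential ρ K k) {S : Finset ℂ} {T : ℂ → ℂ} {p q a b z : ℂ}
    {L : ℝ} (hL : 0 < L) (hTd : ∀ a b, dist (T a) (T b) = dist a b)
    (hTc : ∀ a b c d, cross (T a - T b) (T c - T d) = cross (a - b) (c - d))
    (hTq : T q = L) (hTp : T p = 0) (hq : q ∈ S) (haS : a ∈ S) (hbS : b ∈ S)
    (hpa : G.Adj p a) (hpb : G.Adj p b) (hab : G.Adj a b)
    (h1 : 0 < cross (q - p) (a - p)) (h2 : cross (q - p) (b - p) < 0)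
    (h3 : cross (a - p) (b - p) < 0) (h4 : dist a z = dist p z) (h5 : dist b z = dist p z)
    (h6 : ∀ s ∈ S, dist p z ≤ dist s z) : Good ρ K k S G T p L a b := by
  rw [← hTc, hTq, hTp, cross] at h1 h2
  rw [← hTc, hTp, cross] at h3
  simp at h1 h2 h3
  have ha : 0 < (T a).im := (pos_iff_pos_of_mul_pos h1).1 hL
  have hb : (T b).im < 0 := by
    by_contra hneg
    push Not at hneg
    have := mul_nonneg hL.le hneg
    linarith
  have hx : 0 < x0 (T a) (T b) := by
    unfold x0
    apply div_pos <;> linarith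
  obtain ⟨R, hR⟩ : ∃ R, R = dist p z := ⟨_, rfl⟩
  have hRpos : 0 < R := by
    rw [hR]
    rcases (dist_nonneg (x := p) (y := z)).lt_or_eq with h | h
    · exact h
    · exfalso
      have h7 : p = z := dist_eq_zero.1 h.symm
      have h8 : a = z := dist_eq_zero.1 (by rw [h4, ← h])
      exact hpa.ne (h7.trans h8.symm)
  have hda : dist (T a) (T z) = R := by rw [hTd, hR, h4]
  have hdb : dist (T b) (T z) = R := by rw [hTd, hR, h5]
  have hdp : dist 0 (T z) = R := by rw [← hTp, hTd, hR]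
  have hdq : R ≤ dist (T q) (T z) := by rw [hTd, hR]; exact h6 q hq
  obtain ⟨m, β, hcfg⟩ := exists_cfg hRpos (by linarith) hda hdb
  have hd1 : ((T a).re - (T z).re) ^ 2 + ((T a).im - (T z).im) ^ 2 = R ^ 2 := by
    rw [← dist_sq, hda]
  have hd2 : ((T b).re - (T z).re) ^ 2 + ((T b).im - (T z).im) ^ 2 = R ^ 2 := by
    rw [← dist_sq, hdb]
  have hx0 := x0_mem ha hb hd1 hd2
  have hd0 : (T z).re ^ 2 + (T z).im ^ 2 = R ^ 2 := by
    have := dist_sq 0 (T z)
    rw [hdp] at this; simp at this; linarith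
  have hzre : 0 ≤ (T z).re := by
    by_contra hneg
    push Not at hneg
    nlinarith
  have hLq : R ^ 2 ≤ (L - (T z).re) ^ 2 + (T z).im ^ 2 := by
    have := le_dist_sq hRpos.le hdq
    rw [hTq] at this; simp at this; linarith
  have hxL : x0 (T a) (T b) < L := by
    have e1 : x0 (T a) (T b) * (x0 (T a) (T b) - 2 * (T z).re) < 0 := by nlinarith
    have e2 : x0 (T a) (T b) - 2 * (T z).re < 0 := by
      by_contra hneg
      push Not at hneg
      have := mul_nonneg hx.le hneg
      linarith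
    have e3 : 0 ≤ L * (L - 2 * (T z).re) := by nlinarith
    have e4 : 0 ≤ L - 2 * (T z).re := by
      by_contra hneg
      push Not at hneg
      have := mul_neg_of_pos_of_neg hL hneg
      linarith
    linarith
  refine ⟨haS, hbS, hab, ha, hb, hx, hxL, T z, R, m, β, dist p a, dist p b, hcfg, ?_,
    Reach.adj hpa, Reach.adj hpb, ?_, ?_⟩
  · intro s hs; rw [hTd, hR]; exact h6 s hs
  · have t1 := dist_triangle p a b
    have t2 := dist_triangle p b a
    rw [dist_comm b a] at t2
    rw [abs_le]; constructor <;> linarith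
  · have := start_le hP hcfg ha hb hdp hzre
    rwa [← hTp, hTd, hTd] at this

/-- the isometry -/
lemma exists_T {p q : ℂ} (hpq : p ≠ q) : ∃ T : ℂ → ℂ, (∀ a b, dist (T a) (T b) = dist a b) ∧
    (∀ a b c d, cross (T a - T b) (T c - T d) = cross (a - b) (c - d)) ∧
    T q = ((dist p q : ℝ) : ℂ) ∧ T p = 0 ∧
    (∀ s, (T s).im = 0 ∧ 0 < (T s).re ∧ (T s).re < dist p q → s ∈ openSegment ℝ p q) := by
  have hL : 0 < dist p q := dist_pos.2 hpq
  obtain ⟨L, hLd⟩ : ∃ L, L = dist p q := ⟨_, rfl⟩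
  rw [← hLd] at hL ⊢
  obtain ⟨u, hu⟩ : ∃ u : ℂ, u = (starRingEnd ℂ) (q - p) / (L : ℂ) := ⟨_, rfl⟩
  have hLc : (L : ℂ) ≠ 0 := by exact_mod_cast hL.ne'
  have hnorm : ‖q - p‖ = L := by rw [hLd, dist_comm, Complex.dist_eq]
  have hconj : (q - p) * (starRingEnd ℂ) (q - p) = (L : ℂ) ^ 2 := by
    rw [Complex.mul_conj, Complex.normSq_eq_norm_sq, hnorm]; push_cast; rfl
  have hu1 : ‖u‖ = 1 := by
    rw [hu, norm_div, Complex.norm_conj, hnorm, Complex.norm_real, Real.norm_eq_abs,
      abs_of_pos hL, div_self hL.ne']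
  have huu : u.re ^ 2 + u.im ^ 2 = 1 := by
    have := Complex.sq_norm u
    rw [hu1, Complex.normSq_apply] at this
    nlinarith
  refine ⟨fun s => (s - p) * u, ?_, ?_, ?_, ?_, ?_⟩
  · intro a b
    rw [Complex.dist_eq, Complex.dist_eq, ← sub_mul, norm_mul, hu1, mul_one]
    congr 1; ring
  · intro a b c d
    simp only [cross, Complex.sub_re, Complex.sub_im, Complex.mul_re, Complex.mul_im]
    linear_combination ((a.re - b.re) * (c.im - d.im) - (a.im - b.im) * (c.re - d.re)) * huu
  · show (q - p) * u = (L : ℂ)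
    rw [hu, mul_div_assoc', hconj]
    field_simp
  · simp
  · rintro s ⟨h1, h2, h3⟩
    have hs : (s - p) * u = (((s - p) * u).re : ℂ) := by
      apply Complex.ext
      · simp
      · simpa using h1
    have h4 : s - p = ((((s - p) * u).re / L : ℝ) : ℂ) * (q - p) := by
      have hu0 : u ≠ 0 := by
        intro h0; rw [h0] at hu1; simp at hu1
      have h5 : (s - p) * u = ((((s - p) * u).re / L : ℝ) : ℂ) * (q - p) * u := by
        have h6 : (q - p) * u = (L : ℂ) := by rw [hu, mul_div_assoc', hconj]; field_simp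
        rw [mul_assoc, h6, hs]
        simp only [Complex.ofReal_re]
        push_cast
        field_simp
      exact mul_right_cancel₀ hu0 h5
    obtain ⟨t, ht⟩ : ∃ t, t = ((s - p) * u).re := ⟨_, rfl⟩
    rw [← ht] at h4
    have h2' : 0 < t := by rw [ht]; exact h2
    have h3' : t < L := by rw [ht]; exact h3
    refine ⟨1 - t / L, t / L, ?_, by positivity, by ring, ?_⟩
    · rw [sub_pos, div_lt_one hL]; exact h3'
    · have : s = p + (((t / L : ℝ)) : ℂ) * (q - p) := by rw [← h4]; ring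
      rw [this, Complex.real_smul, Complex.real_smul]; push_cast; ring

lemma flow_bound_aux (hP : Potential ρ K k) {S : Finset ℂ} (hF : IsFlow S G) {p q : ℂ}
    (hp : p ∈ S) (hq : q ∈ S) (hpq : p ≠ q) (hseg : ∀ s ∈ S, s ∉ openSegment ℝ p q) :
    Reach G p q (ρ * dist p q) := by
  classical
  have hL : 0 < dist p q := dist_pos.2 hpq
  obtain ⟨T, hTd, hTc, hTq, hTp, hTs⟩ := exists_T hpq
  rcases hF.start p hp q hq hpq hseg with h | ⟨a, haS, b, hbS, z, hpa, hpb, hab, h1, h2, h3, h4, h5, h6⟩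
  · refine (Reach.adj h).mono ?_
    have := hP.one_le
    nlinarith
  · have hgood := good_start hP hL hTd hTc hTq hTp hq haS hbS hpa hpb hab h1 h2 h3 h4 h5 h6
    by_contra hno
    -- maximal good pair
    let A : Finset (ℂ × ℂ) := (S ×ˢ S).filter fun e => Good ρ K k S G T p (dist p q) e.1 e.2
    have hA : A.Nonempty := ⟨(a, b), by simp [A, haS, hbS, hgood]⟩
    obtain ⟨e, heA, hmax⟩ := A.exists_max_image (fun e => x0 (T e.1) (T e.2)) hA
    have he : Good ρ K k S G T p (dist p q) e.1 e.2 := (Finset.mem_filter.1 heA).2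
    rcases good_step hP hF hTd hTc hTq hq (fun s hs h => hseg s hs (hTs s h)) he with h | ⟨a', b', hg, hlt⟩
    · exact hno h
    · have : (a', b') ∈ A := by simp [A, hg.haS, hg.hbS, hg]
      have := hmax _ this
      exact absurd hlt (not_lt.2 this)

theorem flow_bound (hP : Potential ρ K k) {S : Finset ℂ} (hF : IsFlow S G) {p q : ℂ}
    (hp : p ∈ S) (hq : q ∈ S) : Reach G p q (ρ * dist p q) := by
  classical
  obtain ⟨n, hn⟩ : ∃ n, n = (S.filter fun s => s ∈ openSegment ℝ p q).card := ⟨_, rfl⟩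
  induction n using Nat.strong_induction_on generalizing p q with
  | _ n ih =>
    by_cases hpq : p = q
    · subst hpq
      exact ⟨SimpleGraph.Walk.nil, by rw [walkLength_nil, dist_self, mul_zero]⟩
    by_cases hs : ∀ s ∈ S, s ∉ openSegment ℝ p q
    · exact flow_bound_aux hP hF hp hq hpq hs
    · push Not at hs
      obtain ⟨s, hsS, hs⟩ := hs
      obtain ⟨u, v, hu, hv, huv, rfl⟩ := hs
      obtain ⟨s, hsd⟩ : ∃ s, s = u • p + v • q := ⟨_, rfl⟩
      rw [← hsd] at hsS
      have hs : s ∈ openSegment ℝ p q := ⟨u, v, hu, hv, huv, hsd.symm⟩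
      have hsub1 : openSegment ℝ p s ⊆ openSegment ℝ p q := by
        rintro x ⟨c, d, hc, hd, hcd, rfl⟩
        refine ⟨c + d * u, d * v, by positivity, by positivity, ?_, ?_⟩
        · rw [add_assoc, ← mul_add, huv, mul_one, hcd]
        · rw [hsd, smul_add, smul_smul, smul_smul, add_smul, add_assoc]
      have hsub2 : openSegment ℝ s q ⊆ openSegment ℝ p q := by
        rintro x ⟨c, d, hc, hd, hcd, rfl⟩
        refine ⟨c * u, c * v + d, by positivity, by positivity, ?_, ?_⟩
        · rw [← add_assoc, ← mul_add, huv, mul_one, hcd]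
        · rw [hsd, smul_add, smul_smul, smul_smul, add_smul, add_assoc]
      have hps : p ≠ s := by
        rintro rfl
        exact hpq (left_mem_openSegment_iff.1 hs)
      have hsq : s ≠ q := by
        rintro rfl
        exact hpq (right_mem_openSegment_iff.1 hs)
      have hc1 : (S.filter fun x => x ∈ openSegment ℝ p s).card < n := by
        rw [hn]
        apply Finset.card_lt_card
        rw [Finset.ssubset_iff_of_subset
          (Finset.monotone_filter_right S (fun x _ hx => hsub1 hx))]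
        refine ⟨s, Finset.mem_filter.2 ⟨hsS, hs⟩, ?_⟩
        intro h
        exact hps (right_mem_openSegment_iff.1 (Finset.mem_filter.1 h).2)
      have hc2 : (S.filter fun x => x ∈ openSegment ℝ s q).card < n := by
        rw [hn]
        apply Finset.card_lt_card
        rw [Finset.ssubset_iff_of_subset
          (Finset.monotone_filter_right S (fun x _ hx => hsub2 hx))]
        refine ⟨s, Finset.mem_filter.2 ⟨hsS, hs⟩, ?_⟩
        intro h
        exact hsq (left_mem_openSegment_iff.1 (Finset.mem_filter.1 h).2)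
      have h1 := ih _ hc1 hp hsS rfl
      have h2 := ih _ hc2 hsS hq rfl
      have h3 : dist p s + dist s q = dist p q :=
        dist_add_dist_of_mem_segment (openSegment_subset_segment ℝ p q hs)
      refine (h1.trans h2).mono ?_
      rw [← h3]; ring_nf; exact le_refl _

end

end MP_74021c_co
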