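import Pool.Agent.Work.DelaunayStretch.Taylor
import Pool.Agent.Work.DelaunayStretch.Check

namespace MP_74021c_co

open Real

/-- the grid angles -/
noncomputable def ang (i : ℕ) : ℝ := if i ≤ 50 then (i : ℝ) / 32 else π / 2

lemma ang_le {i : ℕ} (h : i ≤ 50) : ang i = i / 32 := if_pos h

lemma ang_gt {i : ℕ} (h : 50 < i) : ang i = π / 2 := if_neg (by omega)

lemma ang_nonneg (i : ℕ) : 0 ≤ ang i := by
  unfold ang; split_ifs <;> positivity

lemma pi_half_gt : (50 : ℝ) / 32 < π / 2 := by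
  have := pi_gt_d20; linarith

lemma ang_le_pi (i : ℕ) : ang i ≤ π / 2 := by
  unfold ang; split_ifs with h
  · have : (i : ℝ) ≤ 50 := by exact_mod_cast h
    have := pi_half_gt; linarith
  · exact le_rfl

lemma ang_mono {i j : ℕ} (h : i ≤ j) : ang i ≤ ang j := by
  by_cases hj : j ≤ 50
  · rw [ang_le hj, ang_le (h.trans hj)]
    have : (i : ℝ) ≤ j := by exact_mod_cast h
    linarith
  · rw [ang_gt (i := j) (by omega)]; exact ang_le_pi i

lemma ang_step (i : ℕ) : ang (i + 1) - ang i ≤ 1 / 32 := by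
  by_cases h : i + 1 ≤ 50
  · rw [ang_le h, ang_le (by omega)]; push_cast; linarith
  · by_cases h2 : i ≤ 50
    · have : i = 50 := by omega
      subst this
      rw [ang_gt (by omega), ang_le le_rfl]
      have := pi_lt_d20; push_cast; linarith
    · rw [ang_gt (by omega), ang_gt (by omega)]; norm_num

lemma exists_cell {β : ℝ} (h0 : 0 ≤ β) (h1 : β ≤ π / 2) :
    ∃ i, i < 51 ∧ ang i ≤ β ∧ β ≤ ang (i + 1) := by
  by_cases h : 50 / 32 ≤ β
  · refine ⟨50, by omega, ?_, ?_⟩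
    · rw [ang_le le_rfl]; push_cast; exact h
    · rw [ang_gt (by omega)]; exact h1
  · push Not at h
    obtain ⟨n, hn⟩ : ∃ n, n = ⌊32 * β⌋₊ := ⟨_, rfl⟩
    have e1 : (n : ℝ) ≤ 32 * β := by rw [hn]; exact Nat.floor_le (by positivity)
    have e2 : 32 * β < n + 1 := by rw [hn]; exact Nat.lt_floor_add_one _
    have e3 : n < 50 := by
      have : (n : ℝ) < 50 := by linarith
      exact_mod_cast this
    refine ⟨n, by omega, ?_, ?_⟩
    · rw [ang_le (by omega)]; linarith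
    · rw [ang_le (by omega)]; push_cast; linarith

/-- the numerical data of a node are correct -/
structure Enc (n : ND) (i : ℕ) : Prop where
  bL : (n.bL : ℝ) ≤ 10 ^ 9 * ang i
  bU : 10 ^ 9 * ang i ≤ (n.bU : ℝ)
  sL : (n.sL : ℝ) ≤ 10 ^ 9 * sin (ang i)
  sU : 10 ^ 9 * sin (ang i) ≤ (n.sU : ℝ)
  cL : (n.cL : ℝ) ≤ 10 ^ 9 * cos (ang i)
  cU : 10 ^ 9 * cos (ang i) ≤ (n.cU : ℝ)
  bN : 10 ^ 9 * ang (i + 1) ≤ (n.bN : ℝ)
  cP : 10 ^ 9 * cos (ang (i - 1)) ≤ (n.cP : ℝ)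
  bP : (n.bP : ℝ) ≤ 10 ^ 9 * ang (i - 1)

def tsQ (x : ℚ) : ℚ := x - x ^ 3 / 6 + x ^ 5 / 120 - x ^ 7 / 5040 + x ^ 9 / 362880
  - x ^ 11 / 39916800 + x ^ 13 / 6227020800 - x ^ 15 / 1307674368000 + x ^ 17 / 355687428096000

def tcQ (x : ℚ) : ℚ := 1 - x ^ 2 / 2 + x ^ 4 / 24 - x ^ 6 / 720 + x ^ 8 / 40320
  - x ^ 10 / 3628800 + x ^ 12 / 479001600 - x ^ 14 / 87178291200 + x ^ 16 / 20922789888000

def okN (i : ℕ) (n : ND) : Prop :=
  n.bL = 31250000 * i ∧ n.bU = 31250000 * i ∧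
  (n.sL : ℚ) / 10 ^ 9 + 1 / 10 ^ 12 ≤ tsQ (i / 32) ∧ tsQ (i / 32) + 1 / 10 ^ 12 ≤ (n.sU : ℚ) / 10 ^ 9 ∧
  (n.cL : ℚ) / 10 ^ 9 + 1 / 10 ^ 12 ≤ tcQ (i / 32) ∧ tcQ (i / 32) + 1 / 10 ^ 12 ≤ (n.cU : ℚ) / 10 ^ 9

instance (i : ℕ) (n : ND) : Decidable (okN i n) := by unfold okN; infer_instance

def nd (i : ℕ) : ND := nodes.getD i default

theorem okN_all : ∀ i < 50, okN (i + 1) (nd (i + 1)) := by decide +kernel

theorem adj_all : ∀ i < 52, (nd i).bN = (nd (min (i + 1) 51)).bU ∧ (nd i).cP = (nd (i - 1)).cU ∧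
    (nd i).bP = (nd (i - 1)).bL := by decide +kernel

structure Enc0 (n : ND) (i : ℕ) : Prop where
  bL : (n.bL : ℝ) ≤ 10 ^ 9 * ang i
  bU : 10 ^ 9 * ang i ≤ (n.bU : ℝ)
  sL : (n.sL : ℝ) ≤ 10 ^ 9 * sin (ang i)
  sU : 10 ^ 9 * sin (ang i) ≤ (n.sU : ℝ)
  cL : (n.cL : ℝ) ≤ 10 ^ 9 * cos (ang i)
  cU : 10 ^ 9 * cos (ang i) ≤ (n.cU : ℝ)

lemma tsQ_cast (x : ℚ) : ((tsQ x : ℚ) : ℝ) = ts x := by
  simp only [tsQ, ts]; push_cast; ring

lemma tcQ_cast (x : ℚ) : ((tcQ x : ℚ) : ℝ) = tc x := by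
  simp only [tcQ, tc]; push_cast; ring

lemma enc0 (i : ℕ) (hi : i < 52) : Enc0 (nd i) i := by
  rcases Nat.eq_zero_or_pos i with h0 | h0
  · subst h0
    have ha : ang 0 = 0 := by rw [ang_le (by omega)]; simp
    constructor <;> rw [ha] <;> norm_num [nd, nodes]
  · by_cases h1 : i ≤ 50
    · obtain ⟨j, rfl⟩ : ∃ j, i = j + 1 := ⟨i - 1, by omega⟩
      obtain ⟨h1', h2, h3, h4, h5, h6⟩ := okN_all j (by omega)
      have ha : ang (j + 1) = (((j + 1 : ℕ) : ℚ) / 32 : ℚ) := by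
        rw [ang_le h1]; push_cast; ring
      have hx0 : (0 : ℝ) ≤ (((j + 1 : ℕ) : ℚ) / 32 : ℚ) := by rw [← ha]; exact ang_nonneg _
      have hx1 : ((((j + 1 : ℕ) : ℚ) / 32 : ℚ) : ℝ) ≤ 25 / 16 := by
        rw [← ha, ang_le h1]
        have : ((j + 1 : ℕ) : ℝ) ≤ 50 := by exact_mod_cast h1
        linarith
      obtain ⟨e1, e2⟩ := taylor_err _ hx0 hx1
      rw [← tsQ_cast] at e1
      rw [← tcQ_cast] at e2
      have e1' := abs_le.1 e1
      have e2' := abs_le.1 e2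
      have h3' : (((nd (j + 1)).sL : ℝ)) / 10 ^ 9 + 1 / 10 ^ 12 ≤ ((tsQ (((j + 1 : ℕ) : ℚ) / 32) : ℚ) : ℝ) := by
        have := (Rat.cast_le (K := ℝ)).2 h3
        simpa using this
      have h4' : ((tsQ (((j + 1 : ℕ) : ℚ) / 32) : ℚ) : ℝ) + 1 / 10 ^ 12 ≤ (((nd (j + 1)).sU : ℝ)) / 10 ^ 9 := by
        have := (Rat.cast_le (K := ℝ)).2 h4
        simpa using this
      have h5' : (((nd (j + 1)).cL : ℝ)) / 10 ^ 9 + 1 / 10 ^ 12 ≤ ((tcQ (((j + 1 : ℕ) : ℚ) / 32) : ℚ) : ℝ) := by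
        have := (Rat.cast_le (K := ℝ)).2 h5
        simpa using this
      have h6' : ((tcQ (((j + 1 : ℕ) : ℚ) / 32) : ℚ) : ℝ) + 1 / 10 ^ 12 ≤ (((nd (j + 1)).cU : ℝ)) / 10 ^ 9 := by
        have := (Rat.cast_le (K := ℝ)).2 h6
        simpa using this
      constructor
      · rw [h1', ang_le h1]; push_cast; linarith
      · rw [h2, ang_le h1]; push_cast; linarith
      · rw [ha]; linarith
      · rw [ha]; linarith
      · rw [ha]; linarith
      · rw [ha]; linarith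
    · have : i = 51 := by omega
      subst this
      have ha : ang 51 = π / 2 := ang_gt (by omega)
      have p1 := pi_gt_d20
      have p2 := pi_lt_d20
      constructor <;> rw [ha] <;> norm_num [nd, nodes] <;> linarith

lemma enc (i : ℕ) (hi : i < 52) : Enc (nd i) i := by
  have h := enc0 i hi
  obtain ⟨h1, h2, h3⟩ := adj_all i hi
  refine ⟨h.bL, h.bU, h.sL, h.sU, h.cL, h.cU, ?_, ?_, ?_⟩
  · rw [h1]
    have := (enc0 (min (i + 1) 51) (by omega)).bU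
    by_cases hi' : i + 1 ≤ 51
    · rwa [min_eq_left hi'] at this ⊢
    · have : i = 51 := by omega
      subst this
      rw [show ang (51 + 1) = ang 51 by rw [ang_gt (by omega), ang_gt (by omega)]]
      simpa using this
  · rw [h2]; exact (enc0 (i - 1) (by omega)).cU
  · rw [h3]; exact (enc0 (i - 1) (by omega)).bL

end MP_74021c_co
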