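import Pool.Agent.Work.DelaunayStretch.Spline

namespace MP_74021c_co

open Real

/-- the function whose sign decides the monotonicity along the pencil of circles -/
noncomputable def fR (s β m e : ℝ) : ℝ :=
  Sf s * (cos β + β * sin β) + (sin m - s * sin β) * (S1f s * β + 2 * e * κf s * cos β)
    - 1.615 * cos m - 1.5664 * m * sin m

lemma fR_symm1 (s β m e : ℝ) : fR s (-β) (-m) (-e) = fR s β m e := by
  unfold fR; simp only [cos_neg, sin_neg]; ring

lemma fR_symm2 (s β m e : ℝ) : fR (-s) β (-m) (-e) = fR s β m e := by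
  unfold fR; simp only [cos_neg, sin_neg, Sf_neg, S1f_neg, κf_neg]; ring

theorem cps_even : ∀ l < 11, cps.getD (2 * l) default = ⟨AT.getD l 0, 2 * l * aT.getD l 0,
    2 * l * bT.getD l 0, 20 * aT.getD l 0, 20 * bT.getD l 0⟩ := by
  intro l hl
  interval_cases l <;> rfl

theorem cps_odd : ∀ l < 10, cps.getD (2 * l + 1) default = ⟨AT.getD l 0 + aT.getD l 0,
    l * aT.getD (l + 1) 0 + (l + 1) * aT.getD l 0, l * bT.getD (l + 1) 0 + (l + 1) * bT.getD l 0,
    10 * (aT.getD l 0 + aT.getD (l + 1) 0), 10 * (bT.getD l 0 + bT.getD (l + 1) 0)⟩ := by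
  intro l hl
  interval_cases l <;> rfl

lemma cps_length : cps.length = 21 := by decide +kernel

lemma cps_mem {c : ℕ} (hc : c < 19) : cps.getD c default ∈ cps.take 19 := by
  have h1 : c < (cps.take 19).length := by
    rw [List.length_take, cps_length]; omega
  have h2 : (cps.take 19)[c] = cps.getD c default := by
    rw [List.getD_eq_getElem _ _ (by rw [cps_length]; omega), List.getElem_take]
  rw [← h2]; exact List.getElem_mem _

lemma cps_mem' {c : ℕ} (hc : c < 21) (hc' : 19 ≤ c) : cps.getD c default ∈ cps.drop 19 := by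
  have h1 : c - 19 < (cps.drop 19).length := by
    rw [List.length_drop, cps_length]; omega
  have h2 : (cps.drop 19)[c - 19] = cps.getD c default := by
    rw [List.getD_eq_getElem _ _ (by rw [cps_length]; omega), List.getElem_drop]
    congr 1; omega
  rw [← h2]; exact List.getElem_mem _

/-- the Bernstein form on a piece -/
lemma bern {l : ℕ} (hl : l < 10) {t s : ℝ} (h0 : 0 ≤ t) (h1 : t ≤ 1) (hs : s = (l + t) / 10)
    (β m e : ℝ) : 200000 * fR s β m e
      = (1 - t) ^ 2 * (E0f (cps.getD (2 * l) default) e β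
          + E2f (cps.getD (2 * l) default) e β * sin m - yf m)
      + 2 * (t * (1 - t)) * (E0f (cps.getD (2 * l + 1) default) e β
          + E2f (cps.getD (2 * l + 1) default) e β * sin m - yf m)
      + t ^ 2 * (E0f (cps.getD (2 * (l + 1)) default) e β
          + E2f (cps.getD (2 * (l + 1)) default) e β * sin m - yf m) := by
  obtain ⟨p1, p2, p3, _⟩ := piece hl h0 h1 hs
  rw [cps_even l (by omega), cps_odd l hl, cps_even (l + 1) (by omega)]
  unfold fR E0f E2f yf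
  push_cast
  generalize (AT.getD l 0 : ℝ) = A0 at *
  generalize (AT.getD (l + 1) 0 : ℝ) = A1 at *
  generalize (aT.getD l 0 : ℝ) = a0 at *
  generalize (aT.getD (l + 1) 0 : ℝ) = a1 at *
  generalize (bT.getD l 0 : ℝ) = b0 at *
  generalize (bT.getD (l + 1) 0 : ℝ) = b1 at *
  have q1 : Sf s = (A0 * (1 - t) ^ 2 + 2 * (A0 + a0) * (t * (1 - t)) + A1 * t ^ 2) / 200000 := by
    linarith
  have q2 : S1f s = ((1 - t) * a0 + t * a1) / 10000 := by linarith
  have q3 : κf s = ((1 - t) * b0 + t * b1) / 10000 := by linarith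
  rw [q1, q2, q3, hs]
  ring

/-- the corner -/
lemma corner {v γ μ e : ℝ} (he : e = 1 ∨ e = -1) (hv0 : 0 ≤ v) (hv1 : v ≤ 0.1) (hγ0 : 0 ≤ γ)
    (hγ1 : γ ≤ 0.04) (hμ0 : 0 ≤ μ) (hμ1 : μ ≤ 0.04) :
    (1.5664 - 1.2938 * v + 1.2385 * v ^ 2) * (sin γ + (π / 2 - γ) * cos γ)
      + (cos μ - (1 - v) * cos γ) * ((1.2938 - 2.477 * v) * (π / 2 - γ)
        + 2 * e * (0.1333 + 1.269 * v) * sin γ) - 1.615 * sin μ
      - 1.5664 * (π / 2 - μ) * cos μ ≤ 0 := by
  obtain ⟨p, hp⟩ : ∃ p, p = π / 2 := ⟨_, rfl⟩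
  have hp1 : 1.57 ≤ p := by rw [hp]; have := pi_gt_d6; linarith
  have hp2 : p ≤ 1.571 := by rw [hp]; have := pi_lt_d6; linarith
  rw [← hp]
  obtain ⟨C, hC⟩ : ∃ C, C = 1 - cos γ := ⟨_, rfl⟩
  obtain ⟨M, hM⟩ : ∃ M, M = 1 - cos μ := ⟨_, rfl⟩
  have hC0 : 0 ≤ C := by rw [hC]; linarith [cos_le_one γ]
  have hM0 : 0 ≤ M := by rw [hM]; linarith [cos_le_one μ]
  have hC1 : C ≤ γ ^ 2 / 2 := by rw [hC]; linarith [one_sub_sq_div_two_le_cos (x := γ)]
  have hM1 : M ≤ μ ^ 2 / 2 := by rw [hM]; linarith [one_sub_sq_div_two_le_cos (x := μ)]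
  have hsγ : sin γ ≤ γ := sin_le hγ0
  have hsγ0 : 0 ≤ sin γ := sin_nonneg_of_nonneg_of_le_pi hγ0 (by linarith [pi_gt_three])
  have hsμ : μ - μ ^ 3 / 4 ≤ sin μ := by
    rcases hμ0.eq_or_lt with h | h
    · rw [← h]; simp
    · have h6 := (sin_gt_sub_cube h).le
      have h7 : 0 ≤ μ ^ 3 := by positivity
      linarith
  rw [show cos γ = 1 - C by rw [hC]; ring, show cos μ = 1 - M by rw [hM]; ring]
  obtain ⟨w, hw⟩ : ∃ w, w = v * (1 - C) + C := ⟨_, rfl⟩
  have hC2 : C ≤ 0.0008 := by nlinarith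
  have hw0 : 0 ≤ w := by rw [hw]; nlinarith
  -- pieces of the identity
  have hS1 : 1.5664 - 1.2938 * v + 1.2385 * v ^ 2 ≤ 1.5664 := by nlinarith
  have hS0 : 0 ≤ 1.5664 - 1.2938 * v + 1.2385 * v ^ 2 := by nlinarith
  have hS' : 1.046 ≤ 1.2938 - 2.477 * v := by linarith
  have hκ : 0.1333 + 1.269 * v ≤ 0.2603 := by linarith
  have hκ0 : 0 ≤ 0.1333 + 1.269 * v := by linarith
  have t1 : (1.5664 - 1.2938 * v + 1.2385 * v ^ 2) * (sin γ - γ * (1 - C)) ≤ 1.5664 * (γ * C) := by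
    have : sin γ - γ * (1 - C) ≤ γ * C := by nlinarith
    have h0 : 0 ≤ γ * C := by positivity
    calc _ ≤ (1.5664 - 1.2938 * v + 1.2385 * v ^ 2) * (γ * C) := mul_le_mul_of_nonneg_left this hS0
      _ ≤ _ := mul_le_mul_of_nonneg_right hS1 h0
  have t2 : 0 ≤ p * (2.477 * v * C + (1 - C) * 1.2385 * v ^ 2) := by
    have : 0 ≤ 1 - C := by linarith
    positivity
  have t3 : e * (2 * (0.1333 + 1.269 * v) * sin γ * (w - M))
      ≤ 2 * (0.1333 + 1.269 * v) * γ * (w + M) := by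
    have a1 : |w - M| ≤ w + M := by rw [abs_le]; constructor <;> linarith
    have a2 : 0 ≤ 2 * (0.1333 + 1.269 * v) * sin γ := by positivity
    have a3 : e * (2 * (0.1333 + 1.269 * v) * sin γ * (w - M))
        ≤ 2 * (0.1333 + 1.269 * v) * sin γ * |w - M| := by
      rcases he with rfl | rfl
      · rw [one_mul]; exact mul_le_mul_of_nonneg_left (le_abs_self _) a2
      · have := mul_le_mul_of_nonneg_left (neg_le_abs (w - M)) a2
        linarith
    have a4 : 2 * (0.1333 + 1.269 * v) * sin γ * |w - M|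
        ≤ 2 * (0.1333 + 1.269 * v) * sin γ * (w + M) := mul_le_mul_of_nonneg_left a1 a2
    have a5 : 2 * (0.1333 + 1.269 * v) * sin γ * (w + M)
        ≤ 2 * (0.1333 + 1.269 * v) * γ * (w + M) := by
      apply mul_le_mul_of_nonneg_right _ (by linarith)
      exact mul_le_mul_of_nonneg_left hsγ (by linarith)
    linarith
  have t4 : 2 * (0.1333 + 1.269 * v) * γ * (w + M) ≤ w * (1.2938 - 2.477 * v) * γ + 0.53 * (γ * M) := by
    have b1 : 2 * (0.1333 + 1.269 * v) ≤ 0.53 := by linarith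
    have b2 : 0 ≤ γ * M := by positivity
    have b3 : 0 ≤ γ * w := by positivity
    have b4 := mul_le_mul_of_nonneg_right b1 b2
    have b5 : 2 * (0.1333 + 1.269 * v) * (γ * w) ≤ (1.2938 - 2.477 * v) * (γ * w) :=
      mul_le_mul_of_nonneg_right (by linarith) b3
    linarith
  have t5 : 1.59 * M ≤ M * (1.2938 - 2.477 * v) * (p - γ) := by
    have : 1.59 ≤ (1.2938 - 2.477 * v) * (p - γ) := by nlinarith
    nlinarith
  have t6 : 1.5664 * p * M ≤ 2.461 * M := by nlinarith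
  have t7 : 1.5664 * μ * (1 - M) ≤ 1.5664 * μ := by
    have : 0 ≤ μ * M := by positivity
    linarith
  have t8 : p * (0.2726 * C) ≥ 1.57 * 0.2726 * C := by nlinarith
  have t9 : 1.5664 * (γ * C) ≤ 0.07 * C := by nlinarith
  have t10 : 0.53 * (γ * M) ≤ 0.03 * M := by nlinarith
  have t11 : 1.615 * (μ - μ ^ 3 / 4) ≤ 1.615 * sin μ := by linarith
  have t12 : μ ^ 3 ≤ 0.0016 * μ := by nlinarith
  have t13 : M ≤ 0.02 * μ := by nlinarith
  have key : (1.5664 - 1.2938 * v + 1.2385 * v ^ 2) * (sin γ + (p - γ) * (1 - C))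
      + (1 - M - (1 - v) * (1 - C)) * ((1.2938 - 2.477 * v) * (p - γ)
        + 2 * e * (0.1333 + 1.269 * v) * sin γ) - 1.615 * sin μ
      - 1.5664 * (p - μ) * (1 - M)
      = (1.5664 - 1.2938 * v + 1.2385 * v ^ 2) * (sin γ - γ * (1 - C))
        - p * (0.2726 * C) - p * (2.477 * v * C + (1 - C) * 1.2385 * v ^ 2)
        - w * (1.2938 - 2.477 * v) * γ - M * (1.2938 - 2.477 * v) * (p - γ)
        + e * (2 * (0.1333 + 1.269 * v) * sin γ * (w - M)) - 1.615 * sin μ
        + 1.5664 * p * M + 1.5664 * μ * (1 - M) := by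
    rw [hw]; ring
  rw [key]
  linarith

end MP_74021c_co
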