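import Pool.Agent.Work.DelaunayStretch.GridAll

namespace MP_74021c_co

open Real

/-- positive part of `x - t` -/
noncomputable def pp (t x : ℝ) : ℝ := max (x - t) 0

lemma pp_of_le {t x : ℝ} (h : t ≤ x) : pp t x = x - t := max_eq_left (by linarith)

lemma pp_of_ge {t x : ℝ} (h : x ≤ t) : pp t x = 0 := max_eq_right (by linarith)

lemma hasDerivAt_pp_sq (t x : ℝ) : HasDerivAt (fun x => pp t x ^ 2) (2 * pp t x) x := by
  rcases lt_trichotomy x t with h | h | h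
  · rw [pp_of_ge h.le, mul_zero]
    have : (fun x => pp t x ^ 2) =ᶠ[nhds x] fun _ => 0 := by
      filter_upwards [Iio_mem_nhds h] with y hy
      rw [pp_of_ge (le_of_lt hy)]; simp
    exact (hasDerivAt_const x (0 : ℝ)).congr_of_eventuallyEq this
  · subst h
    rw [pp_of_ge le_rfl, mul_zero]
    rw [hasDerivAt_iff_isLittleO]
    simp only [pp_of_ge (le_refl x), smul_zero, sub_zero]
    have h1 : (fun y : ℝ => pp x y ^ 2 - 0 ^ 2) =O[nhds x] fun y => (y - x) ^ 2 := by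
      apply Asymptotics.IsBigO.of_bound 1
      filter_upwards with y
      rw [one_mul, Real.norm_eq_abs, Real.norm_eq_abs, abs_of_nonneg (sq_nonneg (y - x))]
      rcases le_total x y with h | h
      · rw [pp_of_le h]; simp
      · rw [pp_of_ge h]; simp; positivity
    have h2 : (fun y : ℝ => (y - x) ^ 2) =o[nhds x] fun y => y - x := by
      have h3 : Filter.Tendsto (fun y : ℝ => y - x) (nhds x) (nhds 0) := by
        have : Continuous fun y : ℝ => y - x := by fun_prop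
        simpa using this.tendsto x
      have := (Asymptotics.isLittleO_pow_id (𝕜 := ℝ) (n := 2) (by norm_num)).comp_tendsto h3
      simpa [Function.comp_def] using this
    exact h1.trans_isLittleO h2
  · rw [pp_of_le h.le]
    have : (fun x => pp t x ^ 2) =ᶠ[nhds x] fun y => (y - t) ^ 2 := by
      filter_upwards [Ioi_mem_nhds h] with y hy
      rw [pp_of_le (le_of_lt hy)]
    refine HasDerivAt.congr_of_eventuallyEq ?_ this
    have h1 := ((hasDerivAt_id x).sub_const t).fun_pow 2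
    refine h1.congr_deriv ?_
    simp

lemma hasDerivAt_pp_sq_neg (t x : ℝ) :
    HasDerivAt (fun x => pp t (-x) ^ 2) (-(2 * pp t (-x))) x := by
  have h := (hasDerivAt_pp_sq t (-x)).comp x (hasDerivAt_neg x)
  refine h.congr_deriv ?_
  ring

noncomputable def cc : ℕ → ℝ
  | 0 => 1.770 | 1 => -1.209 | 2 => 0.260 | 3 => 0.109 | 4 => 0.092 | 5 => 0.074 | 6 => 0.131
  | 7 => 0.136 | 8 => 0.308 | 9 => 0.806 | _ => 0

noncomputable def dd : ℕ → ℝ
  | 0 => -0.058 | 1 => -0.222 | 2 => -0.131 | 3 => -0.054 | 4 => -0.046 | 5 => -0.037 | 6 => -0.065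
  | 7 => -0.069 | 8 => -0.153 | 9 => -0.434 | _ => 0

/-- the even function `S` -/
noncomputable def Sf (s : ℝ) : ℝ :=
  1.00854 + ∑ i ∈ Finset.range 10, cc i / 2 * (pp (i / 10) s ^ 2 + pp (i / 10) (-s) ^ 2)

/-- its derivative -/
noncomputable def S1f (s : ℝ) : ℝ :=
  ∑ i ∈ Finset.range 10, cc i * (pp (i / 10) s - pp (i / 10) (-s))

/-- minus the derivative of `k` -/
noncomputable def κf (s : ℝ) : ℝ :=
  0.7005 + ∑ i ∈ Finset.range 10, dd i * (pp (i / 10) s + pp (i / 10) (-s))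

/-- the odd function `k` -/
noncomputable def kf (s : ℝ) : ℝ :=
  -(0.7005 * s + ∑ i ∈ Finset.range 10, dd i / 2 * (pp (i / 10) s ^ 2 - pp (i / 10) (-s) ^ 2))

lemma hasDerivAt_Sf (s : ℝ) : HasDerivAt Sf (S1f s) s := by
  unfold Sf S1f
  refine HasDerivAt.const_add _ ?_
  refine (HasDerivAt.fun_sum fun (i : ℕ) _ =>
    ((hasDerivAt_pp_sq ((i : ℝ) / 10) s).fun_add (hasDerivAt_pp_sq_neg ((i : ℝ) / 10) s)).const_mul
      (cc i / 2)).congr_deriv ?_
  exact Finset.sum_congr rfl fun i _ => by ring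

lemma hasDerivAt_kf (s : ℝ) : HasDerivAt kf (-κf s) s := by
  unfold kf κf
  refine HasDerivAt.fun_neg ?_
  refine (((hasDerivAt_id s).const_mul 0.7005).fun_add (HasDerivAt.fun_sum fun (i : ℕ) _ =>
    ((hasDerivAt_pp_sq ((i : ℝ) / 10) s).fun_sub (hasDerivAt_pp_sq_neg ((i : ℝ) / 10) s)).const_mul
      (dd i / 2))).congr_deriv ?_
  rw [mul_one]
  congr 1
  exact Finset.sum_congr rfl fun i _ => by ring

lemma Sf_neg (s : ℝ) : Sf (-s) = Sf s := by
  unfold Sf; rw [neg_neg]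
  congr 1
  exact Finset.sum_congr rfl fun i _ => by ring

lemma S1f_neg (s : ℝ) : S1f (-s) = -S1f s := by
  unfold S1f; rw [neg_neg, ← Finset.sum_neg_distrib]
  exact Finset.sum_congr rfl fun i _ => by ring

lemma κf_neg (s : ℝ) : κf (-s) = κf s := by
  unfold κf; rw [neg_neg]
  congr 1
  exact Finset.sum_congr rfl fun i _ => by ring

lemma kf_neg (s : ℝ) : kf (-s) = -kf s := by
  unfold kf; rw [neg_neg, neg_neg]
  have : ∑ i ∈ Finset.range 10, dd i / 2 * (pp (i / 10) (-s) ^ 2 - pp (i / 10) s ^ 2)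
      = -∑ i ∈ Finset.range 10, dd i / 2 * (pp (i / 10) s ^ 2 - pp (i / 10) (-s) ^ 2) := by
    rw [← Finset.sum_neg_distrib]
    exact Finset.sum_congr rfl fun i _ => by ring
  rw [this]; ring

lemma pp_neg_zero {s : ℝ} (hs : 0 ≤ s) (i : ℕ) : pp (i / 10) (-s) = 0 := by
  apply pp_of_ge
  have : (0 : ℝ) ≤ i := by positivity
  linarith

lemma pp_left {l i : ℕ} {s : ℝ} (hs : (l : ℝ) / 10 ≤ s) (hi : i ≤ l) : pp (i / 10) s = s - i / 10 := by
  apply pp_of_le
  have : (i : ℝ) ≤ l := by exact_mod_cast hi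
  linarith

lemma pp_right {l i : ℕ} {s : ℝ} (hs : s ≤ (l : ℝ) / 10) (hi : l ≤ i) : pp (i / 10) s = 0 := by
  apply pp_of_ge
  have : (l : ℝ) ≤ i := by exact_mod_cast hi
  linarith

lemma piece_0 {t s : ℝ} (h0 : 0 ≤ t) (h1 : t ≤ 1) (hs : s = (0 + t) / 10) :
    200000 * Sf s = 201708 * (1 - t) ^ 2 + 2 * 201708 * (t * (1 - t)) + 203478 * t ^ 2 ∧
      10000 * S1f s = (1 - t) * 0 + t * 1770 ∧
      10000 * κf s = (1 - t) * 7005 + t * 6947 ∧
      200000 * kf s = -(0 * (1 - t) ^ 2 + 2 * 7005 * (t * (1 - t)) + 13952 * t ^ 2) := by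
  have hl : ((0 : ℕ) : ℝ) / 10 ≤ s := by rw [hs]; push_cast; linarith
  have hr : s ≤ ((1 : ℕ) : ℝ) / 10 := by rw [hs]; push_cast; linarith
  have hs0 : 0 ≤ s := by rw [hs]; linarith
  unfold Sf S1f κf kf
  simp only [Finset.sum_range_succ, Finset.sum_range_zero, pp_neg_zero hs0]
  rw [pp_left hl (show 0 ≤ 0 by omega), pp_right hr (show 1 ≤ 1 by omega), pp_right hr (show 1 ≤ 2 by omega), pp_right hr (show 1 ≤ 3 by omega), pp_right hr (show 1 ≤ 4 by omega), pp_right hr (show 1 ≤ 5 by omega), pp_right hr (show 1 ≤ 6 by omega), pp_right hr (show 1 ≤ 7 by omega), pp_right hr (show 1 ≤ 8 by omega), pp_right hr (show 1 ≤ 9 by omega)]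
  simp only [cc, dd]
  rw [hs]
  refine ⟨?_, ?_, ?_, ?_⟩ <;> norm_num <;> ring

lemma piece_1 {t s : ℝ} (h0 : 0 ≤ t) (h1 : t ≤ 1) (hs : s = (1 + t) / 10) :
    200000 * Sf s = 203478 * (1 - t) ^ 2 + 2 * 205248 * (t * (1 - t)) + 207579 * t ^ 2 ∧
      10000 * S1f s = (1 - t) * 1770 + t * 2331 ∧
      10000 * κf s = (1 - t) * 6947 + t * 6667 ∧
      200000 * kf s = -(13952 * (1 - t) ^ 2 + 2 * 20899 * (t * (1 - t)) + 27566 * t ^ 2) := by
  have hl : ((1 : ℕ) : ℝ) / 10 ≤ s := by rw [hs]; push_cast; linarith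
  have hr : s ≤ ((2 : ℕ) : ℝ) / 10 := by rw [hs]; push_cast; linarith
  have hs0 : 0 ≤ s := by rw [hs]; linarith
  unfold Sf S1f κf kf
  simp only [Finset.sum_range_succ, Finset.sum_range_zero, pp_neg_zero hs0]
  rw [pp_left hl (show 0 ≤ 1 by omega), pp_left hl (show 1 ≤ 1 by omega), pp_right hr (show 2 ≤ 2 by omega), pp_right hr (show 2 ≤ 3 by omega), pp_right hr (show 2 ≤ 4 by omega), pp_right hr (show 2 ≤ 5 by omega), pp_right hr (show 2 ≤ 6 by omega), pp_right hr (show 2 ≤ 7 by omega), pp_right hr (show 2 ≤ 8 by omega), pp_right hr (show 2 ≤ 9 by omega)]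
  simp only [cc, dd]
  rw [hs]
  refine ⟨?_, ?_, ?_, ?_⟩ <;> norm_num <;> ring

lemma piece_2 {t s : ℝ} (h0 : 0 ≤ t) (h1 : t ≤ 1) (hs : s = (2 + t) / 10) :
    200000 * Sf s = 207579 * (1 - t) ^ 2 + 2 * 209910 * (t * (1 - t)) + 213062 * t ^ 2 ∧
      10000 * S1f s = (1 - t) * 2331 + t * 3152 ∧
      10000 * κf s = (1 - t) * 6667 + t * 6256 ∧
      200000 * kf s = -(27566 * (1 - t) ^ 2 + 2 * 34233 * (t * (1 - t)) + 40489 * t ^ 2) := by
  have hl : ((2 : ℕ) : ℝ) / 10 ≤ s := by rw [hs]; push_cast; linarith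
  have hr : s ≤ ((3 : ℕ) : ℝ) / 10 := by rw [hs]; push_cast; linarith
  have hs0 : 0 ≤ s := by rw [hs]; linarith
  unfold Sf S1f κf kf
  simp only [Finset.sum_range_succ, Finset.sum_range_zero, pp_neg_zero hs0]
  rw [pp_left hl (show 0 ≤ 2 by omega), pp_left hl (show 1 ≤ 2 by omega), pp_left hl (show 2 ≤ 2 by omega), pp_right hr (show 3 ≤ 3 by omega), pp_right hr (show 3 ≤ 4 by omega), pp_right hr (show 3 ≤ 5 by omega), pp_right hr (show 3 ≤ 6 by omega), pp_right hr (show 3 ≤ 7 by omega), pp_right hr (show 3 ≤ 8 by omega), pp_right hr (show 3 ≤ 9 by omega)]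
  simp only [cc, dd]
  rw [hs]
  refine ⟨?_, ?_, ?_, ?_⟩ <;> norm_num <;> ring

lemma piece_3 {t s : ℝ} (h0 : 0 ≤ t) (h1 : t ≤ 1) (hs : s = (3 + t) / 10) :
    200000 * Sf s = 213062 * (1 - t) ^ 2 + 2 * 216214 * (t * (1 - t)) + 220296 * t ^ 2 ∧
      10000 * S1f s = (1 - t) * 3152 + t * 4082 ∧
      10000 * κf s = (1 - t) * 6256 + t * 5791 ∧
      200000 * kf s = -(40489 * (1 - t) ^ 2 + 2 * 46745 * (t * (1 - t)) + 52536 * t ^ 2) := by
  have hl : ((3 : ℕ) : ℝ) / 10 ≤ s := by rw [hs]; push_cast; linarith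
  have hr : s ≤ ((4 : ℕ) : ℝ) / 10 := by rw [hs]; push_cast; linarith
  have hs0 : 0 ≤ s := by rw [hs]; linarith
  unfold Sf S1f κf kf
  simp only [Finset.sum_range_succ, Finset.sum_range_zero, pp_neg_zero hs0]
  rw [pp_left hl (show 0 ≤ 3 by omega), pp_left hl (show 1 ≤ 3 by omega), pp_left hl (show 2 ≤ 3 by omega), pp_left hl (show 3 ≤ 3 by omega), pp_right hr (show 4 ≤ 4 by omega), pp_right hr (show 4 ≤ 5 by omega), pp_right hr (show 4 ≤ 6 by omega), pp_right hr (show 4 ≤ 7 by omega), pp_right hr (show 4 ≤ 8 by omega), pp_right hr (show 4 ≤ 9 by omega)]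
  simp only [cc, dd]
  rw [hs]
  refine ⟨?_, ?_, ?_, ?_⟩ <;> norm_num <;> ring

lemma piece_4 {t s : ℝ} (h0 : 0 ≤ t) (h1 : t ≤ 1) (hs : s = (4 + t) / 10) :
    200000 * Sf s = 220296 * (1 - t) ^ 2 + 2 * 224378 * (t * (1 - t)) + 229482 * t ^ 2 ∧
      10000 * S1f s = (1 - t) * 4082 + t * 5104 ∧
      10000 * κf s = (1 - t) * 5791 + t * 5280 ∧
      200000 * kf s = -(52536 * (1 - t) ^ 2 + 2 * 58327 * (t * (1 - t)) + 63607 * t ^ 2) := by
  have hl : ((4 : ℕ) : ℝ) / 10 ≤ s := by rw [hs]; push_cast; linarith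
  have hr : s ≤ ((5 : ℕ) : ℝ) / 10 := by rw [hs]; push_cast; linarith
  have hs0 : 0 ≤ s := by rw [hs]; linarith
  unfold Sf S1f κf kf
  simp only [Finset.sum_range_succ, Finset.sum_range_zero, pp_neg_zero hs0]
  rw [pp_left hl (show 0 ≤ 4 by omega), pp_left hl (show 1 ≤ 4 by omega), pp_left hl (show 2 ≤ 4 by omega), pp_left hl (show 3 ≤ 4 by omega), pp_left hl (show 4 ≤ 4 by omega), pp_right hr (show 5 ≤ 5 by omega), pp_right hr (show 5 ≤ 6 by omega), pp_right hr (show 5 ≤ 7 by omega), pp_right hr (show 5 ≤ 8 by omega), pp_right hr (show 5 ≤ 9 by omega)]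
  simp only [cc, dd]
  rw [hs]
  refine ⟨?_, ?_, ?_, ?_⟩ <;> norm_num <;> ring

lemma piece_5 {t s : ℝ} (h0 : 0 ≤ t) (h1 : t ≤ 1) (hs : s = (5 + t) / 10) :
    200000 * Sf s = 229482 * (1 - t) ^ 2 + 2 * 234586 * (t * (1 - t)) + 240786 * t ^ 2 ∧
      10000 * S1f s = (1 - t) * 5104 + t * 6200 ∧
      10000 * κf s = (1 - t) * 5280 + t * 4732 ∧
      200000 * kf s = -(63607 * (1 - t) ^ 2 + 2 * 68887 * (t * (1 - t)) + 73619 * t ^ 2) := by
  have hl : ((5 : ℕ) : ℝ) / 10 ≤ s := by rw [hs]; push_cast; linarith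
  have hr : s ≤ ((6 : ℕ) : ℝ) / 10 := by rw [hs]; push_cast; linarith
  have hs0 : 0 ≤ s := by rw [hs]; linarith
  unfold Sf S1f κf kf
  simp only [Finset.sum_range_succ, Finset.sum_range_zero, pp_neg_zero hs0]
  rw [pp_left hl (show 0 ≤ 5 by omega), pp_left hl (show 1 ≤ 5 by omega), pp_left hl (show 2 ≤ 5 by omega), pp_left hl (show 3 ≤ 5 by omega), pp_left hl (show 4 ≤ 5 by omega), pp_left hl (show 5 ≤ 5 by omega), pp_right hr (show 6 ≤ 6 by omega), pp_right hr (show 6 ≤ 7 by omega), pp_right hr (show 6 ≤ 8 by omega), pp_right hr (show 6 ≤ 9 by omega)]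
  simp only [cc, dd]
  rw [hs]
  refine ⟨?_, ?_, ?_, ?_⟩ <;> norm_num <;> ring

lemma piece_6 {t s : ℝ} (h0 : 0 ≤ t) (h1 : t ≤ 1) (hs : s = (6 + t) / 10) :
    200000 * Sf s = 240786 * (1 - t) ^ 2 + 2 * 246986 * (t * (1 - t)) + 254413 * t ^ 2 ∧
      10000 * S1f s = (1 - t) * 6200 + t * 7427 ∧
      10000 * κf s = (1 - t) * 4732 + t * 4119 ∧
      200000 * kf s = -(73619 * (1 - t) ^ 2 + 2 * 78351 * (t * (1 - t)) + 82470 * t ^ 2) := by
  have hl : ((6 : ℕ) : ℝ) / 10 ≤ s := by rw [hs]; push_cast; linarith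
  have hr : s ≤ ((7 : ℕ) : ℝ) / 10 := by rw [hs]; push_cast; linarith
  have hs0 : 0 ≤ s := by rw [hs]; linarith
  unfold Sf S1f κf kf
  simp only [Finset.sum_range_succ, Finset.sum_range_zero, pp_neg_zero hs0]
  rw [pp_left hl (show 0 ≤ 6 by omega), pp_left hl (show 1 ≤ 6 by omega), pp_left hl (show 2 ≤ 6 by omega), pp_left hl (show 3 ≤ 6 by omega), pp_left hl (show 4 ≤ 6 by omega), pp_left hl (show 5 ≤ 6 by omega), pp_left hl (show 6 ≤ 6 by omega), pp_right hr (show 7 ≤ 7 by omega), pp_right hr (show 7 ≤ 8 by omega), pp_right hr (show 7 ≤ 9 by omega)]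
  simp only [cc, dd]
  rw [hs]
  refine ⟨?_, ?_, ?_, ?_⟩ <;> norm_num <;> ring

lemma piece_7 {t s : ℝ} (h0 : 0 ≤ t) (h1 : t ≤ 1) (hs : s = (7 + t) / 10) :
    200000 * Sf s = 254413 * (1 - t) ^ 2 + 2 * 261840 * (t * (1 - t)) + 270630 * t ^ 2 ∧
      10000 * S1f s = (1 - t) * 7427 + t * 8790 ∧
      10000 * κf s = (1 - t) * 4119 + t * 3437 ∧
      200000 * kf s = -(82470 * (1 - t) ^ 2 + 2 * 86589 * (t * (1 - t)) + 90026 * t ^ 2) := by
  have hl : ((7 : ℕ) : ℝ) / 10 ≤ s := by rw [hs]; push_cast; linarith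
  have hr : s ≤ ((8 : ℕ) : ℝ) / 10 := by rw [hs]; push_cast; linarith
  have hs0 : 0 ≤ s := by rw [hs]; linarith
  unfold Sf S1f κf kf
  simp only [Finset.sum_range_succ, Finset.sum_range_zero, pp_neg_zero hs0]
  rw [pp_left hl (show 0 ≤ 7 by omega), pp_left hl (show 1 ≤ 7 by omega), pp_left hl (show 2 ≤ 7 by omega), pp_left hl (show 3 ≤ 7 by omega), pp_left hl (show 4 ≤ 7 by omega), pp_left hl (show 5 ≤ 7 by omega), pp_left hl (show 6 ≤ 7 by omega), pp_left hl (show 7 ≤ 7 by omega), pp_right hr (show 8 ≤ 8 by omega), pp_right hr (show 8 ≤ 9 by omega)]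
  simp only [cc, dd]
  rw [hs]
  refine ⟨?_, ?_, ?_, ?_⟩ <;> norm_num <;> ring

lemma piece_8 {t s : ℝ} (h0 : 0 ≤ t) (h1 : t ≤ 1) (hs : s = (8 + t) / 10) :
    200000 * Sf s = 270630 * (1 - t) ^ 2 + 2 * 279420 * (t * (1 - t)) + 289881 * t ^ 2 ∧
      10000 * S1f s = (1 - t) * 8790 + t * 10461 ∧
      10000 * κf s = (1 - t) * 3437 + t * 2602 ∧
      200000 * kf s = -(90026 * (1 - t) ^ 2 + 2 * 93463 * (t * (1 - t)) + 96065 * t ^ 2) := by
  have hl : ((8 : ℕ) : ℝ) / 10 ≤ s := by rw [hs]; push_cast; linarith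
  have hr : s ≤ ((9 : ℕ) : ℝ) / 10 := by rw [hs]; push_cast; linarith
  have hs0 : 0 ≤ s := by rw [hs]; linarith
  unfold Sf S1f κf kf
  simp only [Finset.sum_range_succ, Finset.sum_range_zero, pp_neg_zero hs0]
  rw [pp_left hl (show 0 ≤ 8 by omega), pp_left hl (show 1 ≤ 8 by omega), pp_left hl (show 2 ≤ 8 by omega), pp_left hl (show 3 ≤ 8 by omega), pp_left hl (show 4 ≤ 8 by omega), pp_left hl (show 5 ≤ 8 by omega), pp_left hl (show 6 ≤ 8 by omega), pp_left hl (show 7 ≤ 8 by omega), pp_left hl (show 8 ≤ 8 by omega), pp_right hr (show 9 ≤ 9 by omega)]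
  simp only [cc, dd]
  rw [hs]
  refine ⟨?_, ?_, ?_, ?_⟩ <;> norm_num <;> ring

lemma piece_9 {t s : ℝ} (h0 : 0 ≤ t) (h1 : t ≤ 1) (hs : s = (9 + t) / 10) :
    200000 * Sf s = 289881 * (1 - t) ^ 2 + 2 * 300342 * (t * (1 - t)) + 313280 * t ^ 2 ∧
      10000 * S1f s = (1 - t) * 10461 + t * 12938 ∧
      10000 * κf s = (1 - t) * 2602 + t * 1333 ∧
      200000 * kf s = -(96065 * (1 - t) ^ 2 + 2 * 98667 * (t * (1 - t)) + 100000 * t ^ 2) := by
  have hl : ((9 : ℕ) : ℝ) / 10 ≤ s := by rw [hs]; push_cast; linarith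
  have hr : s ≤ ((10 : ℕ) : ℝ) / 10 := by rw [hs]; push_cast; linarith
  have hs0 : 0 ≤ s := by rw [hs]; linarith
  unfold Sf S1f κf kf
  simp only [Finset.sum_range_succ, Finset.sum_range_zero, pp_neg_zero hs0]
  rw [pp_left hl (show 0 ≤ 9 by omega), pp_left hl (show 1 ≤ 9 by omega), pp_left hl (show 2 ≤ 9 by omega), pp_left hl (show 3 ≤ 9 by omega), pp_left hl (show 4 ≤ 9 by omega), pp_left hl (show 5 ≤ 9 by omega), pp_left hl (show 6 ≤ 9 by omega), pp_left hl (show 7 ≤ 9 by omega), pp_left hl (show 8 ≤ 9 by omega), pp_left hl (show 9 ≤ 9 by omega)]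
  simp only [cc, dd]
  rw [hs]
  refine ⟨?_, ?_, ?_, ?_⟩ <;> norm_num <;> ring

/-- values `-2 * 10^5 k(l/10)` -/
def BT : List ℕ := [0, 13952, 27566, 40489, 52536, 63607, 73619, 82470, 90026, 96065, 100000]

/-- the functions on one piece -/
lemma piece {l : ℕ} (hl : l < 10) {t s : ℝ} (h0 : 0 ≤ t) (h1 : t ≤ 1) (hs : s = (l + t) / 10) :
    200000 * Sf s = (AT.getD l 0 : ℕ) * (1 - t) ^ 2
        + 2 * ((AT.getD l 0 : ℕ) + (aT.getD l 0 : ℕ)) * (t * (1 - t)) + (AT.getD (l + 1) 0 : ℕ) * t ^ 2 ∧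
      10000 * S1f s = (1 - t) * (aT.getD l 0 : ℕ) + t * (aT.getD (l + 1) 0 : ℕ) ∧
      10000 * κf s = (1 - t) * (bT.getD l 0 : ℕ) + t * (bT.getD (l + 1) 0 : ℕ) ∧
      200000 * kf s = -((BT.getD l 0 : ℕ) * (1 - t) ^ 2
        + 2 * ((BT.getD l 0 : ℕ) + (bT.getD l 0 : ℕ)) * (t * (1 - t)) + (BT.getD (l + 1) 0 : ℕ) * t ^ 2) := by
  interval_cases l
  · have := piece_0 h0 h1 (show s = (0 + t) / 10 by rw [hs]; push_cast; ring)
    norm_num [AT, aT, bT, BT] at this ⊢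
    exact this
  · have := piece_1 h0 h1 (show s = (1 + t) / 10 by rw [hs]; push_cast; ring)
    norm_num [AT, aT, bT, BT] at this ⊢
    exact this
  · have := piece_2 h0 h1 (show s = (2 + t) / 10 by rw [hs]; push_cast; ring)
    norm_num [AT, aT, bT, BT] at this ⊢
    exact this
  · have := piece_3 h0 h1 (show s = (3 + t) / 10 by rw [hs]; push_cast; ring)
    norm_num [AT, aT, bT, BT] at this ⊢
    exact this
  · have := piece_4 h0 h1 (show s = (4 + t) / 10 by rw [hs]; push_cast; ring)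
    norm_num [AT, aT, bT, BT] at this ⊢
    exact this
  · have := piece_5 h0 h1 (show s = (5 + t) / 10 by rw [hs]; push_cast; ring)
    norm_num [AT, aT, bT, BT] at this ⊢
    exact this
  · have := piece_6 h0 h1 (show s = (6 + t) / 10 by rw [hs]; push_cast; ring)
    norm_num [AT, aT, bT, BT] at this ⊢
    exact this
  · have := piece_7 h0 h1 (show s = (7 + t) / 10 by rw [hs]; push_cast; ring)
    norm_num [AT, aT, bT, BT] at this ⊢
    exact this
  · have := piece_8 h0 h1 (show s = (8 + t) / 10 by rw [hs]; push_cast; ring)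
    norm_num [AT, aT, bT, BT] at this ⊢
    exact this
  · have := piece_9 h0 h1 (show s = (9 + t) / 10 by rw [hs]; push_cast; ring)
    norm_num [AT, aT, bT, BT] at this ⊢
    exact this

end MP_74021c_co
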