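import Pool.Agent.Work.DelaunayStretch.Cfg

namespace MP_74021c_co

open Real

/-- The value of the potential at a state. -/
noncomputable def Gval (ρ : ℝ) (K : ℝ → ℝ → ℝ → ℝ) (k : ℝ → ℝ) (z : ℂ) (R m β Fa Fb : ℝ) : ℝ :=
  (Fa + Fb) / 2 - ρ * z.re + R * K (z.im / R) β m + k (z.im / R) * (Fa - Fb)

variable {ρ : ℝ} {K : ℝ → ℝ → ℝ → ℝ} {k : ℝ → ℝ}
variable {a b c z z' : ℂ} {m β R m' β' R' Fa Fb F' : ℝ}

lemma stepR (hP : Potential ρ K k) (h : Cfg a b z m β R) (h' : Cfg a b z' m β' R')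
    (hβ : β ≤ β') (ha : 0 ≤ a.im) (hb : b.im ≤ 0) (hF : |Fa - Fb| ≤ dist a b) :
    Gval ρ K k z' R' m β' Fa Fb ≤ Gval ρ K k z R m β Fa Fb := by
  have hR := h.R_pos
  have hR' := h'.R_pos
  have hcb := h.cos_β_pos
  have hcb' := h'.cos_β_pos
  have hcm := h.cos_m_pos
  obtain ⟨w, hw⟩ : ∃ w, w = R * cos β := ⟨_, rfl⟩
  have hw' : w = R' * cos β' := by
    have e1 := h.dist_ab; have e2 := h'.dist_ab; linarith
  have hwpos : 0 < w := by rw [hw]; positivity
  obtain ⟨X, hX⟩ : ∃ X, X = (a.re + b.re) / 2 := ⟨_, rfl⟩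
  obtain ⟨Y, hY⟩ : ∃ Y, Y = (a.im + b.im) / 2 := ⟨_, rfl⟩
  obtain ⟨τ, hτ⟩ : ∃ τ, τ = Y / (w * cos m) := ⟨_, rfl⟩
  have hYτ : Y = τ * (w * cos m) := by rw [hτ]; field_simp
  have haim : a.im = Y + w * cos m := by
    have := h.sub_im; rw [hY]; linear_combination (1 / 2) * this - cos m * hw
  have hbim : b.im = Y - w * cos m := by
    have := h.sub_im; rw [hY]; linear_combination (-1 / 2) * this + cos m * hw
  have hwc : 0 < w * cos m := by positivity
  have hτ1 : |τ| ≤ 1 := by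
    rw [abs_le, hτ, le_div_iff₀ hwc, div_le_iff₀ hwc]
    constructor <;> linarith
  obtain ⟨δ, hδ⟩ : ∃ δ, δ = (Fa - Fb) / (2 * w) := ⟨_, rfl⟩
  have hFδ : Fa - Fb = 2 * w * δ := by rw [hδ]; field_simp
  have hδ1 : |δ| ≤ 1 := by
    rw [hδ, abs_div, abs_of_pos (show (0 : ℝ) < 2 * w by positivity), div_le_one (by positivity)]
    rw [h.dist_ab] at hF
    rw [hw]; linarith
  have key : ∀ {z : ℂ} {β R : ℝ}, Cfg a b z m β R → w = R * cos β →
      Gval ρ K k z R m β Fa Fb = (Fa + Fb) / 2 - ρ * X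
        + w * (-ρ * cos m * tan β + K (sin m * sin β + τ * cos m * cos β) β m / cos β
          + 2 * δ * k (sin m * sin β + τ * cos m * cos β)) := by
    intro z β R h hw
    have hR := h.R_pos
    have hcb := h.cos_β_pos
    have hzre : z.re = X + R * sin β * cos m := by
      have e1 := h.are; have e2 := h.bre
      rw [sin_add] at e1; rw [sin_sub] at e2
      rw [hX]; linear_combination (-1 / 2) * e1 + (-1 / 2) * e2
    have hzim : z.im = Y + R * sin β * sin m := by
      have e1 := h.aim; have e2 := h.bim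
      rw [cos_add] at e1; rw [cos_sub] at e2
      rw [hY]; linear_combination (-1 / 2) * e1 + (-1 / 2) * e2
    have hs : z.im / R = sin m * sin β + τ * cos m * cos β := by
      rw [hzim, hYτ, hw]; field_simp; ring
    have hwR : w / cos β = R := by rw [hw]; field_simp
    have hwt : w * tan β = R * sin β := by rw [hw, tan_eq_sin_div_cos]; field_simp
    unfold Gval
    rw [hs, hzre, hFδ]
    have e3 : w * (K (sin m * sin β + τ * cos m * cos β) β m / cos β)
        = R * K (sin m * sin β + τ * cos m * cos β) β m := by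
      rw [← hwR]; field_simp
    linear_combination (-1 : ℝ) * e3 + ρ * cos m * hwt
  rw [key h hw, key h' hw']
  have := hP.moveR m τ δ β β' h.hm hτ1 hδ1 (by linarith [(abs_lt.1 h.hβ).1]) hβ (abs_lt.1 h'.hβ).2
  nlinarith [mul_le_mul_of_nonneg_left this hwpos.le]

lemma stepA (hP : Potential ρ K k) (h : Cfg a b z m β R) (h' : Cfg c b z m' β' R)
    (hc : 0 < cross (c - b) (a - b)) (ha : 0 ≤ a.im) (hb : b.im ≤ 0) (hc' : 0 ≤ c.im)
    (hF : F' ≤ Fa + dist a c) :
    Gval ρ K k z R m' β' F' Fb ≤ Gval ρ K k z R m β Fa Fb := by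
  have hR := h.R_pos
  obtain ⟨α, hα, rfl, rfl, hd⟩ := h.moveA_params h' hc
  have hs := h.abs_s_le ha hb
  have hk := abs_le.1 (hP.k_le _ hs)
  have hA := hP.moveA _ β m α hs hα.le (h.valid ha hb) (h'.valid hc' hb)
  unfold Gval
  have h1 : (1 / 2 + k (z.im / R)) * (F' - Fa) ≤ (1 / 2 + k (z.im / R)) * (2 * R * α) :=
    mul_le_mul_of_nonneg_left (by linarith) (by linarith)
  have h2 := mul_le_mul_of_nonneg_left hA hR.le
  nlinarith [h1, h2]

lemma stepB (hP : Potential ρ K k) (h : Cfg a b z m β R) (h' : Cfg a c z m' β' R)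
    (hc : 0 < cross (c - b) (a - b)) (ha : 0 ≤ a.im) (hb : b.im ≤ 0) (hc' : c.im ≤ 0)
    (hF : F' ≤ Fb + dist b c) :
    Gval ρ K k z R m' β' Fa F' ≤ Gval ρ K k z R m β Fa Fb := by
  have hR := h.R_pos
  obtain ⟨α, hα, rfl, rfl, hd⟩ := h.moveB_params h' hc
  have hs := h.abs_s_le ha hb
  have hk := abs_le.1 (hP.k_le _ hs)
  have hA := hP.moveB _ β m α hs hα.le (h.valid ha hb) (h'.valid ha hc')
  unfold Gval
  have h1 : (1 / 2 - k (z.im / R)) * (F' - Fb) ≤ (1 / 2 - k (z.im / R)) * (2 * R * α) :=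
    mul_le_mul_of_nonneg_left (by linarith) (by linarith)
  have h2 := mul_le_mul_of_nonneg_left hA hR.le
  nlinarith [h1, h2]

/-- the circle passes through the start vertex `0` -/
lemma start_le (hP : Potential ρ K k) (h : Cfg a b z m β R) (ha : 0 < a.im) (hb : b.im < 0)
    (h0 : dist 0 z = R) (hz : 0 ≤ z.re) :
    Gval ρ K k z R m β (dist 0 a) (dist 0 b) ≤ 0 := by
  have hR := h.R_pos
  have hs := h.abs_s_le ha.le hb.le
  have hs' := abs_le.1 hs
  obtain ⟨θ, hθ⟩ : ∃ θ, θ = arcsin (z.im / R) := ⟨_, rfl⟩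
  have hsin : sin θ = z.im / R := by rw [hθ]; exact sin_arcsin hs'.1 hs'.2
  have hθ1 : |θ| ≤ π / 2 := by
    rw [hθ, abs_le]; exact ⟨neg_pi_div_two_le_arcsin _, arcsin_le_pi_div_two _⟩
  have hcosθ : 0 ≤ cos θ := cos_nonneg_of_neg_pi_div_two_le_of_le (abs_le.1 hθ1).1 (abs_le.1 hθ1).2
  have hzim : z.im = R * sin θ := by rw [hsin]; field_simp
  have hz2 : z.re ^ 2 + z.im ^ 2 = R ^ 2 := by
    have := dist_sq 0 z
    rw [h0] at this; simp at this; linarith
  have hzre : z.re = R * cos θ := by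
    have h1 : z.re ^ 2 = (R * cos θ) ^ 2 := by
      have := sin_sq_add_cos_sq θ
      rw [hzim] at hz2; nlinarith
    exact (sq_eq_sq₀ hz (by positivity)).1 h1
  have hm := abs_lt.1 h.hm
  have hβ := abs_lt.1 h.hβ
  -- position of a
  have hA2 : |m + β| < π / 2 + θ := by
    have h1 : cos (π / 2 + θ) < cos |m + β| := by
      rw [cos_abs, add_comm, cos_add_pi_div_two]
      have := h.aim
      rw [hzim] at this
      have h2 : 0 < R * (sin θ + cos (m + β)) := by nlinarith
      have h3 := (pos_iff_pos_of_mul_pos h2).1 hR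
      linarith
    by_contra hneg
    push Not at hneg
    have : cos |m + β| ≤ cos (π / 2 + θ) :=
      cos_le_cos_of_nonneg_of_le_pi (by linarith [(abs_le.1 hθ1).1])
        (by rw [abs_le]; constructor <;> linarith) hneg
    linarith
  have hA := (abs_lt.1 hA2).2
  have hA' := (abs_lt.1 hA2).1
  have hB : θ - π / 2 < m - β := by
    have h1 : cos (π / 2 - θ) < cos |m - β| := by
      rw [cos_abs, cos_pi_div_two_sub]
      have := h.bim
      rw [hzim] at this
      have h2 : 0 < R * (cos (m - β) - sin θ) := by nlinarith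
      have h3 := (pos_iff_pos_of_mul_pos h2).1 hR
      linarith
    have h4 : |m - β| < π / 2 - θ := by
      by_contra hneg
      push Not at hneg
      have : cos |m - β| ≤ cos (π / 2 - θ) :=
        cos_le_cos_of_nonneg_of_le_pi (by linarith [(abs_le.1 hθ1).2])
          (by rw [abs_le]; constructor <;> linarith) hneg
      linarith
    linarith [(abs_lt.1 h4).1]
  obtain ⟨α₁, hα₁⟩ : ∃ α, α = (π / 2 + θ - (m + β)) / 2 := ⟨_, rfl⟩
  obtain ⟨α₂, hα₂⟩ : ∃ α, α = (m - β - (θ - π / 2)) / 2 := ⟨_, rfl⟩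
  have hα₁' : 0 ≤ α₁ := by rw [hα₁]; linarith
  have hα₂' : 0 ≤ α₂ := by rw [hα₂]; linarith
  have hda : dist 0 a ≤ 2 * R * α₁ := by
    have := Cfg.dist_le_A (a := 0) (c := a) (z := z) (A := π / 2 + θ) (A' := m + β) hR.le hA.le
      (by rw [sin_add, hzre]; simp) (by rw [cos_add, hzim]; simp) h.are h.aim
    calc _ ≤ _ := this
      _ = _ := by rw [hα₁]; ring
  have hdb : dist 0 b ≤ 2 * R * α₂ := by
    have := Cfg.dist_le_B (a := 0) (c := b) (z := z) (A := θ - π / 2) (A' := m - β) hR.le hB.le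
      (by rw [sin_sub, hzre]; simp) (by rw [cos_sub, hzim]; simp) h.bre h.bim
    calc _ ≤ _ := this
      _ = _ := by rw [hα₂]; ring
  have hv0 : Valid (z.im / R) (π / 2) θ := by
    refine ⟨?_, hθ1, ?_, ?_⟩
    · rw [abs_of_pos (by positivity)]
    · rw [← hsin, cos_add]; simp
    · rw [← hsin, cos_sub]; simp
  have hv : Valid (z.im / R) β m := h.valid ha.le hb.le
  have hv1 : Valid (z.im / R) (π / 2 - α₁) (θ - α₁) := by
    have hab := abs_le.1 hθ1
    refine ⟨?_, ?_, ?_, ?_⟩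
    · rw [abs_le, hα₁]; constructor <;> linarith
    · rw [abs_le, hα₁]; constructor <;> linarith
    · rw [show θ - α₁ + (π / 2 - α₁) = m + β by rw [hα₁]; ring]; exact hv.2.2.1
    · rw [show θ - α₁ - (π / 2 - α₁) = θ - π / 2 by ring, ← hsin, cos_sub]; simp
  have e1 : π / 2 - α₁ - α₂ = β := by rw [hα₁, hα₂]; ring
  have e2 : θ - α₁ + α₂ = m := by rw [hα₁, hα₂]; ring
  have hA1 := hP.moveA _ (π / 2) θ α₁ hs hα₁' hv0 hv1
  have hB1 := hP.moveB _ (π / 2 - α₁) (θ - α₁) α₂ hs hα₂' hv1 (by rw [e1, e2]; exact hv)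
  rw [e1, e2] at hB1
  have hS := hP.start θ hθ1
  rw [hsin] at hS
  have hk := abs_le.1 (hP.k_le _ hs)
  unfold Gval
  have h1 : (1 / 2 + k (z.im / R)) * dist 0 a ≤ (1 / 2 + k (z.im / R)) * (2 * R * α₁) :=
    mul_le_mul_of_nonneg_left hda (by linarith)
  have h2 : (1 / 2 - k (z.im / R)) * dist 0 b ≤ (1 / 2 - k (z.im / R)) * (2 * R * α₂) :=
    mul_le_mul_of_nonneg_left hdb (by linarith)
  have h3 := mul_le_mul_of_nonneg_left hA1 hR.le
  have h4 := mul_le_mul_of_nonneg_left hB1 hR.le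
  have h5 := mul_le_mul_of_nonneg_left hS hR.le
  rw [hzre]
  nlinarith [h1, h2, h3, h4, h5]

/-- the circle passes through the end vertex `q` on the positive axis -/
lemma final_le (hP : Potential ρ K k) {q : ℂ} (hq : q.im = 0) (h : Cfg a b z m β R)
    (ha : 0 < a.im) (hb : b.im < 0) (hqz : dist q z = R) (hz : z.re ≤ q.re)
    (hc : 0 < cross (q - b) (a - b)) (hG : Gval ρ K k z R m β Fa Fb ≤ 0) :
    min (Fa + dist a q) (Fb + dist b q) ≤ ρ * q.re := by
  have hR := h.R_pos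
  have hs := h.abs_s_le ha.le hb.le
  have hs' := abs_le.1 hs
  obtain ⟨m', β', h'⟩ := exists_cfg (a := q) (b := b) hR (by rw [hq]; exact hb) hqz h.dist_b
  have hG' := (stepA (F' := Fa + dist a q) (Fb := Fb) hP h h' hc ha.le hb.le hq.ge le_rfl).trans hG
  obtain ⟨θ, hθ⟩ : ∃ θ, θ = arcsin (z.im / R) := ⟨_, rfl⟩
  have hsin : sin θ = z.im / R := by rw [hθ]; exact sin_arcsin hs'.1 hs'.2
  have hθ1 : |θ| ≤ π / 2 := by
    rw [hθ, abs_le]; exact ⟨neg_pi_div_two_le_arcsin _, arcsin_le_pi_div_two _⟩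
  have hab := abs_le.1 hθ1
  have hcosθ : 0 ≤ cos θ := cos_nonneg_of_neg_pi_div_two_le_of_le hab.1 hab.2
  have hzim : z.im = R * sin θ := by rw [hsin]; field_simp
  have hz2 : (q.re - z.re) ^ 2 + (q.im - z.im) ^ 2 = R ^ 2 := by rw [← dist_sq, hqz]
  have hzre : q.re - z.re = R * cos θ := by
    have h1 : (q.re - z.re) ^ 2 = (R * cos θ) ^ 2 := by
      have := sin_sq_add_cos_sq θ
      rw [hzim, hq] at hz2; nlinarith
    exact (sq_eq_sq₀ (by linarith) (by positivity)).1 h1
  have hm := abs_lt.1 h'.hm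
  have hβ := abs_lt.1 h'.hβ
  -- angle of q
  have hA : m' + β' = -(π / 2 + θ) := by
    have e1 := h'.are
    have e2 := h'.aim
    have h1 : sin (m' + β') = -cos θ := by
      have : R * sin (m' + β') = R * (-cos θ) := by linarith
      exact mul_left_cancel₀ hR.ne' this
    have h2 : cos (m' + β') = -sin θ := by
      have : R * cos (m' + β') = R * (-sin θ) := by rw [hq, hzim] at e2; linarith
      exact mul_left_cancel₀ hR.ne' this
    apply eq_of_sin_cos
    · rw [h1, sin_neg, sin_add]; simp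
    · rw [h2, cos_neg, cos_add]; simp
    · rw [abs_lt]
      constructor
      · linarith
      · -- m' + β' + π/2 + θ < 2π ; use θ < π/2 or sin
        by_contra hneg
        push Not at hneg
        linarith
  have hB : m' - β' < π / 2 - θ := by
    have h1 : cos (π / 2 - θ) < cos |m' - β'| := by
      rw [cos_abs, cos_pi_div_two_sub]
      have := h'.bim
      rw [hzim] at this
      have h2 : 0 < R * (cos (m' - β') - sin θ) := by nlinarith
      have h3 := (pos_iff_pos_of_mul_pos h2).1 hR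
      linarith
    have h4 : |m' - β'| < π / 2 - θ := by
      by_contra hneg
      push Not at hneg
      have : cos |m' - β'| ≤ cos (π / 2 - θ) :=
        cos_le_cos_of_nonneg_of_le_pi (by linarith)
          (by rw [abs_le]; constructor <;> linarith) hneg
      linarith
    exact (abs_lt.1 h4).2
  obtain ⟨α, hα⟩ : ∃ α, α = β' + π / 2 := ⟨_, rfl⟩
  have hα' : 0 ≤ α := by rw [hα]; linarith
  have hdb : dist b q ≤ 2 * R * α := by
    have := Cfg.dist_le_B (a := b) (c := q) (z := z) (A := m' - β') (A' := π / 2 - θ) hR.le hB.le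
      h'.bre h'.bim (by rw [sin_sub]; simp; linarith) (by rw [cos_sub, hzim, hq]; simp)
    calc _ ≤ _ := this
      _ = _ := by rw [hα]; linear_combination (-R) * hA
  have hv : Valid (z.im / R) β' m' := h'.valid hq.ge hb.le
  have e1 : β' - α = -(π / 2) := by rw [hα]; ring
  have e2 : m' + α = -θ := by rw [hα]; linarith
  have hv1 : Valid (z.im / R) (-(π / 2)) (-θ) := by
    refine ⟨?_, ?_, ?_, ?_⟩
    · rw [abs_neg, abs_of_pos (by positivity)]
    · rw [abs_neg]; exact hθ1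
    · rw [← hsin, show -θ + -(π / 2) = -(θ + π / 2) by ring, cos_neg, cos_add]; simp
    · rw [← hsin, show -θ - -(π / 2) = π / 2 - θ by ring, cos_sub]; simp
  have hB1 := hP.moveB _ β' m' α hs hα' hv (by rw [e1, e2]; exact hv1)
  rw [e1, e2] at hB1
  have hS := hP.fin θ hθ1
  rw [hsin] at hS
  have hk := abs_le.1 (hP.k_le _ hs)
  unfold Gval at hG'
  have h2 : (1 / 2 - k (z.im / R)) * dist b q ≤ (1 / 2 - k (z.im / R)) * (2 * R * α) :=
    mul_le_mul_of_nonneg_left hdb (by linarith)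
  have h4 := mul_le_mul_of_nonneg_left hB1 hR.le
  have h5 := mul_le_mul_of_nonneg_left hS hR.le
  have h6 : (1 / 2 + k (z.im / R)) * min (Fa + dist a q) (Fb + dist b q)
      ≤ (1 / 2 + k (z.im / R)) * (Fa + dist a q) :=
    mul_le_mul_of_nonneg_left (min_le_left _ _) (by linarith)
  have h7 : (1 / 2 - k (z.im / R)) * min (Fa + dist a q) (Fb + dist b q)
      ≤ (1 / 2 - k (z.im / R)) * (Fb + dist b q) :=
    mul_le_mul_of_nonneg_left (min_le_right _ _) (by linarith)
  have h8 : q.re = z.re + R * cos θ := by linarith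
  rw [h8]
  nlinarith [h2, h4, h5, h6, h7, hG']

end MP_74021c_co
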