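import Mathlib

namespace MP_74021c_co

open Real

lemma exp_I_bound (x : ℝ) (hx : |x| ≤ 9) :
    ‖Complex.exp (x * Complex.I) - ∑ m ∈ Finset.range 18, (x * Complex.I) ^ m / (m.factorial : ℂ)‖
      ≤ |x| ^ 18 / (Nat.factorial 18) * 2 := by
  have hn : ‖(x : ℂ) * Complex.I‖ = |x| := by
    rw [norm_mul, Complex.norm_I, mul_one, Complex.norm_real, Real.norm_eq_abs]
  have := Complex.exp_bound' (x := x * Complex.I) (n := 18) (by rw [hn]; norm_num; linarith)
  rwa [hn] at this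

noncomputable def ts (x : ℝ) : ℝ := x - x ^ 3 / 6 + x ^ 5 / 120 - x ^ 7 / 5040 + x ^ 9 / 362880
  - x ^ 11 / 39916800 + x ^ 13 / 6227020800 - x ^ 15 / 1307674368000 + x ^ 17 / 355687428096000

noncomputable def tc (x : ℝ) : ℝ := 1 - x ^ 2 / 2 + x ^ 4 / 24 - x ^ 6 / 720 + x ^ 8 / 40320
  - x ^ 10 / 3628800 + x ^ 12 / 479001600 - x ^ 14 / 87178291200 + x ^ 16 / 20922789888000

lemma sum_eq (x : ℝ) : ∑ m ∈ Finset.range 18, (x * Complex.I) ^ m / (m.factorial : ℂ)
    = (tc x : ℂ) + (ts x : ℂ) * Complex.I := by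
  obtain ⟨z, hz⟩ : ∃ z : ℂ, z = x * Complex.I := ⟨_, rfl⟩
  have h2 : z ^ 2 = -(x : ℂ) ^ 2 := by rw [hz, mul_pow, Complex.I_sq]; ring
  have h4 : z ^ 4 = (x : ℂ) ^ 4 := by rw [show z ^ 4 = (z ^ 2) ^ 2 by ring, h2]; ring
  have h6 : z ^ 6 = -(x : ℂ) ^ 6 := by rw [show z ^ 6 = (z ^ 2) ^ 3 by ring, h2]; ring
  have h8 : z ^ 8 = (x : ℂ) ^ 8 := by rw [show z ^ 8 = (z ^ 2) ^ 4 by ring, h2]; ring
  have h10 : z ^ 10 = -(x : ℂ) ^ 10 := by rw [show z ^ 10 = (z ^ 2) ^ 5 by ring, h2]; ring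
  have h12 : z ^ 12 = (x : ℂ) ^ 12 := by rw [show z ^ 12 = (z ^ 2) ^ 6 by ring, h2]; ring
  have h14 : z ^ 14 = -(x : ℂ) ^ 14 := by rw [show z ^ 14 = (z ^ 2) ^ 7 by ring, h2]; ring
  have h16 : z ^ 16 = (x : ℂ) ^ 16 := by rw [show z ^ 16 = (z ^ 2) ^ 8 by ring, h2]; ring
  have hs : (ts x : ℂ) * Complex.I = z - z * (x : ℂ) ^ 2 / 6 + z * (x : ℂ) ^ 4 / 120
      - z * (x : ℂ) ^ 6 / 5040 + z * (x : ℂ) ^ 8 / 362880 - z * (x : ℂ) ^ 10 / 39916800
      + z * (x : ℂ) ^ 12 / 6227020800 - z * (x : ℂ) ^ 14 / 1307674368000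
      + z * (x : ℂ) ^ 16 / 355687428096000 := by
    rw [hz]; simp only [ts]; push_cast; ring
  rw [hs, ← hz]
  simp only [tc, Finset.sum_range_succ, Finset.sum_range_zero, Nat.factorial]
  push_cast
  linear_combination (1 / 2 + z / 6) * h2 + (1 / 24 + z / 120) * h4 + (1 / 720 + z / 5040) * h6
    + (1 / 40320 + z / 362880) * h8 + (1 / 3628800 + z / 39916800) * h10
    + (1 / 479001600 + z / 6227020800) * h12 + (1 / 87178291200 + z / 1307674368000) * h14
    + (1 / 20922789888000 + z / 355687428096000) * h16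

lemma cos_taylor (x : ℝ) (hx : |x| ≤ 9) : |cos x - tc x| ≤ |x| ^ 18 / (Nat.factorial 18) * 2 := by
  have h := exp_I_bound x hx
  rw [sum_eq] at h
  have h1 := (Complex.abs_re_le_norm _).trans h
  simpa [Complex.exp_ofReal_mul_I_re] using h1

lemma sin_taylor (x : ℝ) (hx : |x| ≤ 9) : |sin x - ts x| ≤ |x| ^ 18 / (Nat.factorial 18) * 2 := by
  have h := exp_I_bound x hx
  rw [sum_eq] at h
  have h1 := (Complex.abs_im_le_norm _).trans h
  simpa [Complex.exp_ofReal_mul_I_im] using h1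

lemma taylor_err (x : ℝ) (h0 : 0 ≤ x) (hx : x ≤ 25 / 16) :
    |sin x - ts x| ≤ 1 / 10 ^ 12 ∧ |cos x - tc x| ≤ 1 / 10 ^ 12 := by
  have h1 : |x| ≤ 9 := by rw [abs_of_nonneg h0]; linarith
  have h2 : |x| ^ 18 / (Nat.factorial 18) * 2 ≤ 1 / 10 ^ 12 := by
    rw [abs_of_nonneg h0]
    have : x ^ 18 ≤ (25 / 16) ^ 18 := pow_le_pow_left₀ h0 hx 18
    have h3 : ((25 : ℝ) / 16) ^ 18 / (Nat.factorial 18) * 2 ≤ 1 / 10 ^ 12 := by
      norm_num [Nat.factorial]
    calc x ^ 18 / (Nat.factorial 18) * 2 ≤ (25 / 16) ^ 18 / (Nat.factorial 18) * 2 := by gcongr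
      _ ≤ _ := h3
  exact ⟨(sin_taylor x h1).trans h2, (cos_taylor x h1).trans h2⟩

/-- chord interpolation with a bound of the second derivative -/
lemma interp {F F' F'' : ℝ → ℝ} {a b M : ℝ} (hM : 0 ≤ M)
    (h1 : ∀ x ∈ Set.Icc a b, HasDerivAt F (F' x) x)
    (h2 : ∀ x ∈ Set.Icc a b, HasDerivAt F' (F'' x) x)
    (h3 : ∀ x ∈ Set.Icc a b, -M ≤ F'' x) {x : ℝ} (hx : x ∈ Set.Icc a b) :
    F x ≤ max (F a) (F b) + M * (b - a) ^ 2 / 8 := by
  have hab : a ≤ b := hx.1.trans hx.2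
  have hconv : ConvexOn ℝ (Set.Icc a b) fun x => F x + M / 2 * x ^ 2 := by
    apply convexOn_of_hasDerivWithinAt2_nonneg (convex_Icc a b) (f' := fun x => F' x + M * x)
      (f'' := fun x => F'' x + M)
    · intro x hx
      exact ((h1 x hx).continuousAt.add (by fun_prop)).continuousWithinAt
    · intro x hx
      have hx' := interior_subset hx
      have hq : HasDerivAt (fun y => M / 2 * y ^ 2) (M * x) x := by
        refine ((hasDerivAt_pow 2 x).const_mul (M / 2)).congr_deriv ?_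
        have : ((2 : ℕ) : ℝ) * x ^ (2 - 1) = 2 * x := by norm_num
        rw [this]; ring
      exact ((h1 x hx').fun_add hq).hasDerivWithinAt
    · intro x hx
      have hx' := interior_subset hx
      have hq : HasDerivAt (fun y => M * y) M x := by
        have := (hasDerivAt_id x).const_mul M
        simpa using this
      exact ((h2 x hx').fun_add hq).hasDerivWithinAt
    · intro x hx
      have := h3 x (interior_subset hx)
      linarith
  rcases hab.eq_or_lt with h | h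
  · subst h
    have : x = a := le_antisymm hx.2 hx.1
    rw [this]; simp
  · have hne : 0 < b - a := by linarith
    have k1 : 0 ≤ (b - x) / (b - a) := div_nonneg (by linarith [hx.2]) hne.le
    have k2 : 0 ≤ (x - a) / (b - a) := div_nonneg (by linarith [hx.1]) hne.le
    have k3 : (b - x) / (b - a) + (x - a) / (b - a) = 1 := by field_simp; ring
    have := hconv.2 (Set.left_mem_Icc.2 hab) (Set.right_mem_Icc.2 hab) k1 k2 k3
    have hxe : ((b - x) / (b - a)) • a + ((x - a) / (b - a)) • b = x := by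
      simp only [smul_eq_mul]; field_simp; ring
    rw [hxe] at this
    simp only [smul_eq_mul] at this
    obtain ⟨l, hl⟩ : ∃ l, l = (b - x) / (b - a) := ⟨_, rfl⟩
    have hl1 : (x - a) / (b - a) = 1 - l := by rw [hl]; field_simp; ring
    have hl0 : 0 ≤ l := by rw [hl]; exact div_nonneg (by linarith [hx.2]) hne.le
    have hl2 : 0 ≤ 1 - l := by rw [← hl1]; exact div_nonneg (by linarith [hx.1]) hne.le
    rw [← hl, hl1] at this
    have hxl : x = l * a + (1 - l) * b := by rw [hl]; field_simp; ring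
    have e1 : l * F a + (1 - l) * F b ≤ max (F a) (F b) := by
      have g0 : F a ≤ max (F a) (F b) := le_max_left _ _
      have g0' : F b ≤ max (F a) (F b) := le_max_right _ _
      have g1 := mul_le_mul_of_nonneg_left g0 hl0
      have g2 := mul_le_mul_of_nonneg_left g0' hl2
      linarith
    have e2 : l * (M / 2 * a ^ 2) + (1 - l) * (M / 2 * b ^ 2) - M / 2 * x ^ 2
        = M / 2 * (l * (1 - l)) * (b - a) ^ 2 := by
      rw [hxl]; ring
    have e3 : l * (1 - l) ≤ 1 / 4 := by nlinarith [sq_nonneg (l - 1 / 2)]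
    have e4 : M / 2 * (l * (1 - l)) * (b - a) ^ 2 ≤ M * (b - a) ^ 2 / 8 := by
      have : M / 2 * (l * (1 - l)) ≤ M / 2 * (1 / 4) := by gcongr
      have := mul_le_mul_of_nonneg_right this (sq_nonneg (b - a))
      linarith
    linarith

end MP_74021c_co
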